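import Mathlib

/-!
Right ideals of the Stone-Cech compactification of a discrete group, completely syndetic sets, the
FC-centre.
-/

set_option autoImplicit false

namespace Pool.Agent.R658.BG

attribute [local instance] Ultrafilter.mul Ultrafilter.semigroup

/-- Completely syndetic sets: for every `n` there is a finite set `F` such that every set with at
most `n` elements is contained in a translate `f A` with `f` in `F`. -/
def IsCS {G : Type} [Group G] (A : Set G) : Prop :=
  ∀ n : ℕ, 1 ≤ n → ∃ F : Finset G, ∀ S : Finset G, S.card ≤ n →
    ∃ f ∈ F, (S : Set G) ⊆ (fun x => f * x) '' A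

/-- Right ideals of the semigroup of ultrafilters on `G` (the Stone-Cech compactification of the
discrete group `G`, with the multiplication which is continuous in the left argument). -/
def IsRightIdeal {G : Type} [Group G] (R : Set (Ultrafilter G)) : Prop :=
  R.Nonempty ∧ ∀ p ∈ R, ∀ q : Ultrafilter G, p * q ∈ R

/-- Minimal closed right ideals: closed right ideals containing no smaller closed right ideal. -/
def IsMinimalClosedRightIdeal {G : Type} [Group G] (R : Set (Ultrafilter G)) : Prop :=
  IsClosed R ∧ IsRightIdeal R ∧
    ∀ R' : Set (Ultrafilter G), R' ⊆ R → IsClosed R' → IsRightIdeal R' → R' = R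

/-- The FC-centre: the elements with finitely many conjugates. -/
def fcCenter (G : Type) [Group G] : Subgroup G where
  carrier := {g | (Set.range fun h : G => h * g * h⁻¹).Finite}
  one_mem' := by
    have : (Set.range fun h : G => h * 1 * h⁻¹) = {1} := by
      ext x
      simp [eq_comm]
    rw [Set.mem_ofPred_eq, this]
    exact Set.finite_singleton _
  mul_mem' := by
    intro x y hx hy
    rw [Set.mem_ofPred_eq] at hx hy ⊢
    refine (hx.mul hy).subset ?_
    rintro _ ⟨h, rfl⟩
    exact ⟨h * x * h⁻¹, ⟨h, rfl⟩, h * y * h⁻¹, ⟨h, rfl⟩, by simp only; group⟩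
  inv_mem' := by
    intro x hx
    rw [Set.mem_ofPred_eq] at hx ⊢
    refine (hx.image (fun z => z⁻¹)).subset ?_
    rintro _ ⟨h, rfl⟩
    exact ⟨h * x * h⁻¹, ⟨h, rfl⟩, by simp only; group⟩

end Pool.Agent.R658.BG
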