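import Mathlib

/-!
Counting lemmas: functions with prescribed values on one of many disjoint small sets.
-/

set_option autoImplicit false

namespace Pool.Agent.R658.BG

open Finset

/-- Bad functions for a list of trials. -/
theorem bad_count {X S : Type*} [Fintype X] [DecidableEq X] [Fintype S] [DecidableEq S] [Nonempty S]
    (m : ℕ) (U : ℕ → Finset X) (d : ℕ → X → S) (r : ℕ)
    (hU : ∀ i, i < r → (U i).card ≤ m)
    (hdisj : ∀ i j, i < r → j < r → i ≠ j → Disjoint (U i) (U j)) :
    ((univ.filter (fun w : X → S => ∀ i < r, ∃ x ∈ U i, w x ≠ d i x)).card : ℝ) ≤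
      (1 - ((Fintype.card S : ℝ)⁻¹) ^ m) ^ r * (Fintype.card (X → S) : ℝ) := by
  classical
  have hσ : (1:ℝ) ≤ (Fintype.card S : ℝ) := by
    exact_mod_cast Nat.one_le_iff_ne_zero.2 Fintype.card_ne_zero
  have hσ0 : (0:ℝ) < (Fintype.card S : ℝ) := lt_of_lt_of_le one_pos hσ
  have hq0 : (0:ℝ) ≤ 1 - ((Fintype.card S : ℝ)⁻¹) ^ m := by
    have : ((Fintype.card S : ℝ)⁻¹) ^ m ≤ 1 := pow_le_one₀ (by positivity) (inv_le_one_of_one_le₀ hσ)
    linarith
  induction r with
  | zero => simp
  | succ r ih =>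
    have ih' := ih (fun i hi => hU i (by omega)) (fun i j hi hj => hdisj i j (by omega) (by omega))
    set B : Finset (X → S) := univ.filter (fun w : X → S => ∀ i < r, ∃ x ∈ U i, w x ≠ d i x) with hB
    set Mt : Finset (X → S) := B.filter (fun w => ∀ x ∈ U r, w x = d r x) with hMt
    have hsplit : (univ.filter (fun w : X → S => ∀ i < r + 1, ∃ x ∈ U i, w x ≠ d i x)).card
        + Mt.card = B.card := by
      have h1 : (univ.filter (fun w : X → S => ∀ i < r + 1, ∃ x ∈ U i, w x ≠ d i x)) =
          B.filter (fun w => ¬ ∀ x ∈ U r, w x = d r x) := by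
        ext w
        simp only [hB, mem_filter, mem_univ, true_and]
        constructor
        · intro h
          refine ⟨fun i hi => h i (by omega), ?_⟩
          obtain ⟨x, hx, hne⟩ := h r (by omega)
          intro hall
          exact hne (hall x hx)
        · rintro ⟨h, h2⟩ i hi
          rcases Nat.lt_succ_iff_lt_or_eq.1 hi with hi | hi
          · exact h i hi
          · subst hi
            push Not at h2
            exact h2
      rw [h1, add_comm, hMt]
      exact Finset.card_filter_add_card_filter_not _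
    have hfib : B.card ≤ (Fintype.card S) ^ m * Mt.card := by
      let ov : (X → S) → (X → S) := fun w x => if x ∈ U r then d r x else w x
      refine Finset.card_le_mul_card_image_of_maps_to (f := ov) ?_ _ ?_
      · intro w hw
        simp only [hMt, hB, mem_filter, mem_univ, true_and] at hw ⊢
        refine ⟨?_, ?_⟩
        · intro i hi
          obtain ⟨x, hx, hne⟩ := hw i hi
          refine ⟨x, hx, ?_⟩
          have hxr : x ∉ U r := by
            intro hxr
            exact Finset.disjoint_left.1 (hdisj i r (by omega) (by omega) (by omega)) hx hxr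
          simp only [ov, if_neg hxr]
          exact hne
        · intro x hx
          simp only [ov, if_pos hx]
      · intro b _
        have hinj : Set.InjOn (fun (w : X → S) => (fun x : {x // x ∈ U r} => w x.1))
            (B.filter (fun w => ov w = b) : Finset (X → S)) := by
          intro w hw w' hw' hww
          simp only [Finset.coe_filter, Set.mem_ofPred_eq] at hw hw'
          funext x
          by_cases hx : x ∈ U r
          · exact congrFun hww ⟨x, hx⟩
          · have h1 := congrFun hw.2 x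
            have h2 := congrFun hw'.2 x
            simp only [ov, if_neg hx] at h1 h2
            rw [h1, h2]
        have hcard : (B.filter (fun w => ov w = b)).card ≤ Fintype.card ({x // x ∈ U r} → S) := by
          rw [← Finset.card_univ]
          exact Finset.card_le_card_of_injOn _ (fun _ _ => Finset.mem_univ _) hinj
        refine hcard.trans ?_
        rw [Fintype.card_fun, Fintype.card_coe]
        exact Nat.pow_le_pow_right (Nat.one_le_iff_ne_zero.2 Fintype.card_ne_zero) (hU r (by omega))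
    have hfib' : (B.card : ℝ) ≤ (Fintype.card S : ℝ) ^ m * (Mt.card : ℝ) := by exact_mod_cast hfib
    have hsplit' : ((univ.filter (fun w : X → S => ∀ i < r + 1, ∃ x ∈ U i, w x ≠ d i x)).card : ℝ)
        = (B.card : ℝ) - (Mt.card : ℝ) := by
      have : ((univ.filter (fun w : X → S => ∀ i < r + 1, ∃ x ∈ U i, w x ≠ d i x)).card : ℝ)
        + (Mt.card : ℝ) = (B.card : ℝ) := by exact_mod_cast hsplit
      linarith
    have hM : ((Fintype.card S : ℝ)⁻¹) ^ m * (B.card : ℝ) ≤ (Mt.card : ℝ) := by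
      have hpos : (0:ℝ) < (Fintype.card S : ℝ) ^ m := by positivity
      rw [inv_pow, inv_mul_le_iff₀ hpos]
      exact hfib'
    rw [hsplit']
    calc (B.card : ℝ) - (Mt.card : ℝ)
        ≤ (1 - ((Fintype.card S : ℝ)⁻¹) ^ m) * (B.card : ℝ) := by linarith
      _ ≤ (1 - ((Fintype.card S : ℝ)⁻¹) ^ m) *
          ((1 - ((Fintype.card S : ℝ)⁻¹) ^ m) ^ r * (Fintype.card (X → S) : ℝ)) :=
          mul_le_mul_of_nonneg_left ih' hq0
      _ = _ := by rw [pow_succ]; ring

/-- If there are few tasks and many disjoint trials for each task, then some function succeeds in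
one trial of every task. -/
theorem exists_fun {X S ι : Type*} [Fintype X] [DecidableEq X] [Fintype S] [DecidableEq S]
    [Nonempty S] [Fintype ι] (m r : ℕ) (U : ι → ℕ → Finset X) (d : ι → ℕ → X → S)
    (hU : ∀ τ i, i < r → (U τ i).card ≤ m)
    (hdisj : ∀ τ i j, i < r → j < r → i ≠ j → Disjoint (U τ i) (U τ j))
    (hlt : (Fintype.card ι : ℝ) * (1 - ((Fintype.card S : ℝ)⁻¹) ^ m) ^ r < 1) :
    ∃ w : X → S, ∀ τ, ∃ i < r, ∀ x ∈ U τ i, w x = d τ i x := by
  classical
  by_contra hcon
  push Not at hcon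
  have hcov : (univ : Finset (X → S)) ⊆
      (univ : Finset ι).biUnion
        (fun τ => univ.filter (fun w : X → S => ∀ i < r, ∃ x ∈ U τ i, w x ≠ d τ i x)) := by
    intro w _
    obtain ⟨τ, hτ⟩ := hcon w
    simp only [Finset.mem_biUnion, mem_univ, true_and, mem_filter]
    exact ⟨τ, hτ⟩
  have h1 : (Fintype.card (X → S) : ℝ) ≤
      ∑ τ : ι, ((univ.filter (fun w : X → S => ∀ i < r, ∃ x ∈ U τ i, w x ≠ d τ i x)).card : ℝ) := by
    have := (Finset.card_le_card hcov).trans Finset.card_biUnion_le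
    rw [Finset.card_univ] at this
    exact_mod_cast this
  have h2 : (∑ τ : ι, ((univ.filter
      (fun w : X → S => ∀ i < r, ∃ x ∈ U τ i, w x ≠ d τ i x)).card : ℝ)) ≤
      ∑ _τ : ι, (1 - ((Fintype.card S : ℝ)⁻¹) ^ m) ^ r * (Fintype.card (X → S) : ℝ) :=
    Finset.sum_le_sum (fun τ _ => bad_count m (U τ) (d τ) r (hU τ) (hdisj τ))
  rw [Finset.sum_const, Finset.card_univ, nsmul_eq_mul, ← mul_assoc] at h2
  have hpos : (0:ℝ) < (Fintype.card (X → S) : ℝ) := by
    exact_mod_cast Fintype.card_pos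
  have h3 : (Fintype.card (X → S) : ℝ) < (Fintype.card (X → S) : ℝ) := by
    calc (Fintype.card (X → S) : ℝ)
        ≤ (Fintype.card ι : ℝ) * (1 - ((Fintype.card S : ℝ)⁻¹) ^ m) ^ r *
            (Fintype.card (X → S) : ℝ) := h1.trans h2
      _ < 1 * (Fintype.card (X → S) : ℝ) := mul_lt_mul_of_pos_right hlt hpos
      _ = _ := one_mul _
  exact lt_irrefl _ h3

/-- The asymptotic inequality used to choose the next finite subgroup. -/
theorem exists_large (m c : ℕ) (hc : 0 < c) (q : ℝ) (hq0 : 0 ≤ q) (hq1 : q < 1) :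
    ∃ N₀ : ℕ, ∀ N, N₀ ≤ N → (2 * (N:ℝ) ^ m) * q ^ (N / c) < 1 := by
  have hlim : Filter.Tendsto (fun n : ℕ => (n:ℝ) ^ m * q ^ n) Filter.atTop (nhds 0) :=
    tendsto_pow_const_mul_const_pow_of_abs_lt_one m (by rw [abs_of_nonneg hq0]; exact hq1)
  have hcpos : (0:ℝ) < 2 * ((2 * c : ℕ) : ℝ) ^ m := by positivity
  have hev := hlim.eventually (gt_mem_nhds (show (0:ℝ) < (2 * ((2 * c : ℕ) : ℝ) ^ m)⁻¹ by positivity))
  obtain ⟨k₀, hk₀⟩ := Filter.eventually_atTop.1 hev
  refine ⟨c * (k₀ + 1), fun N hN => ?_⟩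
  have hk : k₀ + 1 ≤ N / c := (Nat.le_div_iff_mul_le hc).2 (by rw [mul_comm]; exact hN)
  have hNle : N ≤ (2 * c) * (N / c) := by
    have h1 : N < c * (N / c + 1) := by
      have := Nat.lt_mul_div_succ N hc
      simpa using this
    have h2 : c * (N / c + 1) ≤ (2 * c) * (N / c) := by
      have : N / c + 1 ≤ 2 * (N / c) := by omega
      calc c * (N / c + 1) ≤ c * (2 * (N / c)) := Nat.mul_le_mul_left _ this
        _ = _ := by ring
    omega
  have h3 := hk₀ (N / c) (by omega)
  have h4 : (N:ℝ) ^ m ≤ (((2 * c : ℕ) : ℝ)) ^ m * ((N / c : ℕ) : ℝ) ^ m := by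
    rw [← mul_pow]
    refine pow_le_pow_left₀ (by positivity) ?_ _
    exact_mod_cast hNle
  calc (2 * (N:ℝ) ^ m) * q ^ (N / c)
      ≤ (2 * ((((2 * c : ℕ) : ℝ)) ^ m * ((N / c : ℕ) : ℝ) ^ m)) * q ^ (N / c) := by
        gcongr
    _ = (2 * ((2 * c : ℕ) : ℝ) ^ m) * (((N / c : ℕ) : ℝ) ^ m * q ^ (N / c)) := by ring
    _ < (2 * ((2 * c : ℕ) : ℝ) ^ m) * (2 * ((2 * c : ℕ) : ℝ) ^ m)⁻¹ :=
        mul_lt_mul_of_pos_left h3 hcpos
    _ = 1 := mul_inv_cancel₀ hcpos.ne'

end Pool.Agent.R658.BG
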