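import Mathlib
import Pool.Agent.R658.BGComb

/-!
Choice of large finite subgroups, counting of bad translations, greedy selection.
-/

set_option autoImplicit false

namespace Pool.Agent.R658.BG

open Finset

variable {G : Type*} [Group G]

theorem greedy {α : Type*} [DecidableEq α] (A : Finset α) (R : α → α → Prop)
    [∀ a, DecidablePred (R a)] (c : ℕ) (hR : ∀ a ∈ A, (A.filter (R a)).card ≤ c) (r : ℕ)
    (hr : r * c < A.card) :
    ∃ f : ℕ → α, (∀ i < r, f i ∈ A) ∧ ∀ i j, i < j → j < r → ¬ R (f i) (f j) := by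
  induction r with
  | zero =>
    obtain ⟨a, ha⟩ : A.Nonempty := Finset.card_pos.1 (by omega)
    exact ⟨fun _ => a, fun i hi => absurd hi (by omega), fun i j _ hj => absurd hj (by omega)⟩
  | succ r ih =>
    have hrc : r * c < A.card := lt_of_le_of_lt (Nat.mul_le_mul_right c (Nat.le_succ r)) hr
    obtain ⟨f, hf1, hf2⟩ := ih hrc
    have hcard : ((Finset.range r).biUnion (fun i => A.filter (R (f i)))).card < A.card := by
      refine lt_of_le_of_lt (Finset.card_biUnion_le_card_mul _ _ c ?_) ?_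
      · intro i hi
        exact hR _ (hf1 i (Finset.mem_range.1 hi))
      · rw [Finset.card_range]; exact hrc
    obtain ⟨a, haA, ha⟩ := Finset.exists_mem_notMem_of_card_lt_card hcard
    refine ⟨Function.update f r a, ?_, ?_⟩
    · intro i hi
      rcases Nat.lt_succ_iff_lt_or_eq.1 hi with h | h
      · rw [Function.update_of_ne (by omega)]; exact hf1 i h
      · subst h; rw [Function.update_self]; exact haA
    · intro i j hij hj
      rw [Function.update_of_ne (by omega : i ≠ r)]
      rcases Nat.lt_succ_iff_lt_or_eq.1 hj with h | h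
      · rw [Function.update_of_ne (by omega : j ≠ r)]; exact hf2 i j hij h
      · subst h
        rw [Function.update_self]
        intro hRa
        apply ha
        simp only [Finset.mem_biUnion, Finset.mem_range, Finset.mem_filter]
        exact ⟨i, hij, haA, hRa⟩

theorem exists_conjugators {l : G} (hinf : (Set.range fun h : G => h * l * h⁻¹).Infinite) (n : ℕ) :
    ∃ D : Finset G, D.card = n ∧ Set.InjOn (fun h : G => h * l * h⁻¹) (D : Set G) := by
  classical
  obtain ⟨t, ht, htn⟩ := hinf.exists_subset_card_eq n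
  have hch : ∀ x : G, ∃ h : G, x ∈ t → h * l * h⁻¹ = x := by
    intro x
    by_cases hx : x ∈ t
    · obtain ⟨h, hh⟩ := ht (Finset.mem_coe.2 hx)
      exact ⟨h, fun _ => hh⟩
    · exact ⟨1, fun h => absurd h hx⟩
  choose s hs using hch
  have hinj : Set.InjOn s (t : Set G) := by
    intro x hx y hy hxy
    have h1 := hs x (Finset.mem_coe.1 hx)
    have h2 := hs y (Finset.mem_coe.1 hy)
    rw [← h1, ← h2, hxy]
  refine ⟨t.image s, ?_, ?_⟩
  · rw [Finset.card_image_of_injOn hinj, htn]
  · intro a ha b hb hab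
    simp only [Finset.coe_image, Set.mem_image, Finset.mem_coe] at ha hb
    obtain ⟨x, hx, rfl⟩ := ha
    obtain ⟨y, hy, rfl⟩ := hb
    simp only [hs x hx, hs y hy] at hab
    rw [hab]

theorem exists_cosets {C : Subgroup G} (hidx : C.index = 0) (n : ℕ) :
    ∃ D : Finset G, D.card = n ∧ ∀ x ∈ D, ∀ y ∈ D, x⁻¹ * y ∈ C → x = y := by
  classical
  have hinf : Infinite (G ⧸ C) := by
    rw [Subgroup.index] at hidx
    by_contra h
    rw [not_infinite_iff_finite] at h
    exact (Nat.card_pos (α := G ⧸ C)).ne' hidx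
  obtain ⟨s, hs⟩ := Infinite.exists_subset_card_eq (G ⧸ C) n
  refine ⟨s.image Quotient.out, ?_, ?_⟩
  · rw [Finset.card_image_of_injective _ Quotient.out_injective, hs]
  · intro x hx y hy hxy
    simp only [Finset.mem_image] at hx hy
    obtain ⟨a, _, rfl⟩ := hx
    obtain ⟨b, _, rfl⟩ := hy
    have h1 : (QuotientGroup.mk (Quotient.out a) : G ⧸ C) = QuotientGroup.mk (Quotient.out b) :=
      QuotientGroup.eq.2 hxy
    have h2 : a = b := by
      rw [← QuotientGroup.out_eq' a, ← QuotientGroup.out_eq' b]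
      exact h1
    rw [h2]

/-- Choice of the next finite subgroup. -/
theorem exists_M {C : Subgroup G}
    (hinf : ∀ g, g ∉ C → (Set.range fun h : G => h * g * h⁻¹).Infinite)
    (hidx : C.index = 0)
    (hloc : ∀ E : Finset G, ∃ M : Subgroup G, (M : Set G).Finite ∧ (↑E ⊆ (M : Set G)) ∧
      (M ⊓ C).Normal)
    (L : Subgroup G) (hL : (L : Set G).Finite) (hLn : (L ⊓ C).Normal) (K N₀ : ℕ) (E : Finset G) :
    ∃ (M : Subgroup G) (Mf : Finset G), (∀ x, x ∈ Mf ↔ x ∈ M) ∧ (↑E ⊆ (M : Set G)) ∧ L ≤ M ∧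
      (M ⊓ C).Normal ∧ N₀ ≤ Mf.card ∧
      (∀ g ∈ M, g ∉ L ⊓ C → ∀ B : Finset G, (∀ f ∈ B, f ∈ M ∧ f * g * f⁻¹ ∈ L) →
        K * B.card ≤ Mf.card) ∧
      (∀ B : Finset G, (∀ x ∈ B, ∃ l ∈ L, l⁻¹ * x ∈ M ⊓ C) → K * B.card ≤ Mf.card) := by
  classical
  set Lf : Finset G := hL.toFinset with hLf
  have hLmem : ∀ x, x ∈ Lf ↔ x ∈ L := by intro x; simp [hLf]
  have hLpos : 0 < Lf.card := Finset.card_pos.2 ⟨1, (hLmem 1).2 (one_mem _)⟩
  have hconj : ∀ l : G, ∃ D : Finset G, l ∉ C →
      (D.card = K * Lf.card ∧ Set.InjOn (fun h : G => h * l * h⁻¹) (D : Set G)) := by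
    intro l
    by_cases hl : l ∈ C
    · exact ⟨∅, fun h => absurd hl h⟩
    · obtain ⟨D, hD⟩ := exists_conjugators (hinf l hl) (K * Lf.card)
      exact ⟨D, fun _ => hD⟩
  choose D hD using hconj
  obtain ⟨D', hD'1, hD'2⟩ := exists_cosets hidx (K * Lf.card)
  obtain ⟨D'', hD''1, _⟩ := exists_cosets hidx N₀
  obtain ⟨M, hMfin, hME, hMn⟩ := hloc (E ∪ Lf ∪ Lf.biUnion D ∪ D' ∪ D'')
  have hE : (↑E ⊆ (M : Set G)) := fun x hx => hME (by
    simp only [Finset.coe_union, Set.mem_union]; tauto)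
  have hLM : ∀ x ∈ Lf, x ∈ M := fun x hx => hME (by
    simp only [Finset.coe_union, Set.mem_union, Finset.mem_coe]; tauto)
  have hDM : ∀ l ∈ Lf, ∀ x ∈ D l, x ∈ M := fun l hl x hx => hME (by
    simp only [Finset.coe_union, Set.mem_union, Finset.mem_coe, Finset.mem_biUnion]
    exact Or.inl (Or.inl (Or.inr ⟨l, hl, hx⟩)))
  have hD'M : ∀ x ∈ D', x ∈ M := fun x hx => hME (by
    simp only [Finset.coe_union, Set.mem_union, Finset.mem_coe]; tauto)
  have hD''M : ∀ x ∈ D'', x ∈ M := fun x hx => hME (by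
    simp only [Finset.coe_union, Set.mem_union, Finset.mem_coe]; tauto)
  set Mf : Finset G := hMfin.toFinset with hMf
  have hMmem : ∀ x, x ∈ Mf ↔ x ∈ M := by intro x; simp [hMf]
  refine ⟨M, Mf, hMmem, hE, fun x hx => hLM x ((hLmem x).2 hx), hMn, ?_, ?_, ?_⟩
  · rw [← hD''1]
    exact Finset.card_le_card (fun x hx => (hMmem x).2 (hD''M x hx))
  · intro g hg hgL B hB
    rcases B.eq_empty_or_nonempty with hBe | ⟨f₀, hf₀⟩
    · subst hBe; simp
    obtain ⟨hf₀M, hf₀L⟩ := hB f₀ hf₀
    set l₀ : G := f₀ * g * f₀⁻¹ with hl₀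
    have hl₀C : l₀ ∉ C := by
      intro h
      apply hgL
      have := hLn.conj_mem l₀ ⟨hf₀L, h⟩ f₀⁻¹
      have h2 : f₀⁻¹ * l₀ * f₀⁻¹⁻¹ = g := by rw [hl₀]; group
      rwa [h2] at this
    obtain ⟨hDc, hDi⟩ := hD l₀ hl₀C
    have hcard : (D l₀).card * B.card ≤ Mf.card * Lf.card := by
      rw [← Finset.card_product, ← Finset.card_product]
      refine Finset.card_le_card_of_injOn
        (fun p : G × G => (p.2 * f₀⁻¹ * p.1⁻¹, p.2 * g * p.2⁻¹)) ?_ ?_
      · rintro ⟨h, f⟩ hp
        simp only [Finset.coe_product, Set.mem_prod, Finset.mem_coe] at hp ⊢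
        refine ⟨(hMmem _).2 ?_, (hLmem _).2 (hB f hp.2).2⟩
        exact mul_mem (mul_mem (hB f hp.2).1 (inv_mem hf₀M))
          (inv_mem (hDM l₀ ((hLmem _).2 hf₀L) h hp.1))
      · rintro ⟨h, f⟩ hp ⟨h', f'⟩ hp' heq
        simp only [Finset.coe_product, Set.mem_prod, Finset.mem_coe] at hp hp'
        simp only [Prod.mk.injEq] at heq
        obtain ⟨h1, h2⟩ := heq
        have key : ∀ (h f : G), h * l₀ * h⁻¹ =
            (f * f₀⁻¹ * h⁻¹)⁻¹ * (f * g * f⁻¹) * (f * f₀⁻¹ * h⁻¹) := by
          intro h f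
          rw [hl₀]; group
        have h3 : h * l₀ * h⁻¹ = h' * l₀ * h'⁻¹ := by
          rw [key h f, key h' f', h1, h2]
        have h4 : h = h' := hDi (Finset.mem_coe.2 hp.1) (Finset.mem_coe.2 hp'.1) h3
        subst h4
        have h5 : f = f' := by
          have := mul_right_cancel (mul_right_cancel h1)
          exact this
        rw [h5]
    rw [hDc] at hcard
    have : K * B.card * Lf.card ≤ Mf.card * Lf.card := by
      calc K * B.card * Lf.card = K * Lf.card * B.card := by ring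
        _ ≤ _ := hcard
    exact Nat.le_of_mul_le_mul_right this hLpos
  · intro B hB
    set Nf : Finset G := Mf.filter (fun x => x ∈ C) with hNf
    have hBN : B.card ≤ Lf.card * Nf.card := by
      choose! l hl1 hl2 using hB
      rw [← Finset.card_product]
      refine Finset.card_le_card_of_injOn (fun x => (l x, (l x)⁻¹ * x)) ?_ ?_
      · intro x hx
        simp only [Finset.coe_product, Set.mem_prod, Finset.mem_coe]
        have h2 := hl2 x hx
        refine ⟨(hLmem _).2 (hl1 x hx), ?_⟩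
        simp only [hNf, Finset.mem_filter, hMmem]
        exact ⟨h2.1, h2.2⟩
      · intro x _ y _ hxy
        simp only [Prod.mk.injEq] at hxy
        obtain ⟨h1, h2⟩ := hxy
        rw [h1] at h2
        exact mul_left_cancel h2
    have hDN : D'.card * Nf.card ≤ Mf.card := by
      rw [← Finset.card_product]
      refine Finset.card_le_card_of_injOn (fun p : G × G => p.1 * p.2) ?_ ?_
      · rintro ⟨s, ν⟩ hp
        simp only [Finset.coe_product, Set.mem_prod, Finset.mem_coe, hNf, Finset.mem_filter,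
          hMmem] at hp ⊢
        exact mul_mem (hD'M s hp.1) hp.2.1
      · rintro ⟨s, ν⟩ hp ⟨s', ν'⟩ hp' heq
        simp only [Finset.coe_product, Set.mem_prod, Finset.mem_coe, hNf, Finset.mem_filter]
          at hp hp'
        simp only at heq
        have h1 : s⁻¹ * s' ∈ C := by
          have : s⁻¹ * s' = ν * ν'⁻¹ := by
            have h2 : s' = s * ν * ν'⁻¹ := by rw [heq]; group
            rw [h2]; group
          rw [this]
          exact mul_mem hp.2.2 (inv_mem hp'.2.2)
        have h2 : s = s' := hD'2 s hp.1 s' hp'.1 h1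
        subst h2
        rw [mul_left_cancel heq]
    rw [hD'1] at hDN
    calc K * B.card ≤ K * (Lf.card * Nf.card) := Nat.mul_le_mul_left _ hBN
      _ = K * Lf.card * Nf.card := by ring
      _ ≤ _ := hDN

theorem exists_rho (L : Subgroup G) : ∃ ρ : G → G, (∀ x, x * (ρ x)⁻¹ ∈ L) ∧
    (∀ x y, x * y⁻¹ ∈ L → ρ x = ρ y) ∧ (∀ x y, ρ x = ρ y → x * y⁻¹ ∈ L) := by
  have h1 : ∀ x : G, x * ((Quotient.mk (QuotientGroup.rightRel L) x).out)⁻¹ ∈ L := by
    intro x
    have h := Quotient.mk_out (s := QuotientGroup.rightRel L) x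
    exact QuotientGroup.rightRel_apply.1 h
  refine ⟨fun x => (Quotient.mk (QuotientGroup.rightRel L) x).out, h1, ?_, ?_⟩
  · intro x y hxy
    have : Quotient.mk (QuotientGroup.rightRel L) x = Quotient.mk (QuotientGroup.rightRel L) y := by
      apply Quotient.sound
      change (QuotientGroup.rightRel L).r x y
      rw [QuotientGroup.rightRel_apply]
      have := inv_mem hxy
      simpa using this
    simp only [this]
  · intro x y hxy
    simp only at hxy
    have h2 := h1 x
    have h3 := h1 y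
    rw [hxy] at h2
    have h4 := mul_mem h2 (inv_mem h3)
    have h5 : x * (Quotient.mk (QuotientGroup.rightRel L) y).out⁻¹ *
        (y * (Quotient.mk (QuotientGroup.rightRel L) y).out⁻¹)⁻¹ = x * y⁻¹ := by group
    rwa [h5] at h4

end Pool.Agent.R658.BG
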