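import Mathlib
import Pool.Agent.R658.BGChoose

/-!
The inductive step: extending a colouring of a finite subgroup to a larger finite subgroup.
-/

set_option autoImplicit false

namespace Pool.Agent.R658.BG

open Finset

variable {G : Type*} [Group G]

/-- A colouring of a finite subgroup which is constant on two cosets of its intersection with `C`,
one for each colour. -/
structure St (G : Type*) [Group G] (C : Subgroup G) (a : Bool → G) where
  /-- the finite subgroup -/
  L : Subgroup G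
  /-- the colouring (only the values on `L` matter) -/
  col : G → Bool
  fin : (L : Set G).Finite
  nor : (L ⊓ C).Normal
  mem : ∀ ε, a ε ∈ L
  con : ∀ ε, ∀ ν ∈ L ⊓ C, col (a ε * ν) = ε

theorem step {C : Subgroup G}
    (hinf : ∀ g, g ∉ C → (Set.range fun h : G => h * g * h⁻¹).Infinite)
    (hidx : C.index = 0)
    (hloc : ∀ E : Finset G, ∃ M : Subgroup G, (M : Set G).Finite ∧ (↑E ⊆ (M : Set G)) ∧
      (M ⊓ C).Normal)
    (a : Bool → G) (s : St G C a) (m : ℕ) (hm : 0 < m) (E : Finset G) :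
    ∃ s' : St G C a, s.L ≤ s'.L ∧ (↑E ⊆ (s'.L : Set G)) ∧ (∀ x ∈ s.L, s'.col x = s.col x) ∧
      (∀ y ∈ s'.L, ∃ w ∈ s.L, ∀ l ∈ s.L, s'.col (l * y) = s.col (l * w)) ∧
      (∀ t : Fin m → G, (∀ k, t k ∈ s'.L) → ∀ ε, ∃ f ∈ s'.L, ∀ k, s'.col (f * t k) = ε) := by
  classical
  obtain ⟨L, col, hLfin, hLnor, haL, hcon⟩ := s
  simp only
  set Lf : Finset G := hLfin.toFinset with hLf
  have hLmem : ∀ x, x ∈ Lf ↔ x ∈ L := by intro x; simp [hLf]
  have hLpos : 0 < Lf.card := Finset.card_pos.2 ⟨1, (hLmem 1).2 (one_mem _)⟩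
  let hLfint : Fintype L := Fintype.subtype Lf hLmem
  have hLcard : Fintype.card L = Lf.card := Fintype.card_of_subtype Lf hLmem
  -- constants
  set K : ℕ := 4 * m ^ 2 with hK
  have hKpos : 0 < K := by positivity
  set c : ℕ := 4 * m ^ 2 * Lf.card with hc
  have hcpos : 0 < c := by positivity
  set q : ℝ := 1 - ((Fintype.card L : ℝ)⁻¹) ^ m with hq
  have hσ : (1:ℝ) ≤ (Fintype.card L : ℝ) := by
    exact_mod_cast Nat.one_le_iff_ne_zero.2 Fintype.card_ne_zero
  have hq0 : 0 ≤ q := by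
    have : ((Fintype.card L : ℝ)⁻¹) ^ m ≤ 1 := pow_le_one₀ (by positivity) (inv_le_one_of_one_le₀ hσ)
    rw [hq]; linarith
  have hq1 : q < 1 := by
    have : 0 < ((Fintype.card L : ℝ)⁻¹) ^ m := by positivity
    rw [hq]; linarith
  obtain ⟨N₀, hN₀⟩ := exists_large m c hcpos q hq0 hq1
  obtain ⟨M, Mf, hMmem, hEM, hLM, hMnor, hNM, hbad, hpl⟩ :=
    exists_M hinf hidx hloc L hLfin hLnor K (max N₀ 1) E
  have hMpos : 0 < Mf.card := by omega
  let hMfint : Fintype M := Fintype.subtype Mf hMmem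
  have hMcard : Fintype.card M = Mf.card := Fintype.card_of_subtype Mf hMmem
  obtain ⟨ρ, hρ1, hρ2, hρ3⟩ := exists_rho L
  have hρM : ∀ x, x ∈ M → ρ x ∈ M := by
    intro x hx
    have h := hLM (hρ1 x)
    have h2 := mul_mem (inv_mem h) hx
    have h3 : (x * (ρ x)⁻¹)⁻¹ * x = ρ x := by group
    rwa [h3] at h2
  -- the planted region
  let Pl : G → Prop := fun x => ∃ l ∈ L, l⁻¹ * x ∈ M ⊓ C
  have hPlL : ∀ l ∈ L, ∀ x, Pl x → Pl (l * x) := by
    rintro l hl x ⟨l', hl', hx⟩
    refine ⟨l * l', mul_mem hl hl', ?_⟩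
    have : (l * l')⁻¹ * (l * x) = l'⁻¹ * x := by group
    rw [this]; exact hx
  have hPlρ : ∀ x, Pl (ρ x) → Pl x := by
    intro x hx
    have := hPlL _ (hρ1 x) _ hx
    have h2 : x * (ρ x)⁻¹ * ρ x = x := by group
    rwa [h2] at this
  -- good translations
  have hgood : ∀ t : Fin m → M, ∃ f : ℕ → G,
      (∀ i < Mf.card / c, f i ∈ M ∧
        (∀ k k', ((t k : G) * (t k' : G)⁻¹) ∉ L ⊓ C →
          f i * ((t k : G) * (t k' : G)⁻¹) * (f i)⁻¹ ∉ L) ∧
        (∀ k, ¬ Pl (f i * t k))) ∧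
      (∀ i j, i < j → j < Mf.card / c → ∀ k k', f j * t k * (f i * t k')⁻¹ ∉ L) := by
    intro t
    set A : Finset G := Mf.filter (fun f =>
      (∀ k k', ((t k : G) * (t k' : G)⁻¹) ∉ L ⊓ C → f * ((t k : G) * (t k' : G)⁻¹) * f⁻¹ ∉ L) ∧
        (∀ k, ¬ Pl (f * t k))) with hA
    set B1 : Finset G := (univ : Finset (Fin m × Fin m)).biUnion (fun p =>
      Mf.filter (fun f => ((t p.1 : G) * (t p.2 : G)⁻¹) ∉ L ⊓ C ∧
        f * ((t p.1 : G) * (t p.2 : G)⁻¹) * f⁻¹ ∈ L)) with hB1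
    set B2 : Finset G := (univ : Finset (Fin m)).biUnion (fun k =>
      Mf.filter (fun f => Pl (f * t k))) with hB2
    have hcov : Mf ⊆ A ∪ B1 ∪ B2 := by
      intro f hf
      simp only [hA, hB1, hB2, Finset.mem_union, Finset.mem_filter, Finset.mem_biUnion,
        Finset.mem_univ, true_and]
      by_cases h1 : ∀ k k', ((t k : G) * (t k' : G)⁻¹) ∉ L ⊓ C →
          f * ((t k : G) * (t k' : G)⁻¹) * f⁻¹ ∉ L
      · by_cases h2 : ∀ k, ¬ Pl (f * t k)
        · exact Or.inl (Or.inl ⟨hf, h1, h2⟩)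
        · push Not at h2
          obtain ⟨k, hk⟩ := h2
          exact Or.inr ⟨k, hf, hk⟩
      · push Not at h1
        obtain ⟨k, k', h3, h4⟩ := h1
        exact Or.inl (Or.inr ⟨(k, k'), hf, h3, h4⟩)
    have hB1c : 4 * B1.card ≤ Mf.card := by
      have h1 : ∀ p : Fin m × Fin m, K * (Mf.filter (fun f => ((t p.1 : G) * (t p.2 : G)⁻¹) ∉ L ⊓ C ∧
        f * ((t p.1 : G) * (t p.2 : G)⁻¹) * f⁻¹ ∈ L)).card ≤ Mf.card := by
        intro p
        by_cases hp : ((t p.1 : G) * (t p.2 : G)⁻¹) ∈ L ⊓ C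
        · have : (Mf.filter (fun f => ((t p.1 : G) * (t p.2 : G)⁻¹) ∉ L ⊓ C ∧
            f * ((t p.1 : G) * (t p.2 : G)⁻¹) * f⁻¹ ∈ L)) = ∅ := by
            apply Finset.filter_eq_empty_iff.2
            intro f _ h
            exact h.1 hp
          rw [this]; simp
        · refine hbad _ (mul_mem (t p.1).2 (inv_mem (t p.2).2)) hp _ ?_
          intro f hf
          simp only [Finset.mem_filter] at hf
          exact ⟨(hMmem f).1 hf.1, hf.2.2⟩
      have h2 : K * B1.card ≤ m ^ 2 * Mf.card := by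
        calc K * B1.card ≤ K * ∑ p : Fin m × Fin m, (Mf.filter (fun f =>
              ((t p.1 : G) * (t p.2 : G)⁻¹) ∉ L ⊓ C ∧
              f * ((t p.1 : G) * (t p.2 : G)⁻¹) * f⁻¹ ∈ L)).card :=
              Nat.mul_le_mul_left _ Finset.card_biUnion_le
          _ = ∑ p : Fin m × Fin m, K * (Mf.filter (fun f =>
              ((t p.1 : G) * (t p.2 : G)⁻¹) ∉ L ⊓ C ∧
              f * ((t p.1 : G) * (t p.2 : G)⁻¹) * f⁻¹ ∈ L)).card := Finset.mul_sum _ _ _
          _ ≤ ∑ _p : Fin m × Fin m, Mf.card := Finset.sum_le_sum (fun p _ => h1 p)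
          _ = m ^ 2 * Mf.card := by
              rw [Finset.sum_const, Finset.card_univ, Fintype.card_prod, Fintype.card_fin,
                smul_eq_mul]; ring
      have h3 : m ^ 2 * (4 * B1.card) ≤ m ^ 2 * Mf.card := by
        calc m ^ 2 * (4 * B1.card) = K * B1.card := by rw [hK]; ring
          _ ≤ _ := h2
      exact Nat.le_of_mul_le_mul_left h3 (by positivity)
    have hB2c : 4 * B2.card ≤ Mf.card := by
      have h1 : ∀ k : Fin m, K * (Mf.filter (fun f => Pl (f * t k))).card ≤ Mf.card := by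
        intro k
        have h2 : (Mf.filter (fun f => Pl (f * t k))).card =
            ((Mf.filter (fun f => Pl (f * t k))).image (fun f => f * (t k : G))).card := by
          rw [Finset.card_image_of_injective _ (mul_left_injective (t k : G))]
        rw [h2]
        refine hpl _ ?_
        intro x hx
        simp only [Finset.mem_image, Finset.mem_filter] at hx
        obtain ⟨f, ⟨_, hf⟩, rfl⟩ := hx
        exact hf
      have h2 : K * B2.card ≤ m * Mf.card := by
        calc K * B2.card ≤ K * ∑ k : Fin m, (Mf.filter (fun f => Pl (f * t k))).card :=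
              Nat.mul_le_mul_left _ Finset.card_biUnion_le
          _ = ∑ k : Fin m, K * (Mf.filter (fun f => Pl (f * t k))).card := Finset.mul_sum _ _ _
          _ ≤ ∑ _k : Fin m, Mf.card := Finset.sum_le_sum (fun k _ => h1 k)
          _ = m * Mf.card := by
              rw [Finset.sum_const, Finset.card_univ, Fintype.card_fin, smul_eq_mul]
      have h3 : m * (4 * B2.card) ≤ m * Mf.card := by
        calc m * (4 * B2.card) ≤ m * (m * (4 * B2.card)) :=
              Nat.mul_le_mul_left _ (Nat.le_mul_of_pos_left _ hm)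
          _ = K * B2.card := by rw [hK]; ring
          _ ≤ _ := h2
      exact Nat.le_of_mul_le_mul_left h3 hm
    have hAc : Mf.card ≤ 2 * A.card := by
      have h1 : Mf.card ≤ A.card + B1.card + B2.card :=
        (Finset.card_le_card hcov).trans ((Finset.card_union_le _ _).trans
          (Nat.add_le_add_right (Finset.card_union_le _ _) _))
      omega
    have hR : ∀ x ∈ A, (A.filter (fun y => ∃ k k', y * t k * (x * t k')⁻¹ ∈ L)).card ≤
        m ^ 2 * Lf.card := by
      intro x _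
      have hsub : A.filter (fun y => ∃ k k', y * t k * (x * t k')⁻¹ ∈ L) ⊆
          (univ : Finset (Fin m × Fin m)).biUnion (fun p =>
            Lf.image (fun l => l * (x * t p.2) * (t p.1 : G)⁻¹)) := by
        intro y hy
        simp only [Finset.mem_filter] at hy
        obtain ⟨_, k, k', hkk⟩ := hy
        simp only [Finset.mem_biUnion, Finset.mem_univ, true_and, Finset.mem_image]
        refine ⟨(k, k'), _, (hLmem _).2 hkk, ?_⟩
        group
      refine (Finset.card_le_card hsub).trans ((Finset.card_biUnion_le_card_mul _ _ Lf.card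
        (fun p _ => Finset.card_image_le)).trans ?_)
      rw [Finset.card_univ, Fintype.card_prod, Fintype.card_fin]
      exact le_of_eq (by ring)
    have hr : Mf.card / c * (m ^ 2 * Lf.card) < A.card := by
      have h1 : Mf.card / c * c ≤ Mf.card := Nat.div_mul_le_self _ _
      have h2 : 4 * (Mf.card / c * (m ^ 2 * Lf.card)) ≤ Mf.card := by
        calc 4 * (Mf.card / c * (m ^ 2 * Lf.card)) = Mf.card / c * c := by rw [hc]; ring
          _ ≤ _ := h1
      omega
    obtain ⟨f, hf1, hf2⟩ := greedy A (fun x y => ∃ k k', y * t k * (x * t k')⁻¹ ∈ L)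
      (m ^ 2 * Lf.card) hR (Mf.card / c) hr
    refine ⟨f, ?_, ?_⟩
    · intro i hi
      have := hf1 i hi
      simp only [hA, Finset.mem_filter] at this
      exact ⟨(hMmem _).1 this.1, this.2.1, this.2.2⟩
    · intro i j hij hj k k' hL'
      exact hf2 i j hij hj ⟨k, k', hL'⟩
  choose f hf1 hf2 using hgood
  -- tasks and trials
  let U : ((Fin m → M) × Bool) → ℕ → Finset M := fun τ i =>
    (univ : Finset (Fin m)).image (fun k =>
      if h : f τ.1 i * τ.1 k ∈ M then (⟨ρ (f τ.1 i * τ.1 k), hρM _ h⟩ : M) else 1)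
  have hUmem : ∀ τ i, i < Mf.card / c → ∀ y, y ∈ U τ i → ∃ k, (y : G) = ρ (f τ.1 i * τ.1 k) := by
    intro τ i hi y hy
    simp only [U, Finset.mem_image, Finset.mem_univ, true_and] at hy
    obtain ⟨k, hk⟩ := hy
    have hM : f τ.1 i * τ.1 k ∈ M := mul_mem (hf1 τ.1 i hi).1 (τ.1 k).2
    rw [dif_pos hM] at hk
    exact ⟨k, by rw [← hk]⟩
  have hsel : ∀ (τ : (Fin m → M) × Bool) (i : ℕ) (y : G), ∃ k : Fin m,
      (∃ k', y = ρ (f τ.1 i * τ.1 k')) → y = ρ (f τ.1 i * τ.1 k) := by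
    intro τ i y
    by_cases h : ∃ k', y = ρ (f τ.1 i * τ.1 k')
    · obtain ⟨k', hk'⟩ := h
      exact ⟨k', fun _ => hk'⟩
    · exact ⟨⟨0, hm⟩, fun h' => absurd h' h⟩
  choose κ hκ using hsel
  let d : ((Fin m → M) × Bool) → ℕ → M → L := fun τ i y =>
    if h : (y : G) * (f τ.1 i * τ.1 (κ τ i y))⁻¹ * a τ.2 ∈ L then ⟨_, h⟩ else 1
  have hUcard : ∀ τ i, i < Mf.card / c → (U τ i).card ≤ m := by
    intro τ i _
    refine Finset.card_image_le.trans ?_
    rw [Finset.card_univ, Fintype.card_fin]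
  have hUdisj : ∀ τ i j, i < Mf.card / c → j < Mf.card / c → i ≠ j → Disjoint (U τ i) (U τ j) := by
    have key : ∀ τ i j, i < j → j < Mf.card / c → Disjoint (U τ i) (U τ j) := by
      intro τ i j hij hj
      rw [Finset.disjoint_left]
      intro y hyi hyj
      obtain ⟨k, hk⟩ := hUmem τ i (by omega) y hyi
      obtain ⟨k', hk'⟩ := hUmem τ j hj y hyj
      exact hf2 τ.1 i j hij hj k' k (hρ3 _ _ (by rw [← hk', ← hk]))
    intro τ i j hi hj hij
    rcases lt_or_gt_of_ne hij with h | h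
    · exact key τ i j h hj
    · exact (key τ j i h hi).symm
  have hlt : (Fintype.card ((Fin m → M) × Bool) : ℝ) *
      (1 - ((Fintype.card L : ℝ)⁻¹) ^ m) ^ (Mf.card / c) < 1 := by
    have h1 := hN₀ Mf.card (by omega)
    have h2 : (Fintype.card ((Fin m → M) × Bool) : ℝ) = 2 * (Mf.card : ℝ) ^ m := by
      rw [Fintype.card_prod, Fintype.card_fun, Fintype.card_fin, Fintype.card_bool, hMcard]
      push_cast; ring
    rw [h2]; exact h1
  obtain ⟨w, hw⟩ := exists_fun m (Mf.card / c) U d hUcard hUdisj hlt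
  -- the planted values
  have hplch : ∀ y : G, ∃ l : G, (y ∈ L → l = y) ∧ (Pl y → l ∈ L ∧ l⁻¹ * y ∈ M ⊓ C) := by
    intro y
    by_cases hy : y ∈ L
    · exact ⟨y, fun _ => rfl, fun _ => ⟨hy, by rw [inv_mul_cancel]; exact one_mem _⟩⟩
    · by_cases hp : Pl y
      · obtain ⟨l, hl, hl2⟩ := hp
        exact ⟨l, fun h => absurd h hy, fun _ => ⟨hl, hl2⟩⟩
      · exact ⟨1, fun h => absurd h hy, fun h => absurd h hp⟩
  choose pl hpl1 hpl2 using hplch
  have hLPl : ∀ y ∈ L, Pl y := fun y hy => ⟨y, hy, by rw [inv_mul_cancel]; exact one_mem _⟩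
  let W : G → G := fun y => if Pl y then pl y else if h : y ∈ M then (w ⟨y, h⟩ : G) else 1
  have hWL : ∀ y, W y ∈ L := by
    intro y
    simp only [W]
    split_ifs with h1 h2
    · exact (hpl2 y h1).1
    · exact (w ⟨y, h2⟩).2
    · exact one_mem _
  let φ : G → G := fun x => x * (ρ x)⁻¹ * W (ρ x)
  have hφL : ∀ x, φ x ∈ L := fun x => mul_mem (hρ1 x) (hWL _)
  have hφeq : ∀ l ∈ L, ∀ x, φ (l * x) = l * φ x := by
    intro l hl x
    have : ρ (l * x) = ρ x := hρ2 _ _ (by
      have : l * x * x⁻¹ = l := by group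
      rw [this]; exact hl)
    simp only [φ, this]
    group
  have hφid : ∀ x ∈ L, φ x = x := by
    intro x hx
    have h1 : ρ x ∈ L := by
      have h := mul_mem (inv_mem (hρ1 x)) hx
      have h3 : (x * (ρ x)⁻¹)⁻¹ * x = ρ x := by group
      rwa [h3] at h
    simp only [φ, W, if_pos (hLPl _ h1), hpl1 _ h1]
    group
  have hφN : ∀ ν ∈ M ⊓ C, φ ν ∈ L ⊓ C := by
    intro ν hν
    refine Subgroup.mem_inf.2 ⟨hφL ν, ?_⟩
    have hPν : Pl ν := ⟨1, one_mem _, by simpa using hν⟩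
    have hPρ : Pl (ρ ν) := by
      have := hPlL _ (inv_mem (hρ1 ν)) _ hPν
      have h3 : (ν * (ρ ν)⁻¹)⁻¹ * ν = ρ ν := by group
      rwa [h3] at this
    have h1 := (Subgroup.mem_inf.1 (hpl2 _ hPρ).2).2
    have h2 : φ ν = ν * ((pl (ρ ν))⁻¹ * ρ ν)⁻¹ := by
      simp only [φ, W, if_pos hPρ]
      group
    rw [h2]
    exact mul_mem (Subgroup.mem_inf.1 hν).2 (inv_mem h1)
  refine ⟨⟨M, fun x => col (φ x), ?_, hMnor, fun ε => hLM (haL ε), ?_⟩, hLM, hEM, ?_, ?_, ?_⟩
  · have : (M : Set G) = (Mf : Set G) := by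
      ext x; simp [hMmem]
    rw [this]; exact Mf.finite_toSet
  · intro ε ν hν
    simp only [hφeq _ (haL ε)]
    exact hcon ε _ (hφN ν hν)
  · intro x hx
    simp only [hφid x hx]
  · intro y _
    exact ⟨φ y, hφL y, fun l hl => by simp only [hφeq l hl]⟩
  · intro t ht ε
    set t' : Fin m → M := fun k => ⟨t k, ht k⟩ with ht'
    obtain ⟨i, hi, hwi⟩ := hw (t', ε)
    obtain ⟨hfM, hfb, hfp⟩ := hf1 t' i hi
    refine ⟨f t' i, hfM, fun k => ?_⟩
    have hM : f t' i * t' k ∈ M := mul_mem hfM (t' k).2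
    set y : G := ρ (f t' i * t' k) with hy
    have hyM : y ∈ M := hρM _ hM
    have hyU : (⟨y, hyM⟩ : M) ∈ U (t', ε) i := by
      simp only [U, Finset.mem_image, Finset.mem_univ, true_and]
      exact ⟨k, by rw [dif_pos hM]⟩
    have hwy := hwi _ hyU
    have hκy : y = ρ (f t' i * t' (κ (t', ε) i y)) := hκ (t', ε) i y ⟨k, hy⟩
    set k₀ := κ (t', ε) i y with hk₀
    -- the two elements are in the same coset
    have hcos : f t' i * t' k * (f t' i * t' k₀)⁻¹ ∈ L := hρ3 _ _ (by rw [← hy, hκy])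
    have hcos2 : f t' i * ((t' k : G) * (t' k₀ : G)⁻¹) * (f t' i)⁻¹ ∈ L := by
      have : f t' i * ((t' k : G) * (t' k₀ : G)⁻¹) * (f t' i)⁻¹ =
        f t' i * t' k * (f t' i * t' k₀)⁻¹ := by group
      rw [this]; exact hcos
    have hNL : (t' k : G) * (t' k₀ : G)⁻¹ ∈ L ⊓ C := by
      by_contra h
      exact hfb k k₀ h hcos2
    have hνL : f t' i * ((t' k : G) * (t' k₀ : G)⁻¹) * (f t' i)⁻¹ ∈ L ⊓ C :=
      hLnor.conj_mem _ hNL _
    have hdL : y * (f t' i * t' k₀)⁻¹ * a ε ∈ L := by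
      have h1 := hρ1 (f t' i * t' k₀)
      rw [← hκy] at h1
      have h2 := mul_mem (inv_mem h1) (haL ε)
      have h3 : (f t' i * t' k₀ * y⁻¹)⁻¹ * a ε = y * (f t' i * t' k₀)⁻¹ * a ε := by group
      rwa [h3] at h2
    have hWy : W y = y * (f t' i * t' k₀)⁻¹ * a ε := by
      have hnp : ¬ Pl y := fun h => hfp k (hPlρ _ (by rw [← hy]; exact h))
      simp only [W, if_neg hnp, dif_pos hyM]
      rw [hwy]
      simp only [d]
      rw [dif_pos hdL]
    have hφk : φ (f t' i * t k) = a ε *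
        ((a ε)⁻¹ * (f t' i * ((t' k : G) * (t' k₀ : G)⁻¹) * (f t' i)⁻¹) * (a ε)⁻¹⁻¹) := by
      have : φ (f t' i * t k) = f t' i * t k * y⁻¹ * W y := rfl
      rw [this, hWy]
      simp only [ht']
      group
    change col (φ (f t' i * t k)) = ε
    rw [hφk]
    exact hcon ε _ (hLnor.conj_mem _ hνL _)

end Pool.Agent.R658.BG
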