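import Mathlib
import Pool.Agent.R658.BGStep

/-!
The colouring of the whole group.
-/

set_option autoImplicit false

namespace Pool.Agent.R658.BG

open Finset

variable {G : Type*} [Group G]

theorem exists_coloring [Countable G] {C : Subgroup G}
    (hinf : ∀ g, g ∉ C → (Set.range fun h : G => h * g * h⁻¹).Infinite)
    (hidx : C.index = 0)
    (hloc : ∀ E : Finset G, ∃ M : Subgroup G, (M : Set G).Finite ∧ (↑E ⊆ (M : Set G)) ∧
      (M ⊓ C).Normal) :
    ∃ χ : G → Bool, ∀ n : ℕ, ∃ F : Finset G, ∀ t : Fin n → G, ∀ ε, ∃ f ∈ F, ∀ k,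
      χ (f * t k) = ε := by
  classical
  obtain ⟨e, he⟩ := exists_surjective_nat G
  obtain ⟨l₀, hl₀⟩ : ∃ l₀ : G, l₀ ∉ C := by
    by_contra h
    push Not at h
    have : C = ⊤ := by
      ext x; exact ⟨fun _ => Subgroup.mem_top _, fun _ => h x⟩
    rw [this, Subgroup.index_top] at hidx
    exact one_ne_zero hidx
  obtain ⟨L₀, hL₀f, hL₀m, hL₀n⟩ := hloc {l₀}
  let a : Bool → G := fun ε => if ε then l₀ else 1
  let s₀ : St G C a :=
    { L := L₀
      col := fun x => decide (x ∉ C)
      fin := hL₀f
      nor := hL₀n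
      mem := by
        intro ε
        cases ε
        · exact one_mem _
        · exact hL₀m (show a true ∈ (↑({l₀} : Finset G) : Set G) by simp [a])
      con := by
        intro ε ν hν
        have hν' := (Subgroup.mem_inf.1 hν).2
        cases ε
        · simp [a, hν']
        · have : l₀ * ν ∉ C := by
            intro h
            exact hl₀ ((Subgroup.mul_mem_cancel_right C hν').1 h)
          simp [a, this] }
  have hstep := fun (n : ℕ) (s : St G C a) => step hinf hidx hloc a s (n + 1) (Nat.succ_pos n) {e n}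
  choose g hg1 hg2 hg3 hg4 hg5 using hstep
  let S : ℕ → St G C a := fun n => Nat.rec s₀ (fun n s => g n s) n
  have hS : ∀ n, S (n + 1) = g n (S n) := fun n => rfl
  have hmono : Monotone (fun n => (S n).L) := by
    apply monotone_nat_of_le_succ
    intro n
    simp only [hS]
    exact hg1 n (S n)
  have hagree : ∀ i j, i ≤ j → ∀ x ∈ (S i).L, (S j).col x = (S i).col x := by
    intro i j hij
    induction j, hij using Nat.le_induction with
    | base => intro x _; rfl
    | succ j hij ih =>
      intro x hx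
      rw [hS, hg3 j (S j) x (hmono hij hx)]
      exact ih x hx
  have hpat : ∀ i j, i ≤ j → ∀ y ∈ (S j).L, ∃ w ∈ (S i).L, ∀ l ∈ (S i).L,
      (S j).col (l * y) = (S i).col (l * w) := by
    intro i j hij
    induction j, hij using Nat.le_induction with
    | base => intro y hy; exact ⟨y, hy, fun l _ => rfl⟩
    | succ j hij ih =>
      intro y hy
      rw [hS] at hy
      obtain ⟨w, hw, hwl⟩ := hg4 j (S j) y hy
      obtain ⟨w', hw', hwl'⟩ := ih w hw
      refine ⟨w', hw', fun l hl => ?_⟩
      rw [hS, hwl l (hmono hij hl)]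
      exact hwl' l hl
  have hcov : ∀ x : G, ∃ n, x ∈ (S n).L := by
    intro x
    obtain ⟨n, rfl⟩ := he x
    refine ⟨n + 1, ?_⟩
    rw [hS]
    exact hg2 n (S n) (by simp)
  choose N hN using hcov
  have hχ : ∀ i, ∀ x ∈ (S i).L, (S (N x)).col x = (S i).col x := by
    intro i x hx
    rcases le_total (N x) i with h | h
    · exact (hagree _ _ h x (hN x)).symm
    · exact hagree _ _ h x hx
  refine ⟨fun x => (S (N x)).col x, fun n => ?_⟩
  refine ⟨(S (n + 1)).fin.toFinset, fun t ε => ?_⟩
  set j : ℕ := max (n + 1) ((univ : Finset (Fin n)).sup (fun k => N (t k))) with hj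
  have hjt : ∀ k, t k ∈ (S j).L := by
    intro k
    have h1 : N (t k) ≤ j :=
      (Finset.le_sup (f := fun k => N (t k)) (Finset.mem_univ k)).trans (le_max_right _ _)
    exact hmono h1 (hN (t k))
  have hnj : n + 1 ≤ j := le_max_left _ _
  choose w hw hwl using fun k => hpat (n + 1) j hnj (t k) (hjt k)
  let w' : Fin (n + 1) → G := fun k => if h : (k : ℕ) < n then w ⟨k, h⟩ else 1
  have hw' : ∀ k, w' k ∈ (g n (S n)).L := by
    intro k
    simp only [w']
    split_ifs with h
    · exact hw _
    · exact one_mem _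
  obtain ⟨f, hf, hfk⟩ := hg5 n (S n) w' hw' ε
  refine ⟨f, ?_, fun k => ?_⟩
  · rw [Set.Finite.mem_toFinset]; exact hf
  · have hfL : f * t k ∈ (S j).L := mul_mem (hmono hnj hf) (hjt k)
    change (S (N (f * t k))).col (f * t k) = ε
    rw [hχ j _ hfL, hwl k f hf]
    have h2 := hfk (Fin.castSucc k)
    have h3 : w' (Fin.castSucc k) = w k := by
      simp only [w', Fin.val_castSucc, Fin.is_lt, dif_pos, Fin.eta]
    rw [h3] at h2
    exact h2

end Pool.Agent.R658.BG
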