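import Mathlib
import Pool.Agent.R658.BGDef
import Pool.Agent.R658.BGGlobal

/-!
Completely syndetic sets and closed right ideals; uniqueness of the minimal closed right ideal when
the FC-centre has finite index.
-/

set_option autoImplicit false

namespace Pool.Agent.R658.BG

open Filter

attribute [local instance] Ultrafilter.mul Ultrafilter.semigroup

theorem isClosed_basic {G : Type} (A : Set G) : IsClosed {p : Ultrafilter G | A ∈ p} :=
  ultrafilter_isClosed_basic A

variable {G : Type} [Group G]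

theorem mem_mul_iff (p q : Ultrafilter G) (A : Set G) :
    A ∈ p * q ↔ {g | {h | g * h ∈ A} ∈ q} ∈ p := Iff.rfl

/-- Every closed right ideal contains a minimal one. -/
theorem exists_minimal (R₀ : Set (Ultrafilter G)) (hc : IsClosed R₀) (hi : IsRightIdeal R₀) :
    ∃ R, R ⊆ R₀ ∧ IsMinimalClosedRightIdeal R := by
  obtain ⟨R, hR⟩ := zorn_superset
    {R : Set (Ultrafilter G) | IsClosed R ∧ IsRightIdeal R ∧ R ⊆ R₀} (by
      intro c hc' hchain
      rcases c.eq_empty_or_nonempty with h | hne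
      · subst h
        exact ⟨R₀, ⟨hc, hi, subset_rfl⟩, by simp⟩
      · refine ⟨⋂₀ c, ⟨isClosed_sInter (fun s hs => (hc' hs).1), ⟨?_, ?_⟩, ?_⟩, ?_⟩
        · haveI : Nonempty c := hne.to_subtype
          refine IsCompact.nonempty_sInter_of_directed_nonempty_isCompact_isClosed ?_ ?_ ?_ ?_
          · intro x hx y hy
            rcases hchain.total hx hy with h | h
            · exact ⟨x, hx, subset_rfl, h⟩
            · exact ⟨y, hy, h, subset_rfl⟩
          · intro s hs
            exact (hc' hs).2.1.1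
          · intro s hs
            exact (hc' hs).1.isCompact
          · intro s hs
            exact (hc' hs).1
        · intro p hp q
          rw [Set.mem_sInter] at hp ⊢
          intro s hs
          exact (hc' hs).2.1.2 p (hp s hs) q
        · obtain ⟨s, hs⟩ := hne
          exact (Set.sInter_subset_of_mem hs).trans (hc' hs).2.2
        · intro s hs
          exact Set.sInter_subset_of_mem hs)
  refine ⟨R, hR.prop.2.2, hR.prop.1, hR.prop.2.1, ?_⟩
  intro R' hR' hc' hi'
  exact Set.Subset.antisymm hR' (hR.le_of_le ⟨hc', hi', hR'.trans hR.prop.2.2⟩ hR')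

/-- The closure of a principal right ideal is a right ideal. -/
theorem isRightIdeal_closure (x : Ultrafilter G) :
    IsRightIdeal (closure (Set.range fun q : Ultrafilter G => x * q)) := by
  constructor
  · exact ⟨x * x, subset_closure ⟨x, rfl⟩⟩
  · intro p hp q
    refine map_mem_closure (f := fun p : Ultrafilter G => p * q)
      (Ultrafilter.continuous_mul_left q) hp ?_
    rintro _ ⟨u, rfl⟩
    exact ⟨u * q, by simp only [mul_assoc]⟩

/-- A completely syndetic set contains a minimal closed right ideal in its closure. -/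
theorem exists_of_isCS {A : Set G} (hA : IsCS A) :
    ∃ R : Set (Ultrafilter G), IsMinimalClosedRightIdeal R ∧ ∀ p ∈ R, A ∈ p := by
  classical
  obtain ⟨x, hx⟩ : ∃ x : Ultrafilter G, ∀ q : Ultrafilter G, {g | {h | g * h ∈ A} ∈ q} ∈ x := by
    have hfip : ∀ T : Finset (Ultrafilter G), (⋂ q ∈ T, {g | {h | g * h ∈ A} ∈ q}).Nonempty := by
      intro T
      by_contra hcon
      rw [Set.not_nonempty_iff_eq_empty] at hcon
      have h1 : ∀ g : G, ∃ q ∈ T, {h | g * h ∈ A} ∉ q := by
        intro g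
        by_contra hg
        push Not at hg
        have : g ∈ (⋂ q ∈ T, {g | {h | g * h ∈ A} ∈ q}) := by
          simp only [Set.mem_iInter]
          exact hg
        rw [hcon] at this
        exact this
      choose Q hQT hQ using h1
      obtain ⟨F, hF⟩ := hA (T.card + 1) (by omega)
      -- for every ultrafilter choose a point outside of the relevant translates
      have h2 : ∀ q : Ultrafilter G, ∃ h : G, ∀ f ∈ F, Q f⁻¹ = q → f⁻¹ * h ∉ A := by
        intro q
        have h3 : (⋂ f ∈ F.filter (fun f => Q f⁻¹ = q), {h | f⁻¹ * h ∈ A}ᶜ) ∈ (q : Filter G) := by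
          rw [Filter.biInter_finset_mem]
          intro f hf
          simp only [Finset.mem_filter] at hf
          have := hQ f⁻¹
          rw [hf.2] at this
          exact Ultrafilter.compl_mem_iff_notMem.2 this
        obtain ⟨h, hh⟩ := Ultrafilter.nonempty_of_mem h3
        refine ⟨h, fun f hf hq => ?_⟩
        simp only [Set.mem_iInter] at hh
        exact hh f (Finset.mem_filter.2 ⟨hf, hq⟩)
      choose s hs using h2
      obtain ⟨f, hfF, hf⟩ := hF (T.image s) (Finset.card_image_le.trans (Nat.le_succ _))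
      have h4 : s (Q f⁻¹) ∈ (T.image s : Set G) := by
        rw [Finset.mem_coe]
        exact Finset.mem_image_of_mem _ (hQT _)
      obtain ⟨y, hy, hyx⟩ := hf h4
      apply hs (Q f⁻¹) f hfF rfl
      rw [← hyx]
      simpa using hy
    obtain ⟨x, hx⟩ := Ultrafilter.exists_ultrafilter_of_finite_inter_nonempty
      (Set.range fun q : Ultrafilter G => {g | {h | g * h ∈ A} ∈ q}) (by
        intro T hT
        have : ∀ s : Set G, ∃ q : Ultrafilter G, s ∈ T → s = {g | {h | g * h ∈ A} ∈ q} := by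
          intro s
          by_cases hs : s ∈ T
          · obtain ⟨q, hq⟩ := hT (Finset.mem_coe.2 hs)
            exact ⟨q, fun _ => hq.symm⟩
          · exact ⟨pure 1, fun h => absurd h hs⟩
        choose qf hqf using this
        obtain ⟨g, hg⟩ := hfip (T.image qf)
        refine ⟨g, ?_⟩
        rw [Set.mem_sInter]
        intro s hs
        simp only [Set.mem_iInter] at hg
        have h1 := hg (qf s) (Finset.mem_image_of_mem _ (Finset.mem_coe.1 hs))
        rw [hqf s (Finset.mem_coe.1 hs)]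
        exact h1)
    exact ⟨x, fun q => hx ⟨q, rfl⟩⟩
  obtain ⟨R, hR, hRm⟩ := exists_minimal _ isClosed_closure (isRightIdeal_closure x)
  refine ⟨R, hRm, fun p hp => ?_⟩
  have hsub : closure (Set.range fun q : Ultrafilter G => x * q) ⊆ {p : Ultrafilter G | A ∈ p} := by
    refine closure_minimal ?_ (isClosed_basic A)
    rintro _ ⟨q, rfl⟩
    exact hx q
  exact hsub (hR hp)

/-- Two complementary completely syndetic sets give two minimal closed right ideals. -/
theorem two_of_isCS {A : Set G} (hA : IsCS A) (hA' : IsCS Aᶜ) :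
    ∃ R₁ R₂ : Set (Ultrafilter G), R₁ ≠ R₂ ∧ IsMinimalClosedRightIdeal R₁ ∧
      IsMinimalClosedRightIdeal R₂ := by
  obtain ⟨R₁, h1, h1'⟩ := exists_of_isCS hA
  obtain ⟨R₂, h2, h2'⟩ := exists_of_isCS hA'
  refine ⟨R₁, R₂, ?_, h1, h2⟩
  rintro rfl
  obtain ⟨p, hp⟩ := h1.2.1.1
  exact Ultrafilter.compl_mem_iff_notMem.1 (h2' p hp) (h1' p hp)

/-- A colouring as in `exists_coloring` gives two complementary completely syndetic sets. -/
theorem isCS_of_coloring (χ : G → Bool) (hχ : ∀ n : ℕ, ∃ F : Finset G, ∀ t : Fin n → G, ∀ ε,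
    ∃ f ∈ F, ∀ k, χ (f * t k) = ε) (ε : Bool) : IsCS {g | χ g = ε} := by
  classical
  intro n _
  obtain ⟨F, hF⟩ := hχ n
  refine ⟨F.image (fun x => x⁻¹), fun S hS => ?_⟩
  let e := S.equivFin
  let t : Fin n → G := fun k => if h : (k : ℕ) < S.card then (e.symm ⟨k, h⟩ : G) else 1
  obtain ⟨f, hf, hfk⟩ := hF t ε
  refine ⟨f⁻¹, Finset.mem_image_of_mem _ hf, ?_⟩
  intro s hs
  refine ⟨f * s, ?_, by simp⟩
  have hlt : ((e ⟨s, hs⟩ : Fin S.card) : ℕ) < n := lt_of_lt_of_le (e ⟨s, hs⟩).2 hS
  have h1 := hfk ⟨(e ⟨s, hs⟩ : Fin S.card), hlt⟩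
  have h2 : t ⟨(e ⟨s, hs⟩ : Fin S.card), hlt⟩ = s := by
    simp only [t, (e ⟨s, hs⟩).2, dif_pos, Fin.eta, Equiv.symm_apply_apply]
  rw [h2] at h1
  exact h1

/-! ### The FC-centre -/

theorem mem_fcCenter (g : G) : g ∈ fcCenter G ↔ (Set.range fun h : G => h * g * h⁻¹).Finite :=
  Iff.rfl

instance fcCenter_normal : (fcCenter G).Normal := by
  constructor
  intro n hn g
  rw [mem_fcCenter] at hn ⊢
  refine hn.subset ?_
  rintro _ ⟨h, rfl⟩
  exact ⟨h * g, by simp only; group⟩

theorem pure_mul_eq (x : Ultrafilter G) {g : G} (hg : g ∈ fcCenter G) :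
    ∃ c : G, (pure g : Ultrafilter G) * x = x * pure c := by
  rw [mem_fcCenter] at hg
  have h1 : (⋃ c ∈ (Set.range fun h : G => h * g * h⁻¹), {i : G | i⁻¹ * g * i = c}) ∈ x := by
    have : (⋃ c ∈ (Set.range fun h : G => h * g * h⁻¹), {i : G | i⁻¹ * g * i = c}) = Set.univ := by
      ext i
      simp only [Set.mem_iUnion, Set.mem_univ, iff_true]
      exact ⟨i⁻¹ * g * i, ⟨i⁻¹, by simp⟩, rfl⟩
    rw [this]
    exact Filter.univ_mem
  obtain ⟨c, _, hc⟩ := (Ultrafilter.finite_biUnion_mem_iff hg).1 h1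
  refine ⟨c, ?_⟩
  apply Ultrafilter.ext
  intro A
  have h2 : A ∈ (pure g : Ultrafilter G) * x ↔ {h | g * h ∈ A} ∈ x := Iff.rfl
  have h3 : A ∈ x * (pure c : Ultrafilter G) ↔ {i | i * c ∈ A} ∈ x := Iff.rfl
  rw [h2, h3]
  have heq : ∀ i, i⁻¹ * g * i = c → i * c = g * i := by
    intro i hi
    rw [← hi]; group
  constructor
  · intro h
    filter_upwards [h, hc] with i hi hi'
    change i * c ∈ A
    rw [heq i hi']; exact hi
  · intro h
    filter_upwards [h, hc] with i hi hi'
    change g * i ∈ A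
    rw [← heq i hi']; exact hi

theorem mul_mem_of_fc {R : Set (Ultrafilter G)} (hc : IsClosed R) (hi : IsRightIdeal R)
    {p x : Ultrafilter G} (hp : ((fcCenter G : Subgroup G) : Set G) ∈ p) (hx : x ∈ R) :
    p * x ∈ R := by
  by_contra hcon
  have hopen : IsOpen Rᶜ := hc.isOpen_compl
  obtain ⟨V, hV, hpV, hVR⟩ := ultrafilterBasis_is_basis.isOpen_iff.1 hopen _ hcon
  obtain ⟨A, rfl⟩ := hV
  have h1 : A ∈ p * x := hpV
  rw [mem_mul_iff] at h1
  obtain ⟨g, hg1, hg2⟩ := Ultrafilter.nonempty_of_mem (Filter.inter_mem h1 hp)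
  obtain ⟨c, hc'⟩ := pure_mul_eq x hg2
  have h2 : (pure g : Ultrafilter G) * x ∈ R := by
    rw [hc']
    exact hi.2 x hx _
  exact hVR (show A ∈ (pure g : Ultrafilter G) * x from hg1) h2

/-- If the FC-centre has finite index, then there is exactly one minimal closed right ideal. -/
theorem unique_of_finiteIndex (hfi : (fcCenter G).FiniteIndex) :
    ∃! R : Set (Ultrafilter G), IsMinimalClosedRightIdeal R := by
  classical
  obtain ⟨R₁, _, h1⟩ := exists_minimal (Set.univ : Set (Ultrafilter G)) isClosed_univ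
    ⟨⟨pure 1, Set.mem_univ _⟩, fun _ _ _ => Set.mem_univ _⟩
  refine ⟨R₁, h1, fun R₂ h2 => ?_⟩
  obtain ⟨x, hx⟩ := h2.2.1.1
  obtain ⟨y, hy⟩ := h1.2.1.1
  haveI : Finite (G ⧸ fcCenter G) := Subgroup.finite_quotient_of_finiteIndex
  have hU : (⋃ c ∈ (Set.univ : Set (G ⧸ fcCenter G)), {i : G | (i : G ⧸ fcCenter G) = c}) ∈ x := by
    have : (⋃ c ∈ (Set.univ : Set (G ⧸ fcCenter G)), {i : G | (i : G ⧸ fcCenter G) = c}) =
        Set.univ := by
      ext i
      simp
    rw [this]
    exact Filter.univ_mem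
  obtain ⟨c, _, hc⟩ := (Ultrafilter.finite_biUnion_mem_iff Set.finite_univ).1 hU
  obtain ⟨t, rfl⟩ := QuotientGroup.mk_surjective c
  have hp : ((fcCenter G : Subgroup G) : Set G) ∈ x * pure t⁻¹ := by
    have : ((fcCenter G : Subgroup G) : Set G) ∈ x * (pure t⁻¹ : Ultrafilter G) ↔
      {i | i * t⁻¹ ∈ ((fcCenter G : Subgroup G) : Set G)} ∈ x := Iff.rfl
    rw [this]
    filter_upwards [hc] with i hi
    change i * t⁻¹ ∈ fcCenter G
    have h1 : i⁻¹ * t ∈ fcCenter G := QuotientGroup.eq.1 hi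
    have h2 := inv_mem ((fcCenter_normal (G := G)).mem_comm h1)
    have h3 : (t * i⁻¹)⁻¹ = i * t⁻¹ := by group
    rwa [h3] at h2
  have hp2 : x * pure t⁻¹ ∈ R₂ := h2.2.1.2 x hx _
  have hz1 : x * pure t⁻¹ * y ∈ R₁ := mul_mem_of_fc h1.1 h1.2.1 hp hy
  have hz2 : x * pure t⁻¹ * y ∈ R₂ := h2.2.1.2 _ hp2 _
  have hI : IsRightIdeal (R₁ ∩ R₂) :=
    ⟨⟨_, hz1, hz2⟩, fun p hp q => ⟨h1.2.1.2 p hp.1 q, h2.2.1.2 p hp.2 q⟩⟩
  have e1 := h1.2.2 _ Set.inter_subset_left (h1.1.inter h2.1) hI
  have e2 := h2.2.2 _ Set.inter_subset_right (h1.1.inter h2.1) hI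
  rw [← e2, e1]

/-- In a locally finite group, every finite set lies in a finite subgroup whose intersection with the
FC-centre is normal. -/
theorem exists_nice (hlf : ∀ H : Subgroup G, H.FG → Finite H) (E : Finset G) :
    ∃ M : Subgroup G, (M : Set G).Finite ∧ (↑E ⊆ (M : Set G)) ∧ (M ⊓ fcCenter G).Normal := by
  classical
  have hfin : ∀ s : Set G, s.Finite → ((Subgroup.closure s : Subgroup G) : Set G).Finite := by
    intro s hs
    have : (Subgroup.closure s).FG := (Subgroup.fg_iff _).2 ⟨s, rfl, hs⟩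
    haveI := hlf _ this
    exact Set.toFinite _
  set M₀ : Subgroup G := Subgroup.closure (E : Set G) with hM₀
  have hM₀f : (M₀ : Set G).Finite := hfin _ E.finite_toSet
  set X : Set G := ((M₀ ⊓ fcCenter G : Subgroup G) : Set G) with hX
  have hXf : X.Finite := hM₀f.subset (fun x hx => (Subgroup.mem_inf.1 hx).1)
  set N : Subgroup G := Subgroup.normalClosure X with hN
  have hconj : (Group.conjugatesOfSet X).Finite := by
    have : Group.conjugatesOfSet X ⊆ ⋃ a ∈ X, (Set.range fun h : G => h * a * h⁻¹) := by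
      intro y hy
      obtain ⟨a, ha, hay⟩ := Group.mem_conjugatesOfSet_iff.1 hy
      obtain ⟨c, hc⟩ := isConj_iff.1 hay
      simp only [Set.mem_iUnion]
      exact ⟨a, ha, c, hc⟩
    refine (hXf.biUnion ?_).subset this
    intro a ha
    exact (Subgroup.mem_inf.1 ha).2
  have hNf : (N : Set G).Finite := hfin _ hconj
  have hNC : N ≤ fcCenter G := Subgroup.normalClosure_le_normal (fun x hx => (Subgroup.mem_inf.1 hx).2)
  have hNn : N.Normal := Subgroup.normalClosure_normal
  refine ⟨M₀ ⊔ N, ?_, ?_, ?_⟩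
  · have : M₀ ⊔ N = Subgroup.closure ((M₀ : Set G) ∪ (N : Set G)) := by
      rw [Subgroup.closure_union, Subgroup.closure_eq, Subgroup.closure_eq]
    rw [this]
    exact hfin _ (hM₀f.union hNf)
  · intro x hx
    exact (le_sup_left : M₀ ≤ M₀ ⊔ N) (Subgroup.subset_closure hx)
  · have : (M₀ ⊔ N) ⊓ fcCenter G = N := by
      apply le_antisymm
      · intro x hx
        obtain ⟨hx1, hx2⟩ := Subgroup.mem_inf.1 hx
        obtain ⟨m, hm, n, hn, rfl⟩ := Subgroup.mem_sup_of_normal_right.1 hx1
        have hm2 : m ∈ fcCenter G := (Subgroup.mul_mem_cancel_right _ (hNC hn)).1 hx2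
        exact mul_mem (Subgroup.subset_normalClosure (Subgroup.mem_inf.2 ⟨hm, hm2⟩)) hn
      · exact le_inf le_sup_right hNC
    rw [this]
    exact hNn

/-- Countable locally finite groups whose FC-centre has infinite index are unions of two disjoint
completely syndetic sets. -/
theorem exists_isCS [Countable G] (hlf : ∀ H : Subgroup G, H.FG → Finite H)
    (hni : ¬ (fcCenter G).FiniteIndex) : ∃ A : Set G, IsCS A ∧ IsCS Aᶜ := by
  have hidx : (fcCenter G).index = 0 := by
    by_contra h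
    exact hni ⟨h⟩
  obtain ⟨χ, hχ⟩ := exists_coloring (C := fcCenter G) (fun g hg => hg) hidx (exists_nice hlf)
  refine ⟨{g | χ g = true}, isCS_of_coloring χ hχ true, ?_⟩
  have : {g | χ g = true}ᶜ = {g | χ g = false} := by
    ext g; simp
  rw [this]
  exact isCS_of_coloring χ hχ false

end Pool.Agent.R658.BG
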