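import Mathlib
import Pool.Agent.R658.BGBeta

/-!
Heisenberg groups over commutative rings; the Heisenberg group over the polynomials over the field
with two elements.
-/

set_option autoImplicit false

namespace Pool.Agent.R658.BG

/-- The Heisenberg group over a commutative ring `R`: triples `(a, b, c)` with the multiplication
`(a, b, c) (a', b', c') = (a + a', b + b', c + c' + a b')`. -/
@[ext]
structure Heis (R : Type) where
  /-- first coordinate -/
  a : R
  /-- second coordinate -/
  b : R
  /-- central coordinate -/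
  c : R

namespace Heis

variable {R : Type} [CommRing R]

instance : Mul (Heis R) := ⟨fun x y => ⟨x.a + y.a, x.b + y.b, x.c + y.c + x.a * y.b⟩⟩
instance : One (Heis R) := ⟨⟨0, 0, 0⟩⟩
instance : Inv (Heis R) := ⟨fun x => ⟨-x.a, -x.b, -x.c + x.a * x.b⟩⟩

@[simp] theorem mul_a (x y : Heis R) : (x * y).a = x.a + y.a := rfl
@[simp] theorem mul_b (x y : Heis R) : (x * y).b = x.b + y.b := rfl
@[simp] theorem mul_c (x y : Heis R) : (x * y).c = x.c + y.c + x.a * y.b := rfl
@[simp] theorem one_a : (1 : Heis R).a = 0 := rfl
@[simp] theorem one_b : (1 : Heis R).b = 0 := rfl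
@[simp] theorem one_c : (1 : Heis R).c = 0 := rfl
@[simp] theorem inv_a (x : Heis R) : (x⁻¹).a = -x.a := rfl
@[simp] theorem inv_b (x : Heis R) : (x⁻¹).b = -x.b := rfl
@[simp] theorem inv_c (x : Heis R) : (x⁻¹).c = -x.c + x.a * x.b := rfl

instance : Group (Heis R) :=
  Group.ofLeftAxioms
    (by intro x y z; ext <;> simp <;> ring)
    (by intro x; ext <;> simp)
    (by intro x; ext <;> simp)

/-- The projection onto the first two coordinates. -/
def proj (R : Type) [CommRing R] : Heis R →* Multiplicative (R × R) where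
  toFun x := Multiplicative.ofAdd (x.a, x.b)
  map_one' := rfl
  map_mul' _ _ := rfl

theorem mem_center_of (x : Heis R) (ha : x.a = 0) (hb : x.b = 0) : x ∈ Subgroup.center (Heis R) := by
  rw [Subgroup.mem_center_iff]
  intro g
  ext <;> simp [ha, hb, add_comm]

theorem isNilpotent : Group.IsNilpotent (Heis R) := by
  refine isNilpotent_of_ker_le_center (proj R) ?_
  intro x hx
  rw [MonoidHom.mem_ker] at hx
  have h : (x.a, x.b) = ((0, 0) : R × R) := Multiplicative.ofAdd.injective hx
  rw [Prod.mk.injEq] at h
  exact mem_center_of x h.1 h.2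

instance [Countable R] : Countable (Heis R) := by
  have : Function.Injective (fun x : Heis R => (x.a, x.b, x.c)) := by
    intro x y h
    simp only [Prod.mk.injEq] at h
    exact Heis.ext h.1 h.2.1 h.2.2
  exact this.countable

theorem conj_c (h g : Heis R) : (h * g * h⁻¹).c = g.c + h.a * g.b - g.a * h.b := by
  simp only [mul_c, inv_c, mul_a, inv_b]
  ring

theorem not_mem_fcCenter [IsDomain R] [Infinite R] (g : Heis R) (hg : g.a ≠ 0) :
    g ∉ fcCenter (Heis R) := by
  rw [mem_fcCenter]
  intro hfin
  have h1 : (Set.range fun u : R => g.c - g.a * u).Finite := by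
    refine (hfin.image (fun x => x.c)).subset ?_
    rintro _ ⟨u, rfl⟩
    refine ⟨_, ⟨⟨0, u, 0⟩, rfl⟩, ?_⟩
    simp only [conj_c]
    ring
  have hinj : Function.Injective (fun u : R => g.c - g.a * u) := by
    intro u v huv
    exact mul_left_cancel₀ hg (sub_right_injective huv)
  exact Set.infinite_range_of_injective hinj h1

/-- The FC-centre of the Heisenberg group over an infinite domain has infinite index. -/
theorem not_finiteIndex [IsDomain R] [Infinite R] : ¬ (fcCenter (Heis R)).FiniteIndex := by
  intro h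
  haveI : Finite (Heis R ⧸ fcCenter (Heis R)) := Subgroup.finite_quotient_of_finiteIndex
  obtain ⟨u, v, huv, he⟩ := Finite.exists_ne_map_eq_of_infinite
    (fun u : R => (QuotientGroup.mk (⟨u, 0, 0⟩ : Heis R) : Heis R ⧸ fcCenter (Heis R)))
  have h1 := QuotientGroup.eq.1 he
  refine not_mem_fcCenter _ ?_ h1
  simp only [mul_a, inv_a]
  intro h2
  apply huv
  linear_combination -h2

end Heis

/-- If a group has an abelian subgroup of finite index, then its FC-centre has finite index. -/
theorem fc_of_virtually_abelian {G : Type} [Group G] (A : Subgroup G) (hA : A.FiniteIndex)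
    (hab : ∀ x ∈ A, ∀ y ∈ A, x * y = y * x) : (fcCenter G).FiniteIndex := by
  have hle : A ≤ fcCenter G := by
    intro g hg
    rw [mem_fcCenter]
    haveI : Finite (G ⧸ A) := Subgroup.finite_quotient_of_finiteIndex
    have : (Set.range fun h : G => h * g * h⁻¹) ⊆
        Set.range (fun q : G ⧸ A => q.out * g * q.out⁻¹) := by
      rintro _ ⟨h, rfl⟩
      refine ⟨(h : G ⧸ A), ?_⟩
      simp only
      have h1 : ((QuotientGroup.mk h : G ⧸ A).out)⁻¹ * h ∈ A :=
        QuotientGroup.eq.1 (QuotientGroup.out_eq' (QuotientGroup.mk h))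
      set t := (QuotientGroup.mk h : G ⧸ A).out
      have h2 := hab _ h1 _ hg
      have h3 : h * g * h⁻¹ = t * ((t⁻¹ * h) * g) * (t⁻¹ * h)⁻¹ * t⁻¹ := by group
      rw [h3, h2]
      group
    exact (Set.finite_range _).subset this
  exact Subgroup.finiteIndex_of_le hle

open Polynomial in
theorem countable_poly : Countable (ZMod 2)[X] := by
  have h : Countable (ℕ →₀ ZMod 2) := inferInstance
  exact Function.Injective.countable (f := fun p : (ZMod 2)[X] =>
    (Finsupp.onFinset p.support p.coeff (by
      intro a ha; exact Polynomial.mem_support_iff.2 ha) : ℕ →₀ ZMod 2)) (by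
    intro p q h
    ext n
    exact DFunLike.congr_fun h n)

open Polynomial in
/-- The Heisenberg group over the polynomials over the field with two elements is locally finite. -/
theorem heis_locallyFinite (H : Subgroup (Heis (ZMod 2)[X])) (hH : H.FG) : Finite H := by
  classical
  obtain ⟨S, hS⟩ := hH
  -- a bound for the degrees
  let D : Heis (ZMod 2)[X] → ℕ := fun x =>
    max (x.a.natDegree + 1) (max (x.b.natDegree + 1) (x.c.natDegree + 1))
  set k : ℕ := S.sup D with hk
  have hlt : ∀ (p : (ZMod 2)[X]) (n : ℕ), p.natDegree + 1 ≤ n → p ∈ degreeLT (ZMod 2) n := by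
    intro p n hn
    rw [mem_degreeLT]
    exact lt_of_le_of_lt degree_le_natDegree (by exact_mod_cast (by omega : p.natDegree < n))
  let T : Subgroup (Heis (ZMod 2)[X]) :=
    { carrier := {x | x.a ∈ degreeLT (ZMod 2) k ∧ x.b ∈ degreeLT (ZMod 2) k ∧
        x.c ∈ degreeLT (ZMod 2) (2 * k)}
      one_mem' := ⟨Submodule.zero_mem _, Submodule.zero_mem _, Submodule.zero_mem _⟩
      mul_mem' := by
        rintro x y ⟨hx1, hx2, hx3⟩ ⟨hy1, hy2, hy3⟩
        refine ⟨Submodule.add_mem _ hx1 hy1, Submodule.add_mem _ hx2 hy2,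
          Submodule.add_mem _ (Submodule.add_mem _ hx3 hy3) ?_⟩
        rw [mem_degreeLT] at hx1 hy2 ⊢
        by_cases h0 : x.a * y.b = 0
        · rw [h0, degree_zero]; exact WithBot.bot_lt_coe _
        · have h1 : x.a ≠ 0 := left_ne_zero_of_mul h0
          have h2 : y.b ≠ 0 := right_ne_zero_of_mul h0
          rw [degree_eq_natDegree h0, natDegree_mul h1 h2]
          rw [degree_eq_natDegree h1] at hx1
          rw [degree_eq_natDegree h2] at hy2
          have h3 : x.a.natDegree < k := by exact_mod_cast hx1
          have h4 : y.b.natDegree < k := by exact_mod_cast hy2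
          exact_mod_cast (by omega : x.a.natDegree + y.b.natDegree < 2 * k)
      inv_mem' := by
        rintro x ⟨hx1, hx2, hx3⟩
        refine ⟨Submodule.neg_mem _ hx1, Submodule.neg_mem _ hx2,
          Submodule.add_mem _ (Submodule.neg_mem _ hx3) ?_⟩
        rw [mem_degreeLT] at hx1 hx2 ⊢
        by_cases h0 : x.a * x.b = 0
        · rw [h0, degree_zero]; exact WithBot.bot_lt_coe _
        · have h1 : x.a ≠ 0 := left_ne_zero_of_mul h0
          have h2 : x.b ≠ 0 := right_ne_zero_of_mul h0
          rw [degree_eq_natDegree h0, natDegree_mul h1 h2]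
          rw [degree_eq_natDegree h1] at hx1
          rw [degree_eq_natDegree h2] at hx2
          have h3 : x.a.natDegree < k := by exact_mod_cast hx1
          have h4 : x.b.natDegree < k := by exact_mod_cast hx2
          exact_mod_cast (by omega : x.a.natDegree + x.b.natDegree < 2 * k) }
  have hfinLT : ∀ n, Finite (degreeLT (ZMod 2) n) := by
    intro n
    exact Finite.of_equiv _ (degreeLTEquiv (ZMod 2) n).symm.toEquiv
  have hTfin : Finite T := by
    haveI := hfinLT k
    haveI := hfinLT (2 * k)
    let f : T → (degreeLT (ZMod 2) k) × (degreeLT (ZMod 2) k) × (degreeLT (ZMod 2) (2 * k)) :=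
      fun x => (⟨x.1.a, x.2.1⟩, ⟨x.1.b, x.2.2.1⟩, ⟨x.1.c, x.2.2.2⟩)
    have hf : Function.Injective f := by
      intro x y hxy
      simp only [f, Prod.mk.injEq, Subtype.mk.injEq] at hxy
      exact Subtype.ext (Heis.ext hxy.1 hxy.2.1 hxy.2.2)
    exact Finite.of_injective f hf
  have hle : H ≤ T := by
    rw [← hS, Subgroup.closure_le]
    intro x hx
    have hD : D x ≤ k := Finset.le_sup (f := D) hx
    have h1 : x.a.natDegree + 1 ≤ k := (le_max_left _ _).trans hD
    have h2 : x.b.natDegree + 1 ≤ k := ((le_max_left _ _).trans (le_max_right _ _)).trans hD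
    have h3 : x.c.natDegree + 1 ≤ k := ((le_max_right _ _).trans (le_max_right _ _)).trans hD
    exact ⟨hlt _ _ h1, hlt _ _ h2, hlt _ _ (by omega)⟩
  exact Finite.of_injective (Subgroup.inclusion hle) (Subgroup.inclusion_injective hle)

end Pool.Agent.R658.BG
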