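import Mathlib

set_option autoImplicit false

/-!
Finitely generated subdirect products of two free semigroups and fiber products: definitions.
-/

namespace Pool.Agent.R658.FP

/-- The word over `ℕ` spelled by an element of the free semigroup on `Fin p`. -/
def spell {p : ℕ} (w : FreeSemigroup (Fin p)) : List ℕ := (w.head :: w.tail).map Fin.val

/-- The subsemigroup of `A⁺ × B⁺` (`A = Fin p`, `B = Fin q`) generated by the pairs in `X`. -/
def S (p q : ℕ) (X : List (List ℕ × List ℕ)) :
    Subsemigroup (FreeSemigroup (Fin p) × FreeSemigroup (Fin q)) :=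
  Subsemigroup.closure {w | (spell w.1, spell w.2) ∈ X}

/-- `(p, q, X)` is a legal instance: the alphabets `Fin p`, `Fin q` are nonempty, `X` is a list of
pairs in `A⁺ × B⁺`, and the generated subsemigroup is a subdirect product. -/
def Legal (p q : ℕ) (X : List (List ℕ × List ℕ)) : Prop :=
  0 < p ∧ 0 < q ∧
  (∀ x ∈ X, ∃ w : FreeSemigroup (Fin p) × FreeSemigroup (Fin q), (spell w.1, spell w.2) = x) ∧
  (∀ u : FreeSemigroup (Fin p), ∃ v, (u, v) ∈ S p q X) ∧
  (∀ v : FreeSemigroup (Fin q), ∃ u, (u, v) ∈ S p q X)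

/-- A subsemigroup of `A⁺ × B⁺` is a fiber product. -/
def IsFiberProduct {A B : Type} (T : Subsemigroup (FreeSemigroup A × FreeSemigroup B)) : Prop :=
  ∃ (Q : Type) (_ : Semigroup Q) (φ : FreeSemigroup A →ₙ* Q) (ψ : FreeSemigroup B →ₙ* Q),
    Function.Surjective φ ∧ Function.Surjective ψ ∧ ∀ u v, (u, v) ∈ T ↔ φ u = ψ v

end Pool.Agent.R658.FP
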