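import Pool.Agent.R658.FPBound
import Pool.Agent.R658.FPDef

set_option autoImplicit false

/-!
Subdirect products of free semigroups, fiber products, and the link with the relation `G X`.
-/

namespace Pool.Agent.R658.FP

theorem spell_mul {p : ℕ} (u v : FreeSemigroup (Fin p)) : spell (u * v) = spell u ++ spell v := by
  simp [spell, FreeSemigroup.head_mul, FreeSemigroup.tail_mul]

theorem spell_ne {p : ℕ} (u : FreeSemigroup (Fin p)) : spell u ≠ [] := by
  simp [spell]

theorem spell_inj {p : ℕ} {u v : FreeSemigroup (Fin p)} (h : spell u = spell v) : u = v := by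
  unfold spell at h
  have := List.map_injective_iff.mpr Fin.val_injective h
  rw [List.cons.injEq] at this
  exact FreeSemigroup.ext this.1 this.2

theorem spell_lt {p : ℕ} (u : FreeSemigroup (Fin p)) : ∀ x ∈ spell u, x < p := by
  intro x hx
  obtain ⟨y, _, rfl⟩ := List.mem_map.mp hx
  exact y.2

theorem exists_spell {p : ℕ} {l : List ℕ} (h : l ≠ []) (hl : ∀ x ∈ l, x < p) :
    ∃ u : FreeSemigroup (Fin p), spell u = l := by
  cases l with
  | nil => exact absurd rfl h
  | cons a l =>
    refine ⟨⟨⟨a, hl a (by simp)⟩, l.pmap (fun x hx => ⟨x, hx⟩) (fun x hx => hl x (by simp [hx]))⟩,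
      ?_⟩
    simp [spell, List.map_pmap]

theorem S_imp {p q : ℕ} {X : List (List ℕ × List ℕ)}
    {w : FreeSemigroup (Fin p) × FreeSemigroup (Fin q)} (h : w ∈ S p q X) :
    G X (spell w.1) (spell w.2) := by
  unfold S at h
  induction h using Subsemigroup.closure_induction with
  | mem x hx => exact G.of_mem hx
  | mul x y _ _ h1 h2 =>
    rw [Prod.fst_mul, Prod.snd_mul, spell_mul, spell_mul]
    exact h1.append h2

theorem imp_S {p q : ℕ} {X : List (List ℕ × List ℕ)}
    (hX : ∀ x ∈ X, ∃ w : FreeSemigroup (Fin p) × FreeSemigroup (Fin q),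
      (spell w.1, spell w.2) = x) {U V : List ℕ} (h : G X U V) :
    (U = [] ∧ V = []) ∨ ∃ w ∈ S p q X, spell w.1 = U ∧ spell w.2 = V := by
  induction h with
  | nil => exact Or.inl ⟨rfl, rfl⟩
  | @cons a b u v hx _ ih =>
    right
    obtain ⟨w, hw⟩ := hX _ hx
    have hw1 : spell w.1 = a := congrArg Prod.fst hw
    have hw2 : spell w.2 = b := congrArg Prod.snd hw
    have hwS : w ∈ S p q X := by
      apply Subsemigroup.subset_closure
      change (spell w.1, spell w.2) ∈ X
      rw [hw]
      exact hx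
    rcases ih with ⟨h1, h2⟩ | ⟨w', hw', h1, h2⟩
    · refine ⟨w, hwS, ?_, ?_⟩
      · rw [h1, List.append_nil, hw1]
      · rw [h2, List.append_nil, hw2]
    · refine ⟨w * w', Subsemigroup.mul_mem _ hwS hw', ?_, ?_⟩
      · rw [Prod.fst_mul, spell_mul, hw1, h1]
      · rw [Prod.snd_mul, spell_mul, hw2, h2]

theorem mem_S_iff {p q : ℕ} {X : List (List ℕ × List ℕ)}
    (hX : ∀ x ∈ X, ∃ w : FreeSemigroup (Fin p) × FreeSemigroup (Fin q),
      (spell w.1, spell w.2) = x) (u : FreeSemigroup (Fin p)) (v : FreeSemigroup (Fin q)) :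
    (u, v) ∈ S p q X ↔ G X (spell u) (spell v) := by
  constructor
  · intro h
    exact S_imp h
  · intro h
    rcases imp_S hX h with ⟨h1, _⟩ | ⟨w, hw, h1, h2⟩
    · exact absurd h1 (spell_ne u)
    · have e1 : w.1 = u := spell_inj h1
      have e2 : w.2 = v := spell_inj h2
      have : w = (u, v) := Prod.ext e1 e2
      rw [← this]
      exact hw

/-- The computable form of legality. -/
def Valid (p q : ℕ) (X : List (List ℕ × List ℕ)) : Prop :=
  (0 < p ∧ 0 < q) ∧
  ((∀ x ∈ X, (x.1 ≠ [] ∧ x.2 ≠ []) ∧ ((∀ a ∈ x.1, a < p) ∧ (∀ b ∈ x.2, b < q))) ∧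
  ((∀ a < p, ∃ x ∈ X, x.1 = [a]) ∧ (∀ b < q, ∃ x ∈ X, x.2 = [b])))

theorem single_left {X : List (List ℕ × List ℕ)} (h2 : ∀ a b, (a, b) ∈ X → a ≠ []) {a : ℕ}
    {V : List ℕ} (h : G X [a] V) : ∃ x ∈ X, x.1 = [a] := by
  obtain ⟨U, hU⟩ : ∃ U, [a] = U := ⟨_, rfl⟩
  rw [hU] at h
  cases h with
  | nil => exact absurd hU (by simp)
  | @cons c b u v hx h =>
    have hc := h2 _ _ hx
    cases c with
    | nil => exact absurd rfl hc
    | cons c0 c =>
      simp only [List.cons_append, List.cons.injEq] at hU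
      have : c = [] := by
        have := hU.2
        rw [eq_comm, List.append_eq_nil_iff] at this
        exact this.1
      subst this
      exact ⟨_, hx, by rw [hU.1]⟩

theorem single_right {X : List (List ℕ × List ℕ)} (h2 : ∀ a b, (a, b) ∈ X → b ≠ []) {a : ℕ}
    {V : List ℕ} (h : G X V [a]) : ∃ x ∈ X, x.2 = [a] := by
  obtain ⟨U, hU⟩ : ∃ U, [a] = U := ⟨_, rfl⟩
  rw [hU] at h
  cases h with
  | nil => exact absurd hU (by simp)
  | @cons b c u v hx h =>
    have hc := h2 _ _ hx
    cases c with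
    | nil => exact absurd rfl hc
    | cons c0 c =>
      simp only [List.cons_append, List.cons.injEq] at hU
      have : c = [] := by
        have := hU.2
        rw [eq_comm, List.append_eq_nil_iff] at this
        exact this.1
      subst this
      exact ⟨_, hx, by rw [hU.1]⟩

theorem legal_iff (p q : ℕ) (X : List (List ℕ × List ℕ)) : Legal p q X ↔ Valid p q X := by
  constructor
  · rintro ⟨hp, hq, hX, h1, h2⟩
    have hne1 : ∀ a b, (a, b) ∈ X → a ≠ [] := by
      intro a b h
      obtain ⟨w, hw⟩ := hX _ h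
      have : spell w.1 = a := congrArg Prod.fst hw
      rw [← this]
      exact spell_ne _
    have hne2 : ∀ a b, (a, b) ∈ X → b ≠ [] := by
      intro a b h
      obtain ⟨w, hw⟩ := hX _ h
      have : spell w.2 = b := congrArg Prod.snd hw
      rw [← this]
      exact spell_ne _
    refine ⟨⟨hp, hq⟩, ?_, ?_, ?_⟩
    · rintro ⟨a, b⟩ hx
      obtain ⟨w, hw⟩ := hX _ hx
      have e1 : spell w.1 = a := congrArg Prod.fst hw
      have e2 : spell w.2 = b := congrArg Prod.snd hw
      refine ⟨⟨hne1 _ _ hx, hne2 _ _ hx⟩, ?_, ?_⟩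
      · simp only [← e1]
        exact spell_lt _
      · simp only [← e2]
        exact spell_lt _
    · intro a ha
      obtain ⟨v, hv⟩ := h1 ⟨⟨a, ha⟩, []⟩
      have := S_imp hv
      simp only [spell, List.map_cons, List.map_nil] at this
      exact single_left hne1 this
    · intro a ha
      obtain ⟨v, hv⟩ := h2 ⟨⟨a, ha⟩, []⟩
      have := S_imp hv
      simp only [spell, List.map_cons, List.map_nil] at this
      exact single_right hne2 this
  · rintro ⟨⟨hp, hq⟩, hX, h1, h2⟩
    have hX' : ∀ x ∈ X, ∃ w : FreeSemigroup (Fin p) × FreeSemigroup (Fin q),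
        (spell w.1, spell w.2) = x := by
      rintro ⟨a, b⟩ hx
      obtain ⟨⟨e1, e2⟩, e3, e4⟩ := hX _ hx
      obtain ⟨u, hu⟩ := exists_spell e1 e3
      obtain ⟨v, hv⟩ := exists_spell e2 e4
      exact ⟨(u, v), by simp [hu, hv]⟩
    refine ⟨hp, hq, hX', ?_, ?_⟩
    · intro u
      have : ∀ x ∈ spell u, ∃ y, ([x], y) ∈ X := by
        intro x hx
        obtain ⟨⟨a, b⟩, h3, h4⟩ := h1 x (spell_lt u x hx)
        simp only at h4
        subst h4
        exact ⟨b, h3⟩
      obtain ⟨V, hV⟩ := ex1 this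
      rcases imp_S hX' hV with ⟨e1, _⟩ | ⟨w, hw, e1, e2⟩
      · exact absurd e1 (spell_ne u)
      · refine ⟨w.2, ?_⟩
        rw [← spell_inj e1]
        exact hw
    · intro v
      have : ∀ y ∈ spell v, ∃ x, (x, [y]) ∈ X := by
        intro x hx
        obtain ⟨⟨a, b⟩, h3, h4⟩ := h2 x (spell_lt v x hx)
        simp only at h4
        subst h4
        exact ⟨a, h3⟩
      have hU : ∃ U, G X U (spell v) := by
        clear hX hX' h1 h2
        generalize spell v = l at this
        induction l with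
        | nil => exact ⟨[], G.nil⟩
        | cons a u ih =>
          obtain ⟨y, hy⟩ := this a (by simp)
          obtain ⟨v, hv⟩ := ih (fun x hx => this x (by simp [hx]))
          exact ⟨y ++ v, G.cons hy hv⟩
      obtain ⟨U, hU⟩ := hU
      rcases imp_S hX' hU with ⟨_, e1⟩ | ⟨w, hw, e1, e2⟩
      · exact absurd e1 (spell_ne v)
      · refine ⟨w.1, ?_⟩
        rw [← spell_inj e2]
        exact hw

/-- A bound for the lengths of the components. -/
def mOf (X : List (List ℕ × List ℕ)) : ℕ := (X.flatMap (fun x => x.1 ++ x.2)).length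

theorem le_mOf {X : List (List ℕ × List ℕ)} {a b : List ℕ} (h : (a, b) ∈ X) :
    a.length + b.length ≤ mOf X := by
  unfold mOf
  induction X with
  | nil => simp at h
  | cons x X ih =>
    rw [List.flatMap_cons, List.length_append]
    rcases List.mem_cons.mp h with h | h
    · subst h
      simp
    · have := ih h
      omega

theorem good_of_valid {p q : ℕ} {X : List (List ℕ × List ℕ)} (h : Valid p q X) :
    Good X (p + q) (mOf X) := by
  obtain ⟨⟨hp, hq⟩, hX, h1, h2⟩ := h
  constructor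
  · intro a b h
    exact (hX _ h).1.1
  · intro a b h
    exact (hX _ h).1.2
  · intro a b h
    have := le_mOf h
    omega
  · intro a b h
    have := le_mOf h
    omega
  · intro a b h x hx
    have := (hX _ h).2.1 x hx
    omega
  · intro a b h x hx
    have := (hX _ h).2.2 x hx
    omega
  · intro a b h x hx
    obtain ⟨⟨a', b'⟩, h3, h4⟩ := h1 x ((hX _ h).2.1 x hx)
    simp only at h4
    subst h4
    exact ⟨b', h3⟩
  · intro a b h x hx
    obtain ⟨⟨a', b'⟩, h3, h4⟩ := h2 x ((hX _ h).2.2 x hx)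
    simp only at h4
    subst h4
    exact ⟨a', h3⟩

theorem fp_iff {p q : ℕ} {X : List (List ℕ × List ℕ)} (hL : Legal p q X) :
    IsFiberProduct (S p q X) ↔ ∀ n, D X n := by
  have hV := (legal_iff p q X).mp hL
  have hG := good_of_valid hV
  obtain ⟨hp, hq, hX, h1, h2⟩ := hL
  constructor
  · rintro ⟨Q, _, φ, ψ, _, _, hS⟩ n u v u' v' _ g1 g2 g3
    rcases imp_S hX g1 with ⟨a1, a2⟩ | ⟨w1, hw1, a1, a2⟩
    · have b1 := (g2.len hG).2
      rw [a2, List.length_nil, mul_zero] at b1
      have b2 : u' = [] := List.length_eq_zero_iff.mp (by omega)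
      have b3 := (g3.len hG).1
      rw [b2, List.length_nil, mul_zero] at b3
      have b4 : v' = [] := List.length_eq_zero_iff.mp (by omega)
      rw [a1, b4]
      exact G.nil
    · rcases imp_S hX g2 with ⟨c1, c2⟩ | ⟨w2, hw2, c1, c2⟩
      · rw [← a2] at c2
        exact absurd c2 (spell_ne _)
      · rcases imp_S hX g3 with ⟨d1, d2⟩ | ⟨w3, hw3, d1, d2⟩
        · rw [← c1] at d1
          exact absurd d1 (spell_ne _)
        · have e1 : w1.2 = w2.2 := spell_inj (a2.trans c2.symm)
          have e2 : w2.1 = w3.1 := spell_inj (c1.trans d1.symm)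
          have f1 := (hS w1.1 w1.2).mp hw1
          have f2 := (hS w2.1 w2.2).mp hw2
          have f3 := (hS w3.1 w3.2).mp hw3
          have f4 : (w1.1, w3.2) ∈ S p q X := by
            rw [hS, f1, e1, ← f2, e2, f3]
          have := S_imp f4
          simp only at this
          rw [← a1, ← d2]
          exact this
  · intro hD
    have hdif : ∀ u u' v v', (u, v) ∈ S p q X → (u', v) ∈ S p q X → (u', v') ∈ S p q X →
        (u, v') ∈ S p q X := by
      intro u u' v v' g1 g2 g3
      rw [mem_S_iff hX] at g1 g2 g3 ⊢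
      exact hD _ _ _ _ _ le_rfl g1 g2 g3
    let c : Con (FreeSemigroup (Fin p)) :=
      { r := fun u u' => ∃ v, (u, v) ∈ S p q X ∧ (u', v) ∈ S p q X
        iseqv := ⟨fun u => by
            obtain ⟨v, hv⟩ := h1 u
            exact ⟨v, hv, hv⟩,
          fun {u u'} ⟨v, g1, g2⟩ => ⟨v, g2, g1⟩,
          fun {u u' u''} ⟨v, g1, g2⟩ ⟨v', g3, g4⟩ => ⟨v', hdif _ _ _ _ g1 g2 g3, g4⟩⟩
        mul' := fun {u u' w w'} ⟨v, g1, g2⟩ ⟨v', g3, g4⟩ =>
          ⟨v * v', Subsemigroup.mul_mem _ g1 g3, Subsemigroup.mul_mem _ g2 g4⟩ }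
    choose f hf using h2
    have hc : ∀ u u', c u u' ↔ ∃ v, (u, v) ∈ S p q X ∧ (u', v) ∈ S p q X := fun _ _ => Iff.rfl
    refine ⟨c.Quotient, inferInstance, c.mkMulHom,
      ⟨fun v => ((f v : FreeSemigroup (Fin p)) : c.Quotient), ?_⟩, ?_, ?_, ?_⟩
    · intro x y
      change ((f (x * y) : FreeSemigroup (Fin p)) : c.Quotient) =
        (((f x) * (f y) : FreeSemigroup (Fin p)) : c.Quotient)
      rw [Con.eq, hc]
      exact ⟨x * y, hf _, Subsemigroup.mul_mem _ (hf x) (hf y)⟩
    · intro x
      induction x using Con.induction_on with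
      | H x => exact ⟨x, rfl⟩
    · intro x
      induction x using Con.induction_on with
      | H x =>
        obtain ⟨v, hv⟩ := h1 x
        refine ⟨v, ?_⟩
        change ((f v : FreeSemigroup (Fin p)) : c.Quotient) = (x : c.Quotient)
        rw [Con.eq, hc]
        exact ⟨v, hf _, hv⟩
    · intro u v
      change _ ↔ (u : c.Quotient) = ((f v : FreeSemigroup (Fin p)) : c.Quotient)
      rw [Con.eq, hc]
      constructor
      · intro h
        exact ⟨v, h, hf v⟩
      · rintro ⟨v', g1, g2⟩
        exact hdif _ _ _ _ g1 g2 (hf v)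

end Pool.Agent.R658.FP
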