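import Pool.Agent.R658.FPCore

set_option autoImplicit false

namespace Pool.Agent.R658.FP

variable {X : List (List ℕ × List ℕ)} {c m : ℕ}

/-- Words of length at most `k` with letters below `c`. -/
def Wd (c : ℕ) : ℕ → Finset (List ℕ)
  | 0 => {[]}
  | k + 1 => insert [] ((Finset.range c ×ˢ Wd c k).image (fun x => x.1 :: x.2))

theorem mem_Wd (k : ℕ) : ∀ w : List ℕ, w.length ≤ k → (∀ x ∈ w, x < c) → w ∈ Wd c k := by
  induction k with
  | zero =>
    intro w hw _
    have : w = [] := List.length_eq_zero_iff.mp (by omega)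
    simp [Wd, this]
  | succ k ih =>
    intro w hw hl
    cases w with
    | nil => simp [Wd]
    | cons a w =>
      simp only [Wd, Finset.mem_insert, Finset.mem_image, Finset.mem_product, Finset.mem_range]
      right
      refine ⟨(a, w), ⟨hl a (by simp), ih w ?_ (fun x hx => hl x (by simp [hx]))⟩, rfl⟩
      simp only [List.length_cons] at hw
      omega

theorem card_Wd (k : ℕ) : (Wd c k).card ≤ (c + 1) ^ k := by
  induction k with
  | zero => simp [Wd]
  | succ k ih =>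
    unfold Wd
    have h1 := Finset.card_insert_le ([] : List ℕ)
      ((Finset.range c ×ˢ Wd c k).image (fun x => x.1 :: x.2))
    have h2 := Finset.card_image_le (s := Finset.range c ×ˢ Wd c k) (f := fun x => x.1 :: x.2)
    rw [Finset.card_product, Finset.card_range] at h2
    have h3 : c * (Wd c k).card ≤ c * (c + 1) ^ k := Nat.mul_le_mul_left _ ih
    have h4 : 1 ≤ (c + 1) ^ k := Nat.one_le_pow _ _ (by omega)
    have h5 : (c + 1) ^ (k + 1) = c * (c + 1) ^ k + (c + 1) ^ k := by ring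
    omega

/-- The data of a cut. -/
structure Cut (X : List (List ℕ × List ℕ)) (m : ℕ) (u v' : List ℕ) (k : ℕ)
    (z1 g h y1 g' h' p q U V : List ℕ) : Prop where
  hg : (g, h) ∈ X
  hg' : (g', h') ∈ X
  hz : z1.length ≤ m
  hy : y1.length ≤ m
  hz' : z1 <+: g
  hy' : y1 <+: h'
  hu : u = p ++ U
  hv : v' = q ++ V
  lo : k < q.length
  hi : q.length ≤ k + m
  past : Past X z1 y1 p q
  future : Future X z1 g h y1 g' h' U V

theorem exists_cut (hX : Good X c m) {u v u' v' : List ℕ} (h1 : G X u v) (h2 : G X u' v)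
    (h3 : G X u' v') {k : ℕ} (hk : k + m < v'.length) :
    ∃ z1 g h y1 g' h' p q U V, Cut X m u v' k z1 g h y1 g' h' p q U V := by
  have e0 : v' = v'.take k ++ v'.drop k := (List.take_append_drop k v').symm
  have e1 : v'.drop k ≠ [] := by
    rw [Ne, List.drop_eq_nil_iff]
    omega
  obtain ⟨u1, v1, a, b, t1, t2, u2, v2, a1, a2, a3, a4, a5, a6, a7, a8⟩ :=
    h3.split2 _ _ e0 e1
  -- the cut of `(u', v')`
  have hq : v' = (v1 ++ b) ++ v2 := by
    rw [e0, a4, a7, a5]
    simp [List.append_assoc]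
  have hlen : (v'.take k).length = k := by
    rw [List.length_take]
    omega
  have hb := hX.le2 _ _ a2
  have hlo : k < (v1 ++ b).length := by
    have := List.length_pos_iff.mpr a6
    rw [a4, List.length_append] at hlen
    rw [a5, List.length_append, List.length_append]
    omega
  have hhi : (v1 ++ b).length ≤ k + m := by
    rw [a4, List.length_append] at hlen
    rw [List.length_append]
    omega
  have hv2 : v2 ≠ [] := by
    intro h
    rw [hq, h, List.append_nil] at hk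
    omega
  have hu2 : u2 ≠ [] := by
    intro h
    have := (a3.len hX).1
    rw [h, List.length_nil, mul_zero] at this
    exact hv2 (List.length_eq_zero_iff.mp (by omega))
  have hp'' : u' = (u1 ++ a) ++ u2 := by rw [a8, List.append_assoc]
  obtain ⟨p', x', g, h, z1, z2, u3, v3, b1, b2, b3, b4, b5, b6, b7, b8⟩ :=
    h2.split1 _ _ hp'' hu2
  have hh := hX.ne2 _ _ b2
  obtain ⟨p, x, g', h', y1, y2, u4, v4, c1, c2, c3, c4, c5, c6, c7, c8⟩ :=
    h1.split2 _ _ b8 (by simp [hh])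
  refine ⟨z1, g, h, y1, g', h', p, v1 ++ b, g' ++ u4, v2, ?_⟩
  refine ⟨b2, c2, ?_, ?_, ⟨z2, b5.symm⟩, ⟨y2, c5.symm⟩, c8, hq, hlo, hhi, ?_, ?_⟩
  · have := hX.le1 _ _ b2
    rw [b5, List.length_append] at this
    omega
  · have := hX.le2 _ _ c2
    rw [c5, List.length_append] at this
    omega
  · refine ⟨⟨x, p', c1, ?_, ?_⟩⟩
    · rw [← c4]; exact b1
    · rw [← b4]; exact a1.append (G.of_mem a2)
  · refine ⟨⟨u4, v4, u3, v3, u2, rfl, c3, b3, a3, ?_, ?_⟩⟩
    · rw [b7, b5, List.append_assoc]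
    · rw [c7, c5, List.append_assoc]

/-- The number of states. -/
def MM (c m : ℕ) : ℕ :=
  ((c + 1) ^ m) ^ 6 * 2 ^ ((c + 1) ^ KK m * (c + 1) ^ KK m)

/-- The length bound. -/
def NN (c m : ℕ) : ℕ := (MM c m + 1) * m + m * (m + (m * m + m))

theorem G.lt2 (hX : Good X c m) {u v : List ℕ} (h : G X u v) : ∀ x ∈ v, x < c := by
  induction h with
  | nil => simp
  | cons hx _ ih =>
    intro x hx'
    rcases List.mem_append.mp hx' with h | h
    · exact hX.lt2 _ _ hx x h
    · exact ih x h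

theorem G.lt1 (hX : Good X c m) {u v : List ℕ} (h : G X u v) : ∀ x ∈ u, x < c := by
  induction h with
  | nil => simp
  | cons hx _ ih =>
    intro x hx'
    rcases List.mem_append.mp hx' with h | h
    · exact hX.lt1 _ _ hx x h
    · exact ih x h

theorem D_succ (hX : Good X c m) {n : ℕ} (hD : D X n) (hn : NN c m ≤ n) : D X (n + 1) := by
  classical
  intro u v u' v' hv' h1 h2 h3
  by_cases hlt : v'.length ≤ n
  · exact hD u v u' v' hlt h1 h2 h3
  have hlen : v'.length = n + 1 := by omega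
  have hm : 0 < m ∨ m = 0 := by omega
  rcases hm with hm | hm
  swap
  · have := (h3.len hX).1
    rw [hm, zero_mul] at this
    omega
  -- cuts at all positions `k * m`
  have hcut : ∀ k : ℕ, k ≤ MM c m → ∃ σ : (List ℕ × List ℕ × List ℕ × List ℕ × List ℕ × List ℕ) ×
      (List ℕ × List ℕ × List ℕ × List ℕ),
      Cut X m u v' (k * m) σ.1.1 σ.1.2.1 σ.1.2.2.1 σ.1.2.2.2.1 σ.1.2.2.2.2.1 σ.1.2.2.2.2.2
        σ.2.1 σ.2.2.1 σ.2.2.2.1 σ.2.2.2.2 := by
    intro k hk
    have hkm : k * m + m < v'.length := by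
      have : k * m ≤ MM c m * m := Nat.mul_le_mul_right _ hk
      unfold NN at hn
      rw [add_mul, one_mul] at hn
      omega
    obtain ⟨z1, g, h, y1, g', h', p, q, U, V, hc⟩ := exists_cut hX h1 h2 h3 hkm
    exact ⟨((z1, g, h, y1, g', h'), (p, q, U, V)), hc⟩
  choose! σ hσ using hcut
  let W0 : Finset (List ℕ) := Wd c m
  let W1 : Finset (List ℕ) := Wd c (KK m)
  let T : Finset ((List ℕ × List ℕ × List ℕ × List ℕ × List ℕ × List ℕ) ×
      Finset (List ℕ × List ℕ)) :=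
    (W0 ×ˢ W0 ×ˢ W0 ×ˢ W0 ×ˢ W0 ×ˢ W0) ×ˢ (W1 ×ˢ W1).powerset
  let f : ℕ → (List ℕ × List ℕ × List ℕ × List ℕ × List ℕ × List ℕ) ×
      Finset (List ℕ × List ℕ) := fun k =>
    ((σ k).1, (W1 ×ˢ W1).filter (fun w => w ∈ Win X (KK m) (σ k).2.1 (σ k).2.2.1))
  have hTcard : T.card ≤ MM c m := by
    have e0 : W0.card ≤ (c + 1) ^ m := card_Wd m
    have e1 : W1.card ≤ (c + 1) ^ KK m := card_Wd (KK m)
    simp only [T, Finset.card_product, Finset.card_powerset]
    unfold MM
    have e2 : W1.card * W1.card ≤ (c + 1) ^ KK m * (c + 1) ^ KK m := Nat.mul_le_mul e1 e1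
    have e3 : 2 ^ (W1.card * W1.card) ≤ 2 ^ ((c + 1) ^ KK m * (c + 1) ^ KK m) :=
      Nat.pow_le_pow_right (by norm_num) e2
    have e4 : W0.card * (W0.card * (W0.card * (W0.card * (W0.card * W0.card)))) ≤
        ((c + 1) ^ m) ^ 6 := by
      calc W0.card * (W0.card * (W0.card * (W0.card * (W0.card * W0.card)))) = W0.card ^ 6 := by
            ring
        _ ≤ _ := Nat.pow_le_pow_left e0 6
    exact Nat.mul_le_mul e4 e3
  have hmaps : ∀ k ∈ Finset.range (MM c m + 1), f k ∈ T := by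
    intro k hk
    have hc := hσ k (by simpa [Nat.lt_succ_iff] using hk)
    simp only [T, f, Finset.mem_product, Finset.mem_powerset]
    refine ⟨⟨?_, ?_, ?_, ?_, ?_, ?_⟩, Finset.filter_subset _ _⟩
    · exact mem_Wd m _ hc.hz (fun x hx => hX.lt1 _ _ hc.hg x (hc.hz'.subset hx))
    · exact mem_Wd m _ (hX.le1 _ _ hc.hg) (hX.lt1 _ _ hc.hg)
    · exact mem_Wd m _ (hX.le2 _ _ hc.hg) (hX.lt2 _ _ hc.hg)
    · exact mem_Wd m _ hc.hy (fun x hx => hX.lt2 _ _ hc.hg' x (hc.hy'.subset hx))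
    · exact mem_Wd m _ (hX.le1 _ _ hc.hg') (hX.lt1 _ _ hc.hg')
    · exact mem_Wd m _ (hX.le2 _ _ hc.hg') (hX.lt2 _ _ hc.hg')
  obtain ⟨k1, hk1, k2, hk2, hne, hfe⟩ : ∃ k1 ∈ Finset.range (MM c m + 1),
      ∃ k2 ∈ Finset.range (MM c m + 1), k1 ≠ k2 ∧ f k1 = f k2 :=
    Finset.exists_ne_map_eq_of_card_lt_of_maps_to (by rw [Finset.card_range]; omega) hmaps
  obtain ⟨k1, hk1, k2, hk2, hlt12, hfe⟩ : ∃ k1 ∈ Finset.range (MM c m + 1),
      ∃ k2 ∈ Finset.range (MM c m + 1), k1 < k2 ∧ f k1 = f k2 := by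
    rcases Nat.lt_or_gt_of_ne hne with h | h
    · exact ⟨k1, hk1, k2, hk2, h, hfe⟩
    · exact ⟨k2, hk2, k1, hk1, h, hfe.symm⟩
  have hk1' : k1 ≤ MM c m := by simpa [Nat.lt_succ_iff] using hk1
  have hk2' : k2 ≤ MM c m := by simpa [Nat.lt_succ_iff] using hk2
  have hc1 := hσ k1 hk1'
  have hc2 := hσ k2 hk2'
  have hfe' : ((σ k1).1, (W1 ×ˢ W1).filter (fun w => w ∈ Win X (KK m) (σ k1).2.1 (σ k1).2.2.1)) =
      ((σ k2).1, (W1 ×ˢ W1).filter (fun w => w ∈ Win X (KK m) (σ k2).2.1 (σ k2).2.2.1)) := hfe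
  obtain ⟨hs, hw⟩ := Prod.mk.inj hfe'
  rw [hs] at hc1
  generalize (σ k1).2.1 = p1 at hc1 hw
  generalize (σ k1).2.2.1 = q1 at hc1 hw
  generalize (σ k1).2.2.2.1 = U1 at hc1
  generalize (σ k1).2.2.2.2 = V1 at hc1
  generalize (σ k2).2.1 = p2 at hc2 hw
  generalize (σ k2).2.2.1 = q2 at hc2 hw
  generalize (σ k2).2.2.2.1 = U2 at hc2
  generalize (σ k2).2.2.2.2 = V2 at hc2
  have hwin : Win X (KK m) p1 q1 ⊆ Win X (KK m) p2 q2 := by
    rintro ⟨s, r⟩ hsr
    have hsr' := hsr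
    obtain ⟨hsl, hrl, p0, q0, e1, e2, e3⟩ := hsr
    simp only at hsl hrl e1 e2
    have hls : ∀ x ∈ s, x < c := by
      intro x hx
      refine h1.lt1 hX x ?_
      rw [hc1.hu, e1]
      simp [hx]
    have hlr : ∀ x ∈ r, x < c := by
      intro x hx
      refine h3.lt2 hX x ?_
      rw [hc1.hv, e2]
      simp [hx]
    have hmem : (s, r) ∈ (W1 ×ˢ W1).filter (fun w => w ∈ Win X (KK m) p1 q1) := by
      rw [Finset.mem_filter, Finset.mem_product]
      exact ⟨⟨mem_Wd _ _ hsl hls, mem_Wd _ _ hrl hlr⟩, hsr'⟩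
    rw [hw, Finset.mem_filter] at hmem
    exact hmem.2
  have hlq : q1.length < q2.length := by
    have a1 := hc1.hi
    have a2 := hc2.lo
    have a3 : (k1 + 1) * m ≤ k2 * m := Nat.mul_le_mul_right _ hlt12
    rw [add_mul, one_mul] at a3
    omega
  have hlv : q2.length + V2.length = n + 1 := by
    rw [← hlen, hc2.hv, List.length_append]
  have hq1 : q1.length + m * (m + (m * m + m)) ≤ n := by
    have a1 := hc1.hi
    have a2 : k1 * m ≤ MM c m * m := Nat.mul_le_mul_right _ hk1'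
    unfold NN at hn
    rw [add_mul, one_mul] at hn
    omega
  have hfin := pump hX hD (n := n) hc1.hg hc1.hg' hc1.past hc2.future hc1.hz hc1.hy
    (by rw [List.length_append]; omega) hq1 hwin
  rw [hc2.hu, hc2.hv]
  exact hfin

/-- Difunctionality up to length `NN c m` implies difunctionality. -/
theorem D_all (hX : Good X c m) (hD : D X (NN c m)) (n : ℕ) : D X n := by
  have h : ∀ k, D X (NN c m + k) := by
    intro k
    induction k with
    | zero => exact hD
    | succ k ih => exact D_succ hX ih (Nat.le_add_right _ _)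
  intro u v u' v' hv'
  exact h n u v u' v' (by omega)

end Pool.Agent.R658.FP
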