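import Pool.Agent.R658.FPAlg

set_option autoImplicit false

/-!
The decision procedure is primitive recursive.
-/

namespace Pool.Agent.R658.FP

/-- All products of at most `k` generators. -/
def P (X : List (List ℕ × List ℕ)) : ℕ → List (List ℕ × List ℕ)
  | 0 => [([], [])]
  | k + 1 => P X k ++ X.flatMap (fun x => (P X k).map (fun w => (x.1 ++ w.1, x.2 ++ w.2)))

theorem P_sound {X : List (List ℕ × List ℕ)} (k : ℕ) : ∀ w ∈ P X k, G X w.1 w.2 := by
  induction k with
  | zero =>
    intro w hw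
    simp only [P, List.mem_singleton] at hw
    subst hw
    exact G.nil
  | succ k ih =>
    intro w hw
    simp only [P, List.mem_append, List.mem_flatMap, List.mem_map] at hw
    rcases hw with hw | ⟨x, hx, w', hw', rfl⟩
    · exact ih w hw
    · exact G.cons hx (ih w' hw')

theorem P_mono {X : List (List ℕ × List ℕ)} {k l : ℕ} (h : k ≤ l) : ∀ w ∈ P X k, w ∈ P X l := by
  induction l, h using Nat.le_induction with
  | base => exact fun w h => h
  | succ l _ ih =>
    intro w hw
    simp only [P, List.mem_append]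
    exact Or.inl (ih w hw)

theorem P_complete {X : List (List ℕ × List ℕ)} (hne : ∀ a b, (a, b) ∈ X → b ≠ []) {u v : List ℕ}
    (h : G X u v) : (u, v) ∈ P X v.length := by
  induction h with
  | nil => simp [P]
  | @cons a b u v hx h ih =>
    have hb := List.length_pos_iff.mpr (hne _ _ hx)
    have h1 : (u, v) ∈ P X (b.length + v.length - 1) := P_mono (by omega) _ ih
    rw [List.length_append]
    have h2 : b.length + v.length = (b.length + v.length - 1) + 1 := by omega
    rw [h2]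
    simp only [P, List.mem_append, List.mem_flatMap, List.mem_map]
    right
    exact ⟨(a, b), hx, (u, v), h1, rfl⟩

theorem P_length {X : List (List ℕ × List ℕ)} {m : ℕ} (hle : ∀ a b, (a, b) ∈ X → b.length ≤ m)
    (k : ℕ) : ∀ w ∈ P X k, w.2.length ≤ m * k := by
  induction k with
  | zero =>
    intro w hw
    simp only [P, List.mem_singleton] at hw
    subst hw
    simp
  | succ k ih =>
    intro w hw
    simp only [P, List.mem_append, List.mem_flatMap, List.mem_map] at hw
    rcases hw with hw | ⟨x, hx, w', hw', rfl⟩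
    · have := ih w hw
      rw [mul_add, mul_one]
      omega
    · have h1 := ih w' hw'
      have h2 := hle x.1 x.2 hx
      simp only [List.length_append]
      rw [mul_add, mul_one]
      omega

/-- The finite check. -/
def Check (L L' : List (List ℕ × List ℕ)) : Prop :=
  ∀ w1 ∈ L, ∀ w2 ∈ L, ∀ w3 ∈ L, w1.2 = w2.2 → w2.1 = w3.1 → (w1.1, w3.2) ∈ L'

/-- The length bound used by the check. -/
def k1 (c m : ℕ) : ℕ := m * (m * NN c m) + m * NN c m + NN c m

theorem check_iff {X : List (List ℕ × List ℕ)} {c m : ℕ} (hX : Good X c m) :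
    Check (P X (k1 c m)) (P X (m * k1 c m)) ↔ ∀ n, D X n := by
  constructor
  · intro hC
    apply D_all hX
    intro u v u' v' hv' g1 g2 g3
    have l1 := (g3.len hX).2
    have l2 := (g2.len hX).1
    have l3 : m * v'.length ≤ m * NN c m := Nat.mul_le_mul_left _ hv'
    have l4 : m * u'.length ≤ m * (m * NN c m) := Nat.mul_le_mul_left _ (by omega)
    have c1 : (u, v) ∈ P X (k1 c m) :=
      P_mono (by unfold k1; omega) _ (P_complete hX.ne2 g1)
    have c2 : (u', v) ∈ P X (k1 c m) :=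
      P_mono (by unfold k1; omega) _ (P_complete hX.ne2 g2)
    have c3 : (u', v') ∈ P X (k1 c m) :=
      P_mono (by unfold k1; omega) _ (P_complete hX.ne2 g3)
    exact P_sound _ _ (hC _ c1 _ c2 _ c3 rfl rfl)
  · intro hD w1 h1 w2 h2 w3 h3 e1 e2
    have g1 := P_sound _ _ h1
    have g2 := P_sound _ _ h2
    have g3 := P_sound _ _ h3
    rw [e1] at g1
    rw [e2] at g2
    have g := hD w3.2.length _ _ _ _ le_rfl g1 g2 g3
    exact P_mono (P_length hX.le2 _ _ h3) _ (P_complete hX.ne2 g)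

section Primrec

theorem P_primrec : Primrec₂ P := by
  have h : Primrec₂ (fun (X : List (List ℕ × List ℕ)) (n : ℕ) =>
      n.rec (motive := fun _ => List (List ℕ × List ℕ)) [([], [])] (fun n IH =>
        IH ++ X.flatMap (fun x => IH.map (fun w => (x.1 ++ w.1, x.2 ++ w.2))))) := by
    refine Primrec.nat_rec (f := fun _ : List (List ℕ × List ℕ) => [(([] : List ℕ), ([] : List ℕ))])
      (g := fun X y => y.2 ++ X.flatMap (fun x => y.2.map (fun w => (x.1 ++ w.1, x.2 ++ w.2))))
      (Primrec.const _) ?_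
    refine Primrec.list_append.comp (Primrec.snd.comp Primrec.snd) ?_
    refine Primrec.list_flatMap Primrec.fst ?_
    refine Primrec.list_map (Primrec.snd.comp (Primrec.snd.comp Primrec.fst)) ?_
    refine Primrec.pair ?_ ?_
    · exact Primrec.list_append.comp (Primrec.fst.comp (Primrec.snd.comp Primrec.fst))
        (Primrec.fst.comp Primrec.snd)
    · exact Primrec.list_append.comp (Primrec.snd.comp (Primrec.snd.comp Primrec.fst))
        (Primrec.snd.comp Primrec.snd)
  refine h.of_eq ?_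
  intro X n
  induction n with
  | zero => rfl
  | succ n ih =>
    simp only [P]
    rw [← ih]

theorem pow_primrec : Primrec₂ ((· ^ ·) : ℕ → ℕ → ℕ) := by
  have h : Primrec₂ (fun (a : ℕ) (n : ℕ) =>
      n.rec (motive := fun _ => ℕ) 1 (fun _ IH => IH * a)) := by
    refine Primrec.nat_rec (f := fun _ : ℕ => 1) (g := fun a y => y.2 * a) (Primrec.const _) ?_
    exact Primrec.nat_mul.comp (Primrec.snd.comp Primrec.snd) Primrec.fst
  refine h.of_eq ?_
  intro a n
  induction n with
  | zero => simp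
  | succ n ih =>
    simp only at ih ⊢
    rw [ih, pow_succ]

theorem mOf_primrec : Primrec mOf := by
  unfold mOf
  refine Primrec.list_length.comp (Primrec.list_flatMap Primrec.id ?_)
  exact Primrec.list_append.comp (Primrec.fst.comp Primrec.snd) (Primrec.snd.comp Primrec.snd)

theorem KK_primrec : Primrec KK := by
  unfold KK
  have hm : Primrec (fun m : ℕ => m) := Primrec.id
  have hmm : Primrec (fun m : ℕ => m * m) := Primrec.nat_mul.comp hm hm
  have h1 : Primrec (fun m : ℕ => m + (m * m + m)) :=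
    Primrec.nat_add.comp hm (Primrec.nat_add.comp hmm hm)
  have h2 : Primrec (fun m : ℕ => m * (m * (m + (m * m + m)))) :=
    Primrec.nat_mul.comp hm (Primrec.nat_mul.comp hm h1)
  exact Primrec.nat_add.comp (Primrec.nat_add.comp h2 hmm) hm

theorem NN_primrec : Primrec₂ NN := by
  unfold NN MM
  have hc : Primrec (fun x : ℕ × ℕ => x.1 + 1) :=
    Primrec.nat_add.comp Primrec.fst (Primrec.const 1)
  have hm : Primrec (fun x : ℕ × ℕ => x.2) := Primrec.snd
  have hmm : Primrec (fun x : ℕ × ℕ => x.2 * x.2) := Primrec.nat_mul.comp hm hm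
  have h1 : Primrec (fun x : ℕ × ℕ => x.2 + (x.2 * x.2 + x.2)) :=
    Primrec.nat_add.comp hm (Primrec.nat_add.comp hmm hm)
  have h2 : Primrec (fun x : ℕ × ℕ => x.2 * (x.2 + (x.2 * x.2 + x.2))) :=
    Primrec.nat_mul.comp hm h1
  have hK : Primrec (fun x : ℕ × ℕ => (x.1 + 1) ^ KK x.2) :=
    pow_primrec.comp hc (KK_primrec.comp hm)
  have h3 : Primrec (fun x : ℕ × ℕ => 2 ^ ((x.1 + 1) ^ KK x.2 * (x.1 + 1) ^ KK x.2)) :=
    pow_primrec.comp (Primrec.const 2) (Primrec.nat_mul.comp hK hK)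
  have h4 : Primrec (fun x : ℕ × ℕ => ((x.1 + 1) ^ x.2) ^ 6) :=
    pow_primrec.comp (pow_primrec.comp hc hm) (Primrec.const 6)
  have h5 := Primrec.nat_mul.comp h4 h3
  exact Primrec.nat_add.comp (Primrec.nat_mul.comp (Primrec.nat_add.comp h5 (Primrec.const 1)) hm) h2

theorem k1_primrec : Primrec₂ k1 := by
  unfold k1
  have hm : Primrec (fun x : ℕ × ℕ => x.2) := Primrec.snd
  have hN : Primrec (fun x : ℕ × ℕ => NN x.1 x.2) := NN_primrec
  have h1 : Primrec (fun x : ℕ × ℕ => x.2 * NN x.1 x.2) := Primrec.nat_mul.comp hm hN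
  have h2 : Primrec (fun x : ℕ × ℕ => x.2 * (x.2 * NN x.1 x.2)) := Primrec.nat_mul.comp hm h1
  exact Primrec.nat_add.comp (Primrec.nat_add.comp h2 h1) hN

abbrev W : Type := List ℕ × List ℕ

theorem mem_primrec {α : Type} [Primcodable α] :
    PrimrecRel (fun (L : List α) (a : α) => a ∈ L) := by
  have h : PrimrecRel (fun (L : List α) (b : α) => ∃ a ∈ L, a = b) :=
    PrimrecRel.exists_mem_list (Primrec.eq (α := α))
  exact h.of_eq (fun L b => by simp)

theorem Check_primrec : PrimrecRel Check := by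
  classical
  -- innermost relation
  have h3 : PrimrecRel (fun (w3 : W) (b : W × W × List W × List W) =>
      ¬ (b.1.2 = b.2.1.2 ∧ b.2.1.1 = w3.1) ∨ (b.1.1, w3.2) ∈ b.2.2.2) := by
    refine PrimrecPred.or (PrimrecPred.not (PrimrecPred.and ?_ ?_)) ?_
    · exact Primrec.eq.comp (Primrec.snd.comp (Primrec.fst.comp Primrec.snd))
        (Primrec.snd.comp (Primrec.fst.comp (Primrec.snd.comp Primrec.snd)))
    · exact Primrec.eq.comp (Primrec.fst.comp (Primrec.fst.comp (Primrec.snd.comp Primrec.snd)))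
        (Primrec.fst.comp Primrec.fst)
    · exact mem_primrec.comp (Primrec.snd.comp (Primrec.snd.comp (Primrec.snd.comp Primrec.snd)))
        (Primrec.pair (Primrec.fst.comp (Primrec.fst.comp Primrec.snd))
          (Primrec.snd.comp Primrec.fst))
  have h3' := h3.forall_mem_list
  have h2 : PrimrecRel (fun (w2 : W) (b : W × List W × List W) => ∀ w3 ∈ b.2.1,
      ¬ (b.1.2 = w2.2 ∧ w2.1 = w3.1) ∨ (b.1.1, w3.2) ∈ b.2.2) :=
    h3'.comp (Primrec.fst.comp (Primrec.snd.comp Primrec.snd))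
      (Primrec.pair (Primrec.fst.comp Primrec.snd)
        (Primrec.pair Primrec.fst (Primrec.snd.comp Primrec.snd)))
  have h2' := h2.forall_mem_list
  have h1 : PrimrecRel (fun (w1 : W) (b : List W × List W) => ∀ w2 ∈ b.1, ∀ w3 ∈ b.1,
      ¬ (w1.2 = w2.2 ∧ w2.1 = w3.1) ∨ (w1.1, w3.2) ∈ b.2) :=
    h2'.comp (Primrec.fst.comp Primrec.snd) (Primrec.pair Primrec.fst Primrec.snd)
  have h1' := h1.forall_mem_list
  have h0 : PrimrecRel (fun (L L' : List W) => ∀ w1 ∈ L, ∀ w2 ∈ L, ∀ w3 ∈ L,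
      ¬ (w1.2 = w2.2 ∧ w2.1 = w3.1) ∨ (w1.1, w3.2) ∈ L') :=
    h1'.comp Primrec.fst Primrec.id
  refine h0.of_eq (fun L L' => ?_)
  unfold Check
  constructor
  · intro h w1 hw1 w2 hw2 w3 hw3 e1 e2
    exact (h w1 hw1 w2 hw2 w3 hw3).resolve_left (fun hn => hn ⟨e1, e2⟩)
  · intro h w1 hw1 w2 hw2 w3 hw3
    by_cases hc : w1.2 = w2.2 ∧ w2.1 = w3.1
    · exact Or.inr (h w1 hw1 w2 hw2 w3 hw3 hc.1 hc.2)
    · exact Or.inl hc

theorem Valid_primrec :
    PrimrecPred (fun i : ℕ × ℕ × List (List ℕ × List ℕ) => Valid i.1 i.2.1 i.2.2) := by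
  classical
  unfold Valid
  have hlt : PrimrecRel (fun (a : ℕ) (p : ℕ) => a < p) := Primrec.nat_lt
  have hall : PrimrecRel (fun (L : List ℕ) (p : ℕ) => ∀ a ∈ L, a < p) := hlt.forall_mem_list
  have hX : PrimrecRel (fun (x : W) (i : ℕ × ℕ × List W) =>
      (x.1 ≠ [] ∧ x.2 ≠ []) ∧ ((∀ a ∈ x.1, a < i.1) ∧ (∀ b ∈ x.2, b < i.2.1))) := by
    refine PrimrecPred.and (PrimrecPred.and ?_ ?_) (PrimrecPred.and ?_ ?_)
    · exact PrimrecPred.not (Primrec.eq.comp (Primrec.fst.comp Primrec.fst) (Primrec.const []))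
    · exact PrimrecPred.not (Primrec.eq.comp (Primrec.snd.comp Primrec.fst) (Primrec.const []))
    · exact hall.comp (Primrec.fst.comp Primrec.fst) (Primrec.fst.comp Primrec.snd)
    · exact hall.comp (Primrec.snd.comp Primrec.fst)
        (Primrec.fst.comp (Primrec.snd.comp Primrec.snd))
  have hX' := hX.forall_mem_list
  have hA0 : PrimrecRel (fun (x : W) (a : ℕ) => x.1 = [a]) :=
    Primrec.eq.comp (Primrec.fst.comp Primrec.fst)
      (Primrec.list_cons.comp Primrec.snd (Primrec.const []))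
  have hA1 : PrimrecRel (fun (a : ℕ) (X : List W) => ∃ x ∈ X, x.1 = [a]) :=
    hA0.exists_mem_list.swap
  have hA2 : PrimrecRel (fun (p : ℕ) (X : List W) => ∀ a ∈ List.range p, ∃ x ∈ X, x.1 = [a]) :=
    hA1.forall_mem_list.comp (Primrec.list_range.comp Primrec.fst) Primrec.snd
  have hB0 : PrimrecRel (fun (x : W) (a : ℕ) => x.2 = [a]) :=
    Primrec.eq.comp (Primrec.snd.comp Primrec.fst)
      (Primrec.list_cons.comp Primrec.snd (Primrec.const []))
  have hB1 : PrimrecRel (fun (a : ℕ) (X : List W) => ∃ x ∈ X, x.2 = [a]) :=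
    hB0.exists_mem_list.swap
  have hB2 : PrimrecRel (fun (p : ℕ) (X : List W) => ∀ a ∈ List.range p, ∃ x ∈ X, x.2 = [a]) :=
    hB1.forall_mem_list.comp (Primrec.list_range.comp Primrec.fst) Primrec.snd
  refine PrimrecPred.and (PrimrecPred.and ?_ ?_) (PrimrecPred.and ?_ (PrimrecPred.and ?_ ?_))
  · exact Primrec.nat_lt.comp (Primrec.const 0) Primrec.fst
  · exact Primrec.nat_lt.comp (Primrec.const 0) (Primrec.fst.comp Primrec.snd)
  · exact hX'.comp (Primrec.snd.comp Primrec.snd) Primrec.id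
  · exact (hA2.comp Primrec.fst (Primrec.snd.comp Primrec.snd)).of_eq (fun i => by simp)
  · exact (hB2.comp (Primrec.fst.comp Primrec.snd) (Primrec.snd.comp Primrec.snd)).of_eq
      (fun i => by simp)

/-- The main decidability statement. -/
theorem main_primrec :
    PrimrecPred (fun i : ℕ × ℕ × List (List ℕ × List ℕ) =>
      Legal i.1 i.2.1 i.2.2 ∧ IsFiberProduct (S i.1 i.2.1 i.2.2)) := by
  have hm : Primrec (fun i : ℕ × ℕ × List (List ℕ × List ℕ) => mOf i.2.2) :=
    mOf_primrec.comp (Primrec.snd.comp Primrec.snd)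
  have hk : Primrec (fun i : ℕ × ℕ × List (List ℕ × List ℕ) =>
      k1 (i.1 + i.2.1) (mOf i.2.2)) :=
    k1_primrec.comp (Primrec.nat_add.comp Primrec.fst (Primrec.fst.comp Primrec.snd)) hm
  have hC : PrimrecPred (fun i : ℕ × ℕ × List (List ℕ × List ℕ) =>
      Check (P i.2.2 (k1 (i.1 + i.2.1) (mOf i.2.2)))
        (P i.2.2 (mOf i.2.2 * k1 (i.1 + i.2.1) (mOf i.2.2)))) := by
    refine Check_primrec.comp ?_ ?_
    · exact P_primrec.comp (Primrec.snd.comp Primrec.snd) hk
    · exact P_primrec.comp (Primrec.snd.comp Primrec.snd) (Primrec.nat_mul.comp hm hk)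
  refine (PrimrecPred.and Valid_primrec hC).of_eq (fun i => ?_)
  constructor
  · rintro ⟨h1, h2⟩
    have hL := (legal_iff _ _ _).mpr h1
    exact ⟨hL, (fp_iff hL).mpr ((check_iff (good_of_valid h1)).mp h2)⟩
  · rintro ⟨hL, h2⟩
    have h1 := (legal_iff _ _ _).mp hL
    exact ⟨h1, (check_iff (good_of_valid h1)).mpr ((fp_iff hL).mp h2)⟩

end Primrec

end Pool.Agent.R658.FP
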