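import Mathlib

set_option autoImplicit false

/-!
Difunctionality of finitely generated subdirect products of two free semigroups:
it is enough to test words up to an explicit length.
-/

namespace Pool.Agent.R658.FP

/-- The submonoid of pairs of words generated by `X`. -/
inductive G (X : List (List ℕ × List ℕ)) : List ℕ → List ℕ → Prop
  | nil : G X [] []
  | cons {a b u v : List ℕ} : (a, b) ∈ X → G X u v → G X (a ++ u) (b ++ v)

/-- The standing assumptions: components nonempty, of length at most `m`, letters below `c`, and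
every letter that occurs is itself a component of a generator. -/
structure Good (X : List (List ℕ × List ℕ)) (c m : ℕ) : Prop where
  ne1 : ∀ a b, (a, b) ∈ X → a ≠ []
  ne2 : ∀ a b, (a, b) ∈ X → b ≠ []
  le1 : ∀ a b, (a, b) ∈ X → a.length ≤ m
  le2 : ∀ a b, (a, b) ∈ X → b.length ≤ m
  lt1 : ∀ a b, (a, b) ∈ X → ∀ x ∈ a, x < c
  lt2 : ∀ a b, (a, b) ∈ X → ∀ x ∈ b, x < c
  sd1 : ∀ a b, (a, b) ∈ X → ∀ x ∈ a, ∃ y, ([x], y) ∈ X
  sd2 : ∀ a b, (a, b) ∈ X → ∀ y ∈ b, ∃ x, (x, [y]) ∈ X

variable {X : List (List ℕ × List ℕ)} {c m : ℕ}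

theorem G.append {u v u' v' : List ℕ} (h : G X u v) (h' : G X u' v') :
    G X (u ++ u') (v ++ v') := by
  induction h with
  | nil => simpa using h'
  | cons hx _ ih =>
    rw [List.append_assoc, List.append_assoc]
    exact G.cons hx ih

theorem G.of_mem {a b : List ℕ} (h : (a, b) ∈ X) : G X a b := by
  have := G.cons h (G.nil)
  simpa using this

theorem G.len (hX : Good X c m) {u v : List ℕ} (h : G X u v) :
    v.length ≤ m * u.length ∧ u.length ≤ m * v.length := by
  induction h with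
  | nil => simp
  | @cons a b u v hx _ ih =>
    have h1 := hX.ne1 _ _ hx
    have h2 := hX.ne2 _ _ hx
    have h3 := hX.le1 _ _ hx
    have h4 := hX.le2 _ _ hx
    have h5 := List.length_pos_iff.mpr h1
    have h6 := List.length_pos_iff.mpr h2
    simp only [List.length_append]
    constructor
    · nlinarith [ih.1]
    · nlinarith [ih.2]

theorem G.let1 (hX : Good X c m) {u v : List ℕ} (h : G X u v) :
    ∀ x ∈ u, ∃ y, ([x], y) ∈ X := by
  induction h with
  | nil => simp
  | cons hx _ ih =>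
    intro x hx'
    rcases List.mem_append.mp hx' with h | h
    · exact hX.sd1 _ _ hx x h
    · exact ih x h

theorem G.let2 (hX : Good X c m) {u v : List ℕ} (h : G X u v) :
    ∀ y ∈ v, ∃ x, (x, [y]) ∈ X := by
  induction h with
  | nil => simp
  | cons hx _ ih =>
    intro x hx'
    rcases List.mem_append.mp hx' with h | h
    · exact hX.sd2 _ _ hx x h
    · exact ih x h

theorem ex1 {u : List ℕ} (h : ∀ x ∈ u, ∃ y, ([x], y) ∈ X) : ∃ v, G X u v := by
  induction u with
  | nil => exact ⟨[], G.nil⟩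
  | cons a u ih =>
    obtain ⟨y, hy⟩ := h a (by simp)
    obtain ⟨v, hv⟩ := ih (fun x hx => h x (by simp [hx]))
    exact ⟨y ++ v, G.cons hy hv⟩

theorem ex2 (hX : Good X c m) {v : List ℕ} (h : ∀ y ∈ v, ∃ x, (x, [y]) ∈ X) :
    ∃ u, G X u v ∧ v.length ≤ u.length := by
  induction v with
  | nil => exact ⟨[], G.nil, le_rfl⟩
  | cons a v ih =>
    obtain ⟨y, hy⟩ := h a (by simp)
    obtain ⟨u, hu, hl⟩ := ih (fun x hx => h x (by simp [hx]))
    refine ⟨y ++ u, G.cons hy hu, ?_⟩
    have := List.length_pos_iff.mpr (hX.ne1 _ _ hy)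
    simp only [List.length_cons, List.length_append]
    omega

/-- Splitting a factorisation at a position of the first component. -/
theorem G.split1 {u v : List ℕ} (h : G X u v) :
    ∀ p r, u = p ++ r → r ≠ [] → ∃ u1 v1 g h z1 z2 u2 v2, G X u1 v1 ∧ (g, h) ∈ X ∧
      G X u2 v2 ∧ p = u1 ++ z1 ∧ g = z1 ++ z2 ∧ z2 ≠ [] ∧ r = z2 ++ u2 ∧
      v = v1 ++ (h ++ v2) := by
  induction h with
  | nil =>
    intro p r h hr
    simp at h
    exact absurd h.2 hr
  | @cons a b u v hx hG ih =>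
    intro p r h hr
    rcases List.append_eq_append_iff.mp h with ⟨t, ht1, ht2⟩ | ⟨t, ht1, ht2⟩
    · -- p = a ++ t, u = t ++ r
      obtain ⟨u1, v1, g, h, z1, z2, u2, v2, h1, h2, h3, h4, h5, h6, h7, h8⟩ := ih t r ht2 hr
      refine ⟨a ++ u1, b ++ v1, g, h, z1, z2, u2, v2, G.cons hx h1, h2, h3, ?_, h5, h6, h7, ?_⟩
      · rw [ht1, h4, List.append_assoc]
      · rw [h8, List.append_assoc]
    · -- a = p ++ t, r = t ++ u
      by_cases ht : t = []
      · subst ht
        simp at ht1 ht2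
        subst ht1
        subst ht2
        obtain ⟨u1, v1, g, h, z1, z2, u2, v2, h1, h2, h3, h4, h5, h6, h7, h8⟩ :=
          ih [] r (by simp) hr
        refine ⟨a ++ u1, b ++ v1, g, h, z1, z2, u2, v2, G.cons hx h1, h2, h3, ?_, h5, h6, h7, ?_⟩
        · rw [List.append_assoc, ← h4]; simp
        · rw [h8, List.append_assoc]
      · exact ⟨[], [], a, b, p, t, u, v, G.nil, hx, hG, rfl, ht1, ht, ht2, rfl⟩

/-- Splitting a factorisation at a position of the second component. -/
theorem G.split2 {u v : List ℕ} (h : G X u v) :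
    ∀ q r, v = q ++ r → r ≠ [] → ∃ u1 v1 g h y1 y2 u2 v2, G X u1 v1 ∧ (g, h) ∈ X ∧
      G X u2 v2 ∧ q = v1 ++ y1 ∧ h = y1 ++ y2 ∧ y2 ≠ [] ∧ r = y2 ++ v2 ∧
      u = u1 ++ (g ++ u2) := by
  induction h with
  | nil =>
    intro p r h hr
    simp at h
    exact absurd h.2 hr
  | @cons a b u v hx hG ih =>
    intro p r h hr
    rcases List.append_eq_append_iff.mp h with ⟨t, ht1, ht2⟩ | ⟨t, ht1, ht2⟩
    · obtain ⟨u1, v1, g, h, z1, z2, u2, v2, h1, h2, h3, h4, h5, h6, h7, h8⟩ := ih t r ht2 hr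
      refine ⟨a ++ u1, b ++ v1, g, h, z1, z2, u2, v2, G.cons hx h1, h2, h3, ?_, h5, h6, h7, ?_⟩
      · rw [ht1, h4, List.append_assoc]
      · rw [h8, List.append_assoc]
    · by_cases ht : t = []
      · subst ht
        simp at ht1 ht2
        subst ht1
        subst ht2
        obtain ⟨u1, v1, g, h, z1, z2, u2, v2, h1, h2, h3, h4, h5, h6, h7, h8⟩ :=
          ih [] r (by simp) hr
        refine ⟨a ++ u1, b ++ v1, g, h, z1, z2, u2, v2, G.cons hx h1, h2, h3, ?_, h5, h6, h7, ?_⟩
        · rw [List.append_assoc, ← h4]; simp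
        · rw [h8, List.append_assoc]
      · exact ⟨[], [], a, b, p, t, u, v, G.nil, hx, hG, rfl, ht1, ht, ht2, rfl⟩

/-- The last cut of a factorisation of `(p ++ r, q ++ s)` lying inside `(p, q)`. -/
theorem G.junction (hX : Good X c m) {u v : List ℕ} (h : G X u v) :
    ∀ p r q s, u = p ++ r → v = q ++ s → ∃ p0 p1 q0 q1, p = p0 ++ p1 ∧ q = q0 ++ q1 ∧
      G X p0 q0 ∧ G X (p1 ++ r) (q1 ++ s) ∧ (p1.length ≤ m ∨ q1.length ≤ m) := by
  induction h with
  | nil =>
    intro p r q s h1 h2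
    simp at h1 h2
    refine ⟨[], [], [], [], h1.1, h2.1, G.nil, ?_, Or.inl (by simp)⟩
    rw [h1.2, h2.2]
    exact G.nil
  | @cons a b u v hx hG ih =>
    intro p r q s h1 h2
    have key : G X (p ++ r) (q ++ s) := by
      rw [← h1, ← h2]
      exact G.cons hx hG
    rcases List.append_eq_append_iff.mp h1 with ⟨t, ht1, ht2⟩ | ⟨t, ht1, ht2⟩
    · rcases List.append_eq_append_iff.mp h2 with ⟨t', ht1', ht2'⟩ | ⟨t', ht1', ht2'⟩
      · obtain ⟨p0, p1, q0, q1, e1, e2, e3, e4, e5⟩ := ih t r t' s ht2 ht2'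
        refine ⟨a ++ p0, p1, b ++ q0, q1, ?_, ?_, G.cons hx e3, e4, e5⟩
        · rw [ht1, e1, List.append_assoc]
        · rw [ht1', e2, List.append_assoc]
      · refine ⟨[], p, [], q, rfl, rfl, G.nil, key, Or.inr ?_⟩
        have := hX.le2 _ _ hx
        rw [ht1', List.length_append] at this
        omega
    · refine ⟨[], p, [], q, rfl, rfl, G.nil, key, Or.inl ?_⟩
      have := hX.le1 _ _ hx
      rw [ht1, List.length_append] at this
      omega

/-- Difunctionality for targets of length at most `n`. -/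
def D (X : List (List ℕ × List ℕ)) (n : ℕ) : Prop :=
  ∀ u v u' v', v'.length ≤ n → G X u v → G X u' v → G X u' v' → G X u v'

/-- `w` is a longest word with `(w, v)` in the monoid. -/
theorem exists_max (hX : Good X c m) {w v : List ℕ} (h : G X w v) :
    ∃ W, G X W v ∧ ∀ w', G X w' v → w'.length ≤ W.length := by
  classical
  have hex : ∃ k, ∃ W, G X W v ∧ m * v.length - W.length = k := ⟨_, w, h, rfl⟩
  obtain ⟨W, hW, hk⟩ := Nat.find_spec hex
  refine ⟨W, hW, fun w' hw' => ?_⟩
  have h1 := Nat.find_min' hex ⟨w', hw', rfl⟩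
  have h2 := (hW.len hX).2
  have h3 := (hw'.len hX).2
  omega

/-- Passing from a prefix `q` to `q ++ y` changes the maximal length by at most `m * |y|`. -/
theorem G.down (hX : Good X c m) {W q y : List ℕ} (h : G X W (q ++ y)) :
    ∃ W', G X W' q ∧ W.length ≤ W'.length + m * y.length := by
  by_cases hy : y = []
  · subst hy
    exact ⟨W, by simpa using h, by simp⟩
  · obtain ⟨u1, v1, g, k, y1, y2, u2, v2, h1, h2, h3, h4, h5, h6, h7, h8⟩ :=
      h.split2 q y rfl hy
    have hl2 := (G.of_mem h2).let2 hX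
    obtain ⟨s, hs, _⟩ := ex2 hX (v := y1) (fun y hy' => hl2 y (by simp [h5, hy']))
    refine ⟨u1 ++ s, ?_, ?_⟩
    · rw [h4]
      exact h1.append hs
    · have e1 := hX.le1 _ _ h2
      have e2 := (h3.len hX).2
      have e3 := List.length_pos_iff.mpr h6
      rw [h8, h7]
      simp only [List.length_append]
      nlinarith

/-- First lag bound. -/
theorem lagB (hX : Good X c m) {n : ℕ} (hD : D X n) {p0 s q0 r e : List ℕ}
    (h0 : G X p0 q0) (h1 : G X (p0 ++ s ++ e) (q0 ++ r)) (hn : (q0 ++ r).length ≤ n) :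
    s.length ≤ m * r.length := by
  obtain ⟨w, hw, hmax⟩ := exists_max hX h0
  have hl := h1.let1 hX
  obtain ⟨y, hy⟩ := ex1 (X := X) (u := s ++ e) (fun x hx => hl x (by
    simp only [List.append_assoc, List.mem_append] at hx ⊢
    tauto))
  have a1 : G X (p0 ++ s ++ e) (q0 ++ y) := by
    rw [List.append_assoc]
    exact h0.append hy
  have a2 : G X (w ++ (s ++ e)) (q0 ++ y) := hw.append hy
  have a3 := hD _ _ _ _ hn a2 a1 h1
  obtain ⟨W', hW', hle⟩ := a3.down hX
  have := hmax _ hW'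
  simp only [List.length_append] at hle
  omega

/-- Second lag bound. -/
theorem lagA (hX : Good X c m) {n : ℕ} (hD : D X n) {p0 s q0 r e : List ℕ}
    (h0 : G X p0 q0) (h1 : G X (p0 ++ s ++ e) (q0 ++ r))
    (hn : q0.length + m * (s.length + e.length) ≤ n) :
    r.length ≤ m * (m * (s.length + e.length)) := by
  obtain ⟨W, hW, hmax⟩ := exists_max hX h1
  have hl := h1.let1 hX
  obtain ⟨y, hy⟩ := ex1 (X := X) (u := s ++ e) (fun x hx => hl x (by
    simp only [List.append_assoc, List.mem_append] at hx ⊢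
    tauto))
  have a1 : G X (p0 ++ s ++ e) (q0 ++ y) := by
    rw [List.append_assoc]
    exact h0.append hy
  have hyl := (hy.len hX).1
  rw [List.length_append] at hyl
  have hn' : (q0 ++ y).length ≤ n := by
    rw [List.length_append]
    omega
  have a2 := hD _ _ _ _ hn' hW h1 a1
  obtain ⟨W', hW', hle⟩ := a2.down hX
  have hl2 := h1.let2 hX
  obtain ⟨s', hs', hsl⟩ := ex2 hX (v := r) (fun y hy' => hl2 y (by simp [hy']))
  have a3 := hmax _ (hW'.append hs')
  rw [List.length_append] at a3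
  have : m * y.length ≤ m * (m * (s.length + e.length)) := Nat.mul_le_mul_left _ hyl
  omega

/-- The bound for the window. -/
def KK (m : ℕ) : ℕ := m * (m * (m + (m * m + m))) + m * m + m

/-- The state of a triple factorisation at a cut, looking back. -/
structure Past (X : List (List ℕ × List ℕ)) (z1 y1 p q : List ℕ) : Prop where
  ex : ∃ x p', G X p x ∧ G X p' (x ++ y1) ∧ G X (p' ++ z1) q

/-- The state of a triple factorisation at a cut, looking forward. -/
structure Future (X : List (List ℕ × List ℕ)) (z1 g h y1 g' h' U V : List ℕ) : Prop where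
  ex : ∃ u4 v4 u3 v3 u2, U = g' ++ u4 ∧ G X u4 v4 ∧ G X u3 v3 ∧ G X u2 V ∧
    z1 ++ u2 = g ++ u3 ∧ y1 ++ (h ++ v3) = h' ++ v4

theorem glue {z1 g h y1 g' h' U V p q : List ℕ} {n : ℕ} (hD : D X n)
    (hg : (g, h) ∈ X) (hg' : (g', h') ∈ X)
    (hp : Past X z1 y1 p q) (hf : Future X z1 g h y1 g' h' U V)
    (hn : (q ++ V).length ≤ n) : G X (p ++ U) (q ++ V) := by
  obtain ⟨x, p', a1, a2, a3⟩ := hp.ex
  obtain ⟨u4, v4, u3, v3, u2, b1, b2, b3, b4, b5, b6⟩ := hf.ex
  have c1 : G X (p ++ U) (x ++ (h' ++ v4)) := by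
    rw [b1]
    exact a1.append (G.cons hg' b2)
  have c2 : G X (p' ++ (g ++ u3)) ((x ++ y1) ++ (h ++ v3)) := a2.append (G.cons hg b3)
  have c3 : G X ((p' ++ z1) ++ u2) (q ++ V) := a3.append b4
  rw [List.append_assoc, b6] at c2
  rw [List.append_assoc, b5] at c3
  exact hD _ _ _ _ hn c1 c2 c3

/-- The past of a state puts `(p ++ e, q)` in the monoid for a short word `e`. -/
theorem Past.short (hX : Good X c m) {n : ℕ} (hD : D X n) {z1 y1 p q : List ℕ}
    (hp : Past X z1 y1 p q) (hn : q.length ≤ n) (hz : z1.length ≤ m) (hy : y1.length ≤ m) :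
    ∃ e, G X (p ++ e) q ∧ e.length ≤ m * m + m := by
  obtain ⟨x, p', a1, a2, a3⟩ := hp.ex
  have hl2 := a2.let2 hX
  obtain ⟨s1, hs1, _⟩ := ex2 hX (v := y1) (fun y hy' => hl2 y (by simp [hy']))
  have hl1 := a3.let1 hX
  obtain ⟨yz, hyz⟩ := ex1 (X := X) (u := z1) (fun y hy' => hl1 y (by simp [hy']))
  have b1 : G X ((p ++ s1) ++ z1) ((x ++ y1) ++ yz) := (a1.append hs1).append hyz
  have b2 : G X (p' ++ z1) ((x ++ y1) ++ yz) := a2.append hyz
  refine ⟨s1 ++ z1, ?_, ?_⟩
  · rw [← List.append_assoc]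
    exact hD _ _ _ _ hn b1 b2 a3
  · have h1 := (hs1.len hX).2
    have h2 : m * y1.length ≤ m * m := Nat.mul_le_mul_left _ hy
    rw [List.length_append]
    omega

/-- The window at `(p, q)`. -/
def Win (X : List (List ℕ × List ℕ)) (K : ℕ) (p q : List ℕ) : Set (List ℕ × List ℕ) :=
  {w | w.1.length ≤ K ∧ w.2.length ≤ K ∧
    ∃ p0 q0, p = p0 ++ w.1 ∧ q = q0 ++ w.2 ∧ G X p0 q0}

/-- The pumping step. -/
theorem pump (hX : Good X c m) {n : ℕ} (hD : D X n)
    {z1 g h y1 g' h' p1 q1 p2 q2 U V : List ℕ}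
    (hg : (g, h) ∈ X) (hg' : (g', h') ∈ X)
    (hp : Past X z1 y1 p1 q1) (hf : Future X z1 g h y1 g' h' U V)
    (hz : z1.length ≤ m) (hy : y1.length ≤ m)
    (hn : (q1 ++ V).length ≤ n)
    (hn' : q1.length + m * (m + (m * m + m)) ≤ n)
    (hwin : Win X (KK m) p1 q1 ⊆ Win X (KK m) p2 q2) :
    G X (p2 ++ U) (q2 ++ V) := by
  have h1 := glue hD hg hg' hp hf hn
  obtain ⟨e, he, hel⟩ := hp.short hX hD (by omega) hz hy
  obtain ⟨p0, s, q0, r, e1, e2, e3, e4, e5⟩ := h1.junction hX p1 U q1 V rfl rfl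
  have hmem : (s, r) ∈ Win X (KK m) p1 q1 := by
    rw [e1, e2] at he
    have hq0 : q0.length ≤ q1.length := by rw [e2, List.length_append]; omega
    rcases e5 with e5 | e5
    · have hse : s.length + e.length ≤ m + (m * m + m) := by omega
      have h3 : m * (s.length + e.length) ≤ m * (m + (m * m + m)) := Nat.mul_le_mul_left _ hse
      have h2 := lagA hX hD e3 he (by omega)
      have h4 : m * (m * (s.length + e.length)) ≤ m * (m * (m + (m * m + m))) :=
        Nat.mul_le_mul_left _ h3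
      refine ⟨?_, ?_, p0, q0, e1, e2, e3⟩
      · unfold KK; simp only; omega
      · unfold KK; simp only; omega
    · have h2 := lagB hX hD e3 he (by rw [← e2]; omega)
      have h4 : m * r.length ≤ m * m := Nat.mul_le_mul_left _ e5
      refine ⟨?_, ?_, p0, q0, e1, e2, e3⟩
      · unfold KK; simp only; omega
      · unfold KK; simp only; omega
  obtain ⟨_, _, p0', q0', f1, f2, f3⟩ := hwin hmem
  simp only at f1 f2
  rw [f1, f2, List.append_assoc, List.append_assoc]
  exact f3.append e4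

end Pool.Agent.R658.FP
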