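import Pool.Agent.R658.SIDef

set_option autoImplicit false

/-! Basic facts on special inverse monoids given by a presentation. -/

namespace Pool.Agent.R658

section words

variable {X : Type}

theorem wordInv_one : wordInv (1 : Wd X) = 1 := rfl

theorem wordInv_mul (u v : Wd X) : wordInv (u * v) = wordInv v * wordInv u := by
  unfold wordInv
  rw [FreeMonoid.toList_mul, List.reverse_append, List.map_append, FreeMonoid.ofList_append]

theorem wordInv_wordInv (u : Wd X) : wordInv (wordInv u) = u := by
  unfold wordInv
  rw [FreeMonoid.toList_ofList, ← List.map_reverse, List.reverse_reverse, List.map_map]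
  have : ((fun p : X × Bool => (p.1, !p.2)) ∘ fun p : X × Bool => (p.1, !p.2)) = id := by
    funext p; simp
  rw [this, List.map_id, FreeMonoid.ofList_toList]

end words

section

variable {X : Type} {R : Set (List (X × Bool))}

/-- the projection to the quotient -/
def qm (R : Set (List (X × Bool))) : Wd X →* SpInv R := (conGen (InvRel R)).mk'

/-- the class of the inverse word -/
def qi (R : Set (List (X × Bool))) (u : Wd X) : SpInv R := qm R (wordInv u)

theorem qm_eq_iff (u v : Wd X) : qm R u = qm R v ↔ (conGen (InvRel R)) u v := by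
  unfold qm
  exact (conGen (InvRel R)).eq

theorem qm_surjective : Function.Surjective (qm R) := Con.mk'_surjective

theorem qm_rel {u v : Wd X} (h : InvRel R u v) : qm R u = qm R v :=
  (qm_eq_iff u v).2 (ConGen.Rel.of _ _ h)

theorem q_reg (u : Wd X) : qm R u * qi R u * qm R u = qm R u := by
  have := qm_rel (R := R) (InvRel.regular u)
  rw [map_mul, map_mul] at this
  exact this

theorem qi_reg (u : Wd X) : qi R u * qm R u * qi R u = qi R u := by
  have := q_reg (R := R) (wordInv u)
  unfold qi at *
  rw [wordInv_wordInv] at this
  exact this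

/-- the projection `u u⁻¹` -/
def pr (R : Set (List (X × Bool))) (u : Wd X) : SpInv R := qm R u * qi R u

theorem qi_mul (u v : Wd X) : qi R (u * v) = qi R v * qi R u := by
  unfold qi; rw [wordInv_mul, map_mul]

theorem qi_wordInv (u : Wd X) : qi R (wordInv u) = qm R u := by
  unfold qi; rw [wordInv_wordInv]

theorem pr_comm (u v : Wd X) : pr R u * pr R v = pr R v * pr R u := by
  have := qm_rel (R := R) (InvRel.commute u v)
  simp only [map_mul] at this
  exact this

theorem pr_idem (u : Wd X) : pr R u * pr R u = pr R u := by
  unfold pr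
  rw [← mul_assoc, q_reg]

theorem pr_mul_q (u : Wd X) : pr R u * qm R u = qm R u := q_reg u

/-- the projection `u⁻¹ u` -/
theorem pr_wordInv (u : Wd X) : pr R (wordInv u) = qi R u * qm R u := by
  unfold pr
  rw [qi_wordInv]
  rfl

theorem q_mul_prInv (u : Wd X) : qm R u * pr R (wordInv u) = qm R u := by
  rw [pr_wordInv, ← mul_assoc, q_reg]

/-- moving projections to the left -/
theorem q_mul_pr (u v : Wd X) : qm R u * pr R v = pr R (u * v) * qm R u := by
  have h1 : pr R (u * v) * qm R u = qm R u * (pr R v * pr R (wordInv u)) := by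
    rw [pr_wordInv]
    unfold pr
    rw [map_mul, qi_mul]
    simp only [mul_assoc]
  rw [h1, pr_comm, ← mul_assoc, q_mul_prInv]

theorem pr_mul_pr (u v : Wd X) : ∃ w : Wd X, pr R u * pr R v = pr R w := by
  refine ⟨u * wordInv u * v, ?_⟩
  have h1 : pr R (u * wordInv u * v) = pr R u * pr R v * pr R u := by
    unfold pr
    rw [map_mul, map_mul, qi_mul, qi_mul, qi_wordInv]
    simp only [qi, mul_assoc]
  rw [h1, mul_assoc, pr_comm v u, ← mul_assoc, pr_idem]

/-- the inverse is well defined -/
theorem qi_congr {u v : Wd X} (h : qm R u = qm R v) : qi R u = qi R v := by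
  have e1 : ∀ a b : Wd X, qm R a = qm R b → qi R a = qi R b * qm R a * qi R a := by
    intro a b hab
    have h1 : qi R a = (qi R a * qm R a) * (qi R b * qm R b) * qi R a := by
      calc qi R a = qi R a * qm R a * qi R a := (qi_reg a).symm
        _ = qi R a * (qm R b * qi R b * qm R b) * qi R a := by rw [q_reg, ← hab]
        _ = _ := by rw [← hab]; simp only [mul_assoc]
    rw [← pr_wordInv, ← pr_wordInv, pr_comm, pr_wordInv, pr_wordInv] at h1
    calc qi R a = qi R b * qm R b * (qi R a * qm R a) * qi R a := h1
      _ = qi R b * qm R b * (qi R a * qm R a * qi R a) := by simp only [mul_assoc]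
      _ = qi R b * qm R b * qi R a := by rw [qi_reg]
      _ = _ := by rw [hab]
  have e2 : ∀ a b : Wd X, qm R a = qm R b → qi R b = qi R b * qm R a * qi R a := by
    intro a b hab
    have h1 : qi R b = qi R b * (qm R b * qi R b) * (qm R a * qi R a) := by
      calc qi R b = qi R b * qm R b * qi R b := (qi_reg b).symm
        _ = qi R b * (qm R a * qi R a * qm R a) * qi R b := by rw [q_reg, hab]
        _ = qi R b * (qm R a * qi R a) * (qm R b * qi R b) := by rw [hab]; simp only [mul_assoc]
        _ = qi R b * ((qm R a * qi R a) * (qm R b * qi R b)) := by simp only [mul_assoc]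
        _ = qi R b * ((qm R b * qi R b) * (qm R a * qi R a)) := by
            have := pr_comm (R := R) a b
            unfold pr at this
            rw [this]
        _ = _ := by simp only [mul_assoc]
    calc qi R b = qi R b * (qm R b * qi R b) * (qm R a * qi R a) := h1
      _ = (qi R b * qm R b * qi R b) * (qm R a * qi R a) := by simp only [mul_assoc]
      _ = qi R b * (qm R a * qi R a) := by rw [qi_reg]
      _ = _ := by simp only [mul_assoc]
  exact (e1 u v h).trans (e2 u v h).symm

theorem qi_one : qi R (1 : Wd X) = 1 := by
  unfold qi; rw [wordInv_one, map_one]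

theorem pr_one : pr R (1 : Wd X) = 1 := by
  unfold pr; rw [qi_one, map_one, one_mul]

/-- if `u v⁻¹ = 1` then `u = v` -/
theorem eq_of_quot {u v : Wd X}
    (h : qm R u * qi R v = 1) : qm R u = qm R v := by
  have h2 : qm R v * qi R u = 1 := by
    have e : qm R (u * wordInv v) = qm R 1 := by
      rw [map_mul, map_one]; exact h
    have := qi_congr e
    rw [qi_mul, qi_wordInv, qi_one] at this
    exact this
  have h3 : qm R v = qm R u * pr R (wordInv v) := by
    rw [pr_wordInv, ← mul_assoc, h, one_mul]
  have h4 : qm R u = qm R v * pr R (wordInv u) := by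
    rw [pr_wordInv, ← mul_assoc, h2, one_mul]
  have h5 : qm R u * pr R (wordInv v) = qm R u := by
    calc qm R u * pr R (wordInv v) = qm R v * pr R (wordInv u) * pr R (wordInv v) := by rw [← h4]
      _ = qm R v * (pr R (wordInv v) * pr R (wordInv u)) := by rw [mul_assoc, pr_comm]
      _ = qm R v * pr R (wordInv u) := by rw [← mul_assoc, q_mul_prInv]
      _ = qm R u := h4.symm
  rw [h3, h5]

end

end Pool.Agent.R658
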