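import Mathlib

set_option autoImplicit false

/-!
# Special inverse monoids: definitions

`(x, true)` stands for the letter `x` and `(x, false)` for the formal inverse of `x`.
-/

namespace Pool.Agent.R658

/-- Words over `X ∪ X⁻¹`: the letter `(x, true)` is `x`, the letter `(x, false)` is the formal
inverse of `x`. -/
abbrev Wd (X : Type) : Type := FreeMonoid (X × Bool)

/-- The formal inverse of a word: reverse it and invert each letter. -/
def wordInv {X : Type} (u : Wd X) : Wd X :=
  FreeMonoid.ofList ((FreeMonoid.toList u).reverse.map fun p => (p.1, !p.2))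

/-- The defining relations of the inverse monoid `Inv⟨X ∣ w = 1 (w ∈ R)⟩`: Wagner's relations of
the free inverse monoid and `w = 1` for `w ∈ R`. -/
inductive InvRel {X : Type} (R : Set (List (X × Bool))) : Wd X → Wd X → Prop
  | regular (u : Wd X) : InvRel R (u * wordInv u * u) u
  | commute (u v : Wd X) :
      InvRel R (u * wordInv u * (v * wordInv v)) (v * wordInv v * (u * wordInv u))
  | relator (w : List (X × Bool)) (h : w ∈ R) : InvRel R (FreeMonoid.ofList w) 1

/-- The special inverse monoid `Inv⟨X ∣ w = 1 (w ∈ R)⟩`: words over `X ∪ X⁻¹` modulo the congruence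
generated by Wagner's relations and the relations `w = 1`, `w ∈ R`. -/
abbrev SpInv {X : Type} (R : Set (List (X × Bool))) : Type := (conGen (InvRel R)).Quotient

/-- The element of `Inv⟨X ∣ w = 1 (w ∈ R)⟩` represented by a word. -/
def ofWord {X : Type} (R : Set (List (X × Bool))) (w : List (X × Bool)) : SpInv R :=
  (conGen (InvRel R)).mk' (FreeMonoid.ofList w)

/-- `E`-unitarity of an inverse monoid: if `e` is idempotent and `e ≤ s` in the natural partial
order (that is, `e = f s` for some idempotent `f`), then `s` is idempotent. -/
def EUnitary (S : Type) [Monoid S] : Prop :=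
  ∀ e s : S, e * e = e → (∃ f : S, f * f = f ∧ e = f * s) → s * s = s

/-- The minimum group congruence of an inverse monoid: `s σ t` iff `e s = e t` for some
idempotent `e`. -/
def SigmaRel {S : Type} [Monoid S] (s t : S) : Prop := ∃ e : S, e * e = e ∧ e * s = e * t

/-- The right units: the elements `s` with `s x = 1` for some `x`. In an inverse monoid they are the
elements with `s s⁻¹ = 1`, that is, the `R`-class of `1`. -/
def RightUnit {S : Type} [Monoid S] (s : S) : Prop := ∃ x : S, s * x = 1

/-- Right reversibility of the prefix monoid `P ⊆ S/σ`, the image of the right units of `S`: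
`aP ∩ bP ≠ ∅` for all `a, b ∈ P`. Written out in `S`: for all right units `s, s'` there are right
units `x, y` such that `s x` and `s' y` have the same image in `S/σ`. -/
def PrefixMonoidRightReversible (S : Type) [Monoid S] : Prop :=
  ∀ s s' : S, RightUnit s → RightUnit s' →
    ∃ x y : S, RightUnit x ∧ RightUnit y ∧ SigmaRel (s * x) (s' * y)

end Pool.Agent.R658
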