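import Pool.Agent.R658.SILoc

set_option autoImplicit false

/-! The inverse monoid is E-unitary and its minimum group congruence is equality in the group. -/

namespace Pool.Agent.R658

open Gn

variable {m : ℕ} {J : Type} {X : Type} (e : Gn m J ≃ X) (r : J → List (Fin m × Bool))

/-- the value of a letter in the group -/
def le (p : X × Bool) : GG m := if p.2 then kap r (e.symm p.1) else (kap r (e.symm p.1))⁻¹

/-- the value of a word in the group -/
def ev : Wd X →* GG m := FreeMonoid.lift (le e r)

theorem ev_ofList (l : List (X × Bool)) : ev e r (FreeMonoid.ofList l) = (l.map (le e r)).prod := by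
  unfold ev
  rw [FreeMonoid.lift_apply, FreeMonoid.toList_ofList]

theorem ev_wordInv (u : Wd X) : ev e r (wordInv u) = (ev e r u)⁻¹ := by
  have h : ∀ l : List (X × Bool), ev e r (wordInv (FreeMonoid.ofList l)) =
      (ev e r (FreeMonoid.ofList l))⁻¹ := by
    intro l
    unfold wordInv
    rw [FreeMonoid.toList_ofList, ev_ofList, ev_ofList, List.prod_inv_reverse, ← List.map_reverse,
      ← List.map_reverse, List.map_map, List.map_map]
    congr 1
    apply List.map_congr_left
    intro p _
    unfold le
    rcases p with ⟨x, b⟩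
    cases b <;> simp
  exact h (FreeMonoid.toList u)

theorem ev_pos (l : List (Gn m J)) : ev e r (pos e l) = kv r l := by
  unfold pos posL kv
  rw [ev_ofList, List.map_map]
  congr 1
  apply List.map_congr_left
  intro y _
  unfold le
  simp

theorem kv_replicate (n : ℕ) : kv r (List.replicate n (t : Gn m J)) =
    (1, Multiplicative.ofAdd (n : ℤ)) := by
  induction n with
  | zero => rfl
  | succ n ih =>
    rw [List.replicate_succ, kv_cons, ih]
    change (((1, 1), Multiplicative.ofAdd 1) * (1, Multiplicative.ofAdd (n : ℤ)) : GG m) = _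
    rw [Prod.mk_mul_mk, ← ofAdd_add]
    have h1 : ((1, 1) : FreeGroup (Fin m) × FreeGroup (Fin m)) * 1 = 1 := by rw [mul_one]; rfl
    rw [h1]
    congr 2
    push_cast
    ring

theorem snd_kv_nonneg (l : List (Gn m J)) : 0 ≤ Multiplicative.toAdd (kv r l).2 := by
  induction l with
  | nil => exact le_refl _
  | cons y l ih =>
    rw [kv_cons, Prod.snd_mul, toAdd_mul]
    have : 0 ≤ Multiplicative.toAdd (kap r y).2 := by
      cases y <;> simp [kap]
    omega

theorem kv_bw (w : List (Fin m × Bool)) : kv r (bw w : List (Gn m J)) =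
    ((1, FreeGroup.mk w), Multiplicative.ofAdd (w.length : ℤ)) := by
  induction w with
  | nil => rw [← FreeGroup.one_eq_mk]; rfl
  | cons p w ih =>
    have h2 : (bw (p :: w) : List (Gn m J)) = b p.1 p.2 :: bw w := rfl
    rw [h2, kv_cons, ih]
    change (((1, fl (p.1, p.2)), Multiplicative.ofAdd 1) *
      ((1, FreeGroup.mk w), Multiplicative.ofAdd (w.length : ℤ)) : GG m) = _
    rw [Prod.mk_mul_mk, Prod.mk_mul_mk, ← ofAdd_add, mul_one]
    unfold fl
    rw [FreeGroup.mul_mk, List.length_cons]
    congr 2
    push_cast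
    ring

theorem kap_rel {u v : List (Gn m J)} (h : PosRel r u v) : kv r u = kv r v := by
  cases h with
  | tc y =>
    rw [kv_cons, kv_cons, kv_cons, kv_cons, kv_nil, mul_one, mul_one]
    change (((1, 1), Multiplicative.ofAdd 1) * kap r y : GG m) =
      kap r y * ((1, 1), Multiplicative.ofAdd 1)
    apply Prod.ext
    · change (1, 1) * (kap r y).1 = (kap r y).1 * (1, 1)
      have : ((1, 1) : FreeGroup (Fin m) × FreeGroup (Fin m)) = 1 := rfl
      rw [this, one_mul, mul_one]
    · exact mul_comm _ _
  | aa i ε =>
    simp only [kv_cons, kv_nil, mul_one, kap, Prod.mk_mul_mk, fl_not]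
  | bb i ε =>
    simp only [kv_cons, kv_nil, mul_one, kap, Prod.mk_mul_mk, fl_not]
  | ab i ε j η =>
    simp only [kv_cons, kv_nil, mul_one, kap, Prod.mk_mul_mk, one_mul]
  | dd i ε =>
    simp only [kv_cons, kv_nil, mul_one, kap, Prod.mk_mul_mk, one_mul]
  | rr j =>
    rw [kv_cons, kv_replicate, kv_bw]
    simp only [kap, Prod.mk_mul_mk, one_mul, mul_one]

theorem ev_relator {w : List (X × Bool)} (h : Rl e r w) : ev e r (FreeMonoid.ofList w) = 1 := by
  cases h with
  | unit y =>
    rw [ev_ofList]
    simp [le]
  | rel u v h =>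
    rw [FreeMonoid.ofList_append, map_mul, ← wordInv_pos, ev_wordInv]
    change ev e r (pos e u) * (ev e r (pos e v))⁻¹ = 1
    rw [ev_pos, ev_pos, kap_rel r h, mul_inv_cancel]

theorem ev_rel {u v : Wd X} (h : InvRel (RlS e r) u v) : ev e r u = ev e r v := by
  cases h with
  | regular u => rw [map_mul, map_mul, ev_wordInv, mul_inv_cancel, one_mul]
  | commute u v =>
    rw [map_mul, map_mul, map_mul, map_mul, map_mul, map_mul, ev_wordInv, ev_wordInv,
      mul_inv_cancel, mul_inv_cancel]
  | relator w h => rw [map_one]; exact ev_relator e r h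

/-- the map to the group -/
def evS : SpInv (RlS e r) →* GG m :=
  Con.lift _ (ev e r) (Con.conGen_le (c := Con.ker (ev e r)) |>.2 fun _ _ h => ev_rel e r h)

theorem evS_q (u : Wd X) : evS e r (qm _ u) = ev e r u := rfl

/-- the normal form: a projection times a fraction -/
theorem normal_form (w : Wd X) : ∃ (f : Wd X) (p : List (Gn m J)) (n : ℕ),
    qm (RlS e r) w = pr _ f * PP e r p * ci e r ^ n := by
  have key : ∀ l : List (X × Bool), ∃ (f : Wd X) (p : List (Gn m J)) (n : ℕ),
      qm (RlS e r) (FreeMonoid.ofList l) = pr _ f * PP e r p * ci e r ^ n := by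
    intro l
    induction l using List.reverseRecOn with
    | nil => exact ⟨1, [], 0, by rw [pr_one, PP_nil, pow_zero]; simp⟩
    | append_singleton l x ih =>
      obtain ⟨f, p, n, h⟩ := ih
      have hl : qm (RlS e r) (FreeMonoid.ofList (l ++ [x])) =
          pr _ f * PP e r p * ci e r ^ n * qm _ (FreeMonoid.ofList [x]) := by
        rw [FreeMonoid.ofList_append, map_mul, h]
      rw [hl]
      obtain ⟨x, b⟩ := x
      obtain ⟨y, rfl⟩ := e.surjective x
      cases b
      · -- an inverse letter
        obtain ⟨yc, k, hk⟩ := compl e r y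
        have e0 : qm (RlS e r) (FreeMonoid.ofList [(e y, false)]) = PI e r [y] := by
          unfold PI qi
          rw [wordInv_pos]
          rfl
        have e1 : PI e r [y] = PI e r [y] * PP e r [y] * PP e r yc * ci e r ^ k := by
          rw [mul_assoc, mul_assoc, ← mul_assoc (PP e r [y]), hk, ccn_cin, mul_one]
        have e2 : ci e r * PI e r [y] = PI e r [y] * ci e r := by
          have := PP_rel e r (PosRel.tc (r := r) y)
          have h2 := qi_congr this
          have e3 : ([t, y] : List (Gn m J)) = [t] ++ [y] := rfl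
          have e4 : ([y, t] : List (Gn m J)) = [y] ++ [t] := rfl
          rw [e3, e4] at h2
          change PI e r ([t] ++ [y]) = PI e r ([y] ++ [t]) at h2
          rw [PI_append, PI_append] at h2
          exact h2.symm
        have e5 : ci e r ^ n * PI e r [y] = PI e r [y] * ci e r ^ n := by
          have : Commute (ci e r) (PI e r [y]) := e2
          exact this.pow_left n
        have e6 : PI e r [y] * PP e r [y] = pr _ (wordInv (pos e [y])) := by
          rw [pr_wordInv]; rfl
        obtain ⟨g, hg⟩ := pr_mul_pr (R := RlS e r) f (pos e p * wordInv (pos e [y]))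
        refine ⟨g, p ++ yc, k + n, ?_⟩
        rw [e0]
        calc pr _ f * PP e r p * ci e r ^ n * PI e r [y]
            = pr _ f * PP e r p * (PI e r [y] * ci e r ^ n) := by rw [mul_assoc, e5]
          _ = pr _ f * (PP e r p * (PI e r [y] * PP e r [y])) * PP e r yc * ci e r ^ k *
                ci e r ^ n := by
              conv_lhs => rw [e1]
              simp only [mul_assoc]
          _ = pr _ f * (pr _ (pos e p * wordInv (pos e [y])) * PP e r p) * PP e r yc *
                ci e r ^ k * ci e r ^ n := by
              rw [e6]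
              unfold PP
              rw [q_mul_pr]
          _ = pr _ g * PP e r (p ++ yc) * ci e r ^ (k + n) := by
              rw [← hg, PP_append, pow_add]; simp only [mul_assoc]
      · -- a letter
        have e0 : qm (RlS e r) (FreeMonoid.ofList [(e y, true)]) = PP e r [y] := rfl
        have e1 : ci e r ^ n * PP e r [y] =
            ci e r ^ n * cc e r ^ n * (PP e r [y] * ci e r ^ n) := by
          have : cc e r ^ n * (PP e r [y] * ci e r ^ n) = PP e r [y] := by
            rw [← mul_assoc, ccn_comm, mul_assoc, ccn_cin, mul_one]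
          rw [mul_assoc, this]
        have e6 : ∃ v : Wd X, ci e r ^ n * cc e r ^ n = pr _ v := by
          refine ⟨wordInv (pos e (List.replicate n t)), ?_⟩
          rw [pr_wordInv]
          have a1 : qm (RlS e r) (pos e (List.replicate n t)) = cc e r ^ n := PP_replicate e r n
          have a2 : qi (RlS e r) (pos e (List.replicate n t)) = ci e r ^ n := by
            clear h hl e1 a1
            induction n with
            | zero =>
              rw [List.replicate_zero, pos_nil, qi_one, pow_zero]
            | succ n ih =>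
              have : List.replicate (n + 1) (t : Gn m J) = [t] ++ List.replicate n t := rfl
              rw [this, pos_append, qi_mul, ih, pow_succ]
              rfl
          rw [a1, a2]
        obtain ⟨v, hv⟩ := e6
        obtain ⟨g, hg⟩ := pr_mul_pr (R := RlS e r) f (pos e p * v)
        refine ⟨g, p ++ [y], n, ?_⟩
        rw [e0]
        calc pr _ f * PP e r p * ci e r ^ n * PP e r [y]
            = pr _ f * (PP e r p * (ci e r ^ n * cc e r ^ n)) * (PP e r [y] * ci e r ^ n) := by
              rw [mul_assoc, e1]; simp only [mul_assoc]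
          _ = pr _ f * (pr _ (pos e p * v) * PP e r p) * (PP e r [y] * ci e r ^ n) := by
              rw [hv]
              unfold PP
              rw [q_mul_pr]
          _ = pr _ g * PP e r (p ++ [y]) * ci e r ^ n := by
              rw [← hg, PP_append]; simp only [mul_assoc]
  exact key (FreeMonoid.toList w)

/-- a word with trivial value in the group is a projection -/
theorem proj_of_ev_one {w : Wd X} (h : ev e r w = 1) :
    ∃ f : Wd X, qm (RlS e r) w = pr _ f := by
  obtain ⟨f, p, n, hw⟩ := normal_form e r w
  refine ⟨f, ?_⟩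
  have h1 : evS e r (ci e r) = (1, Multiplicative.ofAdd (-1 : ℤ)) := by
    unfold ci PI qi
    rw [evS_q, ev_wordInv, ev_pos, kv_cons, kv_nil, mul_one]
    change ((((1, 1), Multiplicative.ofAdd 1) : GG m))⁻¹ = _
    rw [Prod.inv_mk, ← ofAdd_neg]
    rfl
  have h2 : evS e r (pr _ f) = 1 := by
    unfold pr qi
    rw [map_mul, evS_q, evS_q, ev_wordInv, mul_inv_cancel]
  have h3 := congrArg (evS e r) hw
  rw [evS_q, h, map_mul, map_mul, map_pow, h2, one_mul, h1] at h3
  have h4 : evS e r (PP e r p) = kv r p := by
    unfold PP; rw [evS_q, ev_pos]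
  rw [h4] at h3
  have h5 : kv r p = kv r (List.replicate n t) := by
    rw [kv_replicate, eq_comm]
    have h6 : kv r p = ((1, Multiplicative.ofAdd (-1 : ℤ)) ^ n)⁻¹ := eq_inv_of_mul_eq_one_left h3.symm
    rw [h6, Prod.pow_mk, Prod.inv_mk, one_pow, inv_one, ← ofAdd_nsmul, ← ofAdd_neg]
    congr 2
    simp
  have h6 := PP_inj e r h5
  rw [PP_replicate] at h6
  rw [hw, h6, mul_assoc, ccn_cin, mul_one]

theorem idem_of_ev_one {s : SpInv (RlS e r)} (h : evS e r s = 1) : s * s = s := by
  obtain ⟨w, rfl⟩ := qm_surjective (R := RlS e r) s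
  obtain ⟨f, hf⟩ := proj_of_ev_one e r (w := w) h
  rw [hf, pr_idem]

theorem ev_one_of_idem {s : SpInv (RlS e r)} (h : s * s = s) : evS e r s = 1 := by
  have := congrArg (evS e r) h
  rw [map_mul] at this
  exact mul_eq_left.1 this

theorem eunitary : EUnitary (SpInv (RlS e r)) := by
  rintro a s ha ⟨f, hf, hfs⟩
  apply idem_of_ev_one
  have h1 := ev_one_of_idem e r ha
  rw [hfs, map_mul, ev_one_of_idem e r hf, one_mul] at h1
  exact h1

theorem sigma_iff (s s' : SpInv (RlS e r)) : SigmaRel s s' ↔ evS e r s = evS e r s' := by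
  constructor
  · rintro ⟨f, hf, h⟩
    have := congrArg (evS e r) h
    rwa [map_mul, map_mul, ev_one_of_idem e r hf, one_mul, one_mul] at this
  · intro h
    obtain ⟨u, rfl⟩ := qm_surjective (R := RlS e r) s
    obtain ⟨v, rfl⟩ := qm_surjective (R := RlS e r) s'
    have h1 : ev e r (u * wordInv v) = 1 := by
      rw [map_mul, ev_wordInv]
      rw [evS_q, evS_q] at h
      rw [h, mul_inv_cancel]
    obtain ⟨f, hf⟩ := proj_of_ev_one e r h1
    -- `u v⁻¹ = pr f`
    have h2 : pr _ f * qm (RlS e r) v = qm (RlS e r) u * pr _ (wordInv v) := by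
      rw [← hf, map_mul, pr_wordInv]
      unfold qi
      rw [mul_assoc]
    rw [q_mul_pr] at h2
    -- `pr f * v = pr (u v⁻¹) * u`
    set g := u * wordInv v with hg
    refine ⟨pr _ g * pr _ f, ?_, ?_⟩
    · obtain ⟨w, hw⟩ := pr_mul_pr (R := RlS e r) g f
      rw [hw, pr_idem]
    · calc pr _ g * pr _ f * qm (RlS e r) u = pr _ f * (pr _ g * qm (RlS e r) u) := by
            rw [pr_comm, mul_assoc]
        _ = pr _ f * (pr _ f * qm (RlS e r) v) := by rw [h2]
        _ = pr _ f * qm (RlS e r) v := by rw [← mul_assoc, pr_idem]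
        _ = pr _ g * (pr _ g * qm (RlS e r) u) := by rw [h2, ← mul_assoc, pr_idem]
        _ = pr _ g * pr _ f * qm (RlS e r) v := by rw [← h2, mul_assoc]

end Pool.Agent.R658
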