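import Pool.Agent.R658.SIFin

set_option autoImplicit false
set_option maxHeartbeats 400000

/-! The example from the Novikov-Boone theorem. -/

namespace Pool.Agent.R658

open Gn

/-- the relators and their inverses as a family of words -/
theorem exists_family {m : ℕ} (R : Finset (FreeGroup (Fin m))) :
    ∃ (J : Type) (_ : Finite J) (r : J → List (Fin m × Bool)),
    (∀ j, FreeGroup.mk (r j) ∈ Subgroup.normalClosure (R : Set (FreeGroup (Fin m)))) ∧
    (∀ s ∈ (R : Set (FreeGroup (Fin m))), ∃ j, FreeGroup.mk (r j) = s) ∧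
    (∀ s ∈ (R : Set (FreeGroup (Fin m))), ∃ j, FreeGroup.mk (r j) = s⁻¹) := by
  have hw : ∀ s : FreeGroup (Fin m), ∃ w : List (Fin m × Bool), FreeGroup.mk w = s :=
    fun s => Quot.exists_rep s
  choose f hf using hw
  refine ⟨{x // x ∈ R} × Bool, inferInstance,
    fun p => if p.2 then f p.1.1 else FreeGroup.invRev (f p.1.1), ?_, ?_, ?_⟩
  · rintro ⟨⟨s, hs⟩, b⟩
    have h : s ∈ Subgroup.normalClosure (R : Set (FreeGroup (Fin m))) :=
      Subgroup.subset_normalClosure hs
    cases b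
    · simp only [Bool.false_eq_true, if_false]
      rw [← FreeGroup.inv_mk, hf]
      exact Subgroup.inv_mem _ h
    · simp only [if_true]
      rw [hf]
      exact h
  · intro s hs
    exact ⟨(⟨s, hs⟩, true), by simp only [if_true]; exact hf s⟩
  · intro s hs
    refine ⟨(⟨s, hs⟩, false), ?_⟩
    simp only [Bool.false_eq_true, if_false]
    rw [← FreeGroup.inv_mk, hf]

/-- the data -/
theorem exists_data : ∃ (m : ℕ) (J : Type) (_ : Finite J) (r : J → List (Fin m × Bool))
    (R0 : Set (FreeGroup (Fin m))) (W : ℕ → List (Fin m × Bool)), Computable W ∧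
    (¬ ComputablePred fun n => FreeGroup.mk (W n) ∈ Subgroup.normalClosure R0) ∧
    (∀ j, FreeGroup.mk (r j) ∈ Subgroup.normalClosure R0) ∧
    (∀ s ∈ R0, ∃ j, FreeGroup.mk (r j) = s) ∧ (∀ s ∈ R0, ∃ j, FreeGroup.mk (r j) = s⁻¹) := by
  obtain ⟨m, R, W, hW, hu⟩ := Pool.Agent.Helper270.WP.word_problem
  obtain ⟨J, hJ, r, h0, h1, h2⟩ := exists_family R
  exact ⟨m, J, hJ, r, (R : Set (FreeGroup (Fin m))), W, hW, hu, h0, h1, h2⟩

end Pool.Agent.R658
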