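import Pool.Agent.R658.SIGood
import Pool.Agent.Helper270.WPB
import Pool.Agent.H715R3.MedvA

set_option autoImplicit false

/-! Computability: the word problem of the group is decidable, that of the inverse monoid is not. -/

namespace Pool.Agent.R658

open Gn

variable {m : ℕ} {J : Type}

instance [Finite J] : Finite (Gn m J) := by
  let f : Gn m J → Unit ⊕ (Fin m × Bool) ⊕ (Fin m × Bool) ⊕ (Fin m × Bool) ⊕ J := fun y =>
    match y with
    | t => Sum.inl ()
    | a i ε => Sum.inr (Sum.inl (i, ε))
    | b i ε => Sum.inr (Sum.inr (Sum.inl (i, ε)))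
    | d i ε => Sum.inr (Sum.inr (Sum.inr (Sum.inl (i, ε))))
    | rho j => Sum.inr (Sum.inr (Sum.inr (Sum.inr j)))
  refine Finite.of_injective f ?_
  intro x y h
  cases x <;> cases y <;> simp_all [f]

theorem posRel_finite [Finite J] (r : J → List (Fin m × Bool)) :
    {p : List (Gn m J) × List (Gn m J) | PosRel r p.1 p.2}.Finite := by
  have h : {p : List (Gn m J) × List (Gn m J) | PosRel r p.1 p.2} ⊆
      Set.range (fun y : Gn m J => (([t, y], [y, t]) : List (Gn m J) × List (Gn m J))) ∪
      (Set.range (fun x : Fin m × Bool =>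
        (([a x.1 x.2, a x.1 (!x.2)], [t, t]) : List (Gn m J) × List (Gn m J))) ∪
      (Set.range (fun x : Fin m × Bool =>
        (([b x.1 x.2, b x.1 (!x.2)], [t, t]) : List (Gn m J) × List (Gn m J))) ∪
      (Set.range (fun x : (Fin m × Bool) × (Fin m × Bool) =>
        (([a x.1.1 x.1.2, b x.2.1 x.2.2], [b x.2.1 x.2.2, a x.1.1 x.1.2]) :
          List (Gn m J) × List (Gn m J))) ∪
      (Set.range (fun x : Fin m × Bool =>
        (([d x.1 x.2, t, t], [a x.1 x.2, b x.1 x.2]) : List (Gn m J) × List (Gn m J))) ∪
      Set.range (fun j : J =>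
        ((rho j :: List.replicate (r j).length t, bw (r j)) :
          List (Gn m J) × List (Gn m J))))))) := by
    rintro ⟨u, v⟩ h
    change PosRel r u v at h
    cases h with
    | tc y => exact Or.inl ⟨y, rfl⟩
    | aa i ε => exact Or.inr (Or.inl ⟨(i, ε), rfl⟩)
    | bb i ε => exact Or.inr (Or.inr (Or.inl ⟨(i, ε), rfl⟩))
    | ab i ε j η => exact Or.inr (Or.inr (Or.inr (Or.inl ⟨((i, ε), (j, η)), rfl⟩)))
    | dd i ε => exact Or.inr (Or.inr (Or.inr (Or.inr (Or.inl ⟨(i, ε), rfl⟩))))
    | rr j => exact Or.inr (Or.inr (Or.inr (Or.inr (Or.inr ⟨j, rfl⟩))))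
  refine Set.Finite.subset ?_ h
  exact (Set.finite_range _).union ((Set.finite_range _).union ((Set.finite_range _).union
    ((Set.finite_range _).union ((Set.finite_range _).union (Set.finite_range _)))))

theorem rlS_finite [Finite J] {X : Type} (e : Gn m J ≃ X) (r : J → List (Fin m × Bool)) :
    (RlS e r).Finite := by
  have h : RlS e r ⊆ Set.range (fun y : Gn m J => [(e y, true), (e y, false)]) ∪
      (fun p : List (Gn m J) × List (Gn m J) => posL e p.1 ++ negL e p.2) ''
        {p | PosRel r p.1 p.2} := by
    intro w hw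
    change Rl e r w at hw
    cases hw with
    | unit y => exact Or.inl ⟨y, rfl⟩
    | rel u v h => exact Or.inr ⟨(u, v), h, rfl⟩
  exact ((Set.finite_range _).union ((posRel_finite r).image _)).subset h

/-! ### the word problem of the group -/

/-- first coordinate of a generator -/
def k1 : Gn m J → List (Fin m × Bool)
  | a i ε => [(i, ε)]
  | d i ε => [(i, ε)]
  | _ => []

/-- second coordinate of a generator -/
def k2 (r : J → List (Fin m × Bool)) : Gn m J → List (Fin m × Bool)
  | b i ε => [(i, ε)]
  | d i ε => [(i, ε)]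
  | rho j => r j
  | _ => []

/-- third coordinate of a generator -/
def k3 : Gn m J → List Unit
  | t => [()]
  | a _ _ => [()]
  | b _ _ => [()]
  | _ => []

theorem kap_eq (r : J → List (Fin m × Bool)) (y : Gn m J) : kap r y =
    ((FreeGroup.mk (k1 y), FreeGroup.mk (k2 r y)), Multiplicative.ofAdd ((k3 y).length : ℤ)) := by
  cases y <;> simp [kap, k1, k2, k3, fl, ← FreeGroup.one_eq_mk]

variable {n : ℕ} (e : Gn m J ≃ Fin n) (r : J → List (Fin m × Bool))

/-- first coordinate of a letter -/
def g1 (p : Fin n × Bool) : List (Fin m × Bool) :=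
  if p.2 then k1 (e.symm p.1) else FreeGroup.invRev (k1 (e.symm p.1))

/-- second coordinate of a letter -/
def g2 (p : Fin n × Bool) : List (Fin m × Bool) :=
  if p.2 then k2 r (e.symm p.1) else FreeGroup.invRev (k2 r (e.symm p.1))

/-- positive part of the third coordinate of a letter -/
def g3 (p : Fin n × Bool) : List Unit := if p.2 then k3 (e.symm p.1) else []

/-- negative part of the third coordinate of a letter -/
def g4 (p : Fin n × Bool) : List Unit := if p.2 then [] else k3 (e.symm p.1)

theorem le_eq (p : Fin n × Bool) : le e r p =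
    ((FreeGroup.mk (g1 e p), FreeGroup.mk (g2 e r p)),
      Multiplicative.ofAdd (((g3 e p).length : ℤ) - ((g4 e p).length : ℤ))) := by
  rcases p with ⟨x, b⟩
  unfold le
  rw [kap_eq]
  cases b
  · simp only [Bool.false_eq_true, if_false, g1, g2, g3, g4, List.length_nil, Nat.cast_zero,
      zero_sub, ofAdd_neg, Prod.inv_mk, FreeGroup.inv_mk]
  · simp only [if_true, g1, g2, g3, g4, List.length_nil, Nat.cast_zero, sub_zero]

theorem prod_eq (u : List (Fin n × Bool)) : (u.map (le e r)).prod =
    ((FreeGroup.mk (u.flatMap (g1 e)), FreeGroup.mk (u.flatMap (g2 e r))),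
      Multiplicative.ofAdd (((u.flatMap (g3 e)).length : ℤ) - ((u.flatMap (g4 e)).length : ℤ))) := by
  induction u with
  | nil => simp [← FreeGroup.one_eq_mk]; rfl
  | cons p u ih =>
    rw [List.map_cons, List.prod_cons, ih, le_eq, Prod.mk_mul_mk, Prod.mk_mul_mk, ← ofAdd_add,
      FreeGroup.mul_mk, FreeGroup.mul_mk, List.flatMap_cons, List.flatMap_cons, List.flatMap_cons,
      List.flatMap_cons, List.length_append, List.length_append]
    congr 2
    push_cast
    ring

theorem mk_eq_iff_reduce {k : ℕ} (u v : List (Fin k × Bool)) :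
    FreeGroup.mk u = FreeGroup.mk v ↔ FreeGroup.reduce u = FreeGroup.reduce v :=
  ⟨fun h => FreeGroup.reduce.sound h, fun h => FreeGroup.reduce.exact h⟩

theorem evEq_iff (u v : List (Fin n × Bool)) :
    (u.map (le e r)).prod = (v.map (le e r)).prod ↔
      (FreeGroup.reduce (u.flatMap (g1 e)) = FreeGroup.reduce (v.flatMap (g1 e)) ∧
        FreeGroup.reduce (u.flatMap (g2 e r)) = FreeGroup.reduce (v.flatMap (g2 e r))) ∧
      (u.flatMap (g3 e)).length + (v.flatMap (g4 e)).length =
        (v.flatMap (g3 e)).length + (u.flatMap (g4 e)).length := by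
  rw [prod_eq, prod_eq, Prod.mk.injEq, Prod.mk.injEq, mk_eq_iff_reduce, mk_eq_iff_reduce]
  apply and_congr Iff.rfl
  rw [EmbeddingLike.apply_eq_iff_eq]
  omega

theorem primrec_flat {α β : Type} [Primcodable α] [Finite α] [Primcodable β] (g : α → List β) :
    Primrec (fun u : List α => u.flatMap g) :=
  Primrec.list_flatMap Primrec.id ((Primrec.dom_finite g).comp Primrec.snd).to₂

theorem group_wp : ComputablePred (fun p : List (Fin n × Bool) × List (Fin n × Bool) =>
    (p.1.map (le e r)).prod = (p.2.map (le e r)).prod) := by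
  have h : PrimrecPred (fun p : List (Fin n × Bool) × List (Fin n × Bool) =>
      (FreeGroup.reduce (p.1.flatMap (g1 e)) = FreeGroup.reduce (p.2.flatMap (g1 e)) ∧
        FreeGroup.reduce (p.1.flatMap (g2 e r)) = FreeGroup.reduce (p.2.flatMap (g2 e r))) ∧
      (p.1.flatMap (g3 e)).length + (p.2.flatMap (g4 e)).length =
        (p.2.flatMap (g3 e)).length + (p.1.flatMap (g4 e)).length) := by
    have r1 := Pool.Agent.H715R3.Medv.reduce_primrec (r := m)
    refine PrimrecPred.and (PrimrecPred.and ?_ ?_) ?_
    · exact Primrec.eq.comp (r1.comp ((primrec_flat (g1 e)).comp Primrec.fst))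
        (r1.comp ((primrec_flat (g1 e)).comp Primrec.snd))
    · exact Primrec.eq.comp (r1.comp ((primrec_flat (g2 e r)).comp Primrec.fst))
        (r1.comp ((primrec_flat (g2 e r)).comp Primrec.snd))
    · exact Primrec.eq.comp
        (Primrec.nat_add.comp (Primrec.list_length.comp ((primrec_flat (g3 e)).comp Primrec.fst))
          (Primrec.list_length.comp ((primrec_flat (g4 e)).comp Primrec.snd)))
        (Primrec.nat_add.comp (Primrec.list_length.comp ((primrec_flat (g3 e)).comp Primrec.snd))
          (Primrec.list_length.comp ((primrec_flat (g4 e)).comp Primrec.fst)))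
  have h2 : ComputablePred (fun p : List (Fin n × Bool) × List (Fin n × Bool) =>
      (FreeGroup.reduce (p.1.flatMap (g1 e)) = FreeGroup.reduce (p.2.flatMap (g1 e)) ∧
        FreeGroup.reduce (p.1.flatMap (g2 e r)) = FreeGroup.reduce (p.2.flatMap (g2 e r))) ∧
      (p.1.flatMap (g3 e)).length + (p.2.flatMap (g4 e)).length =
        (p.2.flatMap (g3 e)).length + (p.1.flatMap (g4 e)).length) := by
    obtain ⟨hd, hp⟩ := h
    exact ⟨hd, hp.to_comp⟩
  exact h2.of_eq fun p => (evEq_iff e r p.1 p.2).symm

/-! ### the word problem of the inverse monoid -/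

/-- the word of the group element `(1, w; 0)` -/
def tw (w : List (Fin m × Bool)) : List (Fin n × Bool) :=
  posL e (bw w) ++ negL e (List.replicate w.length t)

theorem ev_tw (w : List (Fin m × Bool)) :
    ((tw e w).map (le e r)).prod = ((1, FreeGroup.mk w), 1) := by
  unfold tw
  rw [List.map_append, List.prod_append]
  have h1 : ((posL e (bw w)).map (le e r)).prod = kv r (bw w) := by
    rw [← ev_ofList]; exact ev_pos e r _
  have h2 : ((negL e (List.replicate w.length t)).map (le e r)).prod =
      (kv r (List.replicate w.length t))⁻¹ := by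
    rw [← ev_ofList, ← wordInv_pos, ev_wordInv, ev_pos]
  rw [h1, h2, kv_bw, kv_replicate, Prod.inv_mk, Prod.mk_mul_mk, inv_one, mul_one, mul_inv_cancel]

theorem main_iff {R0 : Set (FreeGroup (Fin m))}
    (h0 : ∀ j, FreeGroup.mk (r j) ∈ Subgroup.normalClosure R0)
    (h1 : ∀ s ∈ R0, ∃ j, FreeGroup.mk (r j) = s) (h2 : ∀ s ∈ R0, ∃ j, FreeGroup.mk (r j) = s⁻¹)
    (w : List (Fin m × Bool)) :
    ofWord (RlS e r) (tw e w ++ linv (tw e w)) = ofWord (RlS e r) [] ↔
      FreeGroup.mk w ∈ Subgroup.normalClosure R0 := by
  rw [← mem_PM_zero r h0 h1 h2]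
  have e1 : ofWord (RlS e r) (tw e w ++ linv (tw e w)) =
      qm (RlS e r) (FreeMonoid.ofList (tw e w)) * qi (RlS e r) (FreeMonoid.ofList (tw e w)) := by
    unfold qi
    rw [← map_mul]
    rfl
  have e2 : ofWord (RlS e r) [] = 1 := rfl
  rw [e1, e2]
  constructor
  · intro h
    have h3 : RightUnit (qm (RlS e r) (FreeMonoid.ofList (tw e w))) := ⟨_, h⟩
    have h4 := rightUnit_mem e r h3
    rw [evS_q, ev_ofList, ev_tw] at h4
    exact h4
  · intro h
    obtain ⟨l, hl⟩ := (mem_PM r).1 h
    have h3 : PP e r (bw w) = PP e r l * cc e r ^ w.length := by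
      have : kv r (bw w) = kv r (l ++ List.replicate w.length t) := by
        rw [kv_append, hl, kv_bw, kv_replicate, Prod.mk_mul_mk, mul_one, one_mul]
      rw [PP_inj e r this, PP_append, PP_replicate]
    have h4 : ∀ k : ℕ, qi (RlS e r) (pos e (List.replicate k t)) = ci e r ^ k := by
      intro k
      induction k with
      | zero => rw [List.replicate_zero, pos_nil, qi_one, pow_zero]
      | succ k ih =>
        have : List.replicate (k + 1) (t : Gn m J) = [t] ++ List.replicate k t := rfl
        rw [this, pos_append, qi_mul, ih, pow_succ]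
        rfl
    have h5 : qm (RlS e r) (FreeMonoid.ofList (tw e w)) = PP e r l := by
      unfold tw
      rw [FreeMonoid.ofList_append, map_mul, ← wordInv_pos]
      change PP e r (bw w) * qi (RlS e r) (pos e (List.replicate w.length t)) = _
      rw [h3, h4, mul_assoc, ccn_cin, mul_one]
    have h6 : qi (RlS e r) (FreeMonoid.ofList (tw e w)) = PI e r l := qi_congr h5
    rw [h5, h6, PP_PI]

theorem tw_primrec : Primrec (fun w : List (Fin m × Bool) => tw e w) := by
  have h1 : Primrec (fun w : List (Fin m × Bool) => posL e (bw w)) := by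
    have : (fun w : List (Fin m × Bool) => posL e (bw w : List (Gn m J))) =
        fun w => w.map (fun p => ((e (b p.1 p.2), true) : Fin n × Bool)) := by
      funext w
      unfold posL bw
      rw [List.map_map]
      rfl
    rw [this]
    exact Primrec.list_map Primrec.id ((Primrec.dom_finite
      (fun p : Fin m × Bool => ((e (b p.1 p.2), true) : Fin n × Bool))).comp Primrec.snd).to₂
  have h2 : Primrec (fun w : List (Fin m × Bool) =>
      negL e (List.replicate w.length (t : Gn m J))) := by
    have : (fun w : List (Fin m × Bool) => negL e (List.replicate w.length (t : Gn m J))) =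
        fun w => w.map (fun _ => ((e t, false) : Fin n × Bool)) := by
      funext w
      unfold negL
      rw [List.map_replicate, List.reverse_replicate]
      induction w with
      | nil => rfl
      | cons p w ih => rw [List.length_cons, List.replicate_succ, ih, List.map_cons]
    rw [this]
    exact Primrec.list_map Primrec.id (Primrec.const _).to₂
  exact Primrec.list_append.comp h1 h2

theorem tw_computable : Computable (fun w : List (Fin m × Bool) =>
    ((tw e w ++ linv (tw e w), []) : List (Fin n × Bool) × List (Fin n × Bool))) := by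
  have h3 := tw_primrec e (J := J)
  have h4 : Primrec (fun l : List (Fin n × Bool) => linv l) :=
    Primrec.list_map (Primrec.list_reverse.comp Primrec.id)
      ((Primrec.dom_finite (fun p : Fin n × Bool => (p.1, !p.2))).comp Primrec.snd).to₂
  exact ((Primrec.list_append.comp h3 (h4.comp h3)).pair (Primrec.const [])).to_comp

end Pool.Agent.R658
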