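import Pool.Agent.R658.SIEU

set_option autoImplicit false

/-! Right units of the inverse monoid have values in the monoid of positive elements. -/

namespace Pool.Agent.R658

open Gn

variable {m : ℕ} {J : Type} {X : Type} (e : Gn m J ≃ X) (r : J → List (Fin m × Bool))

/-- the submonoid of positive elements -/
def PM : Submonoid (GG m) := Submonoid.closure (Set.range (kap r))

theorem kv_mem (l : List (Gn m J)) : kv r l ∈ PM r := by
  induction l with
  | nil => exact (PM r).one_mem
  | cons y l ih =>
    rw [kv_cons]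
    exact (PM r).mul_mem (Submonoid.subset_closure ⟨y, rfl⟩) ih

theorem mem_PM {x : GG m} : x ∈ PM r ↔ ∃ l : List (Gn m J), kv r l = x := by
  constructor
  · intro h
    induction h using Submonoid.closure_induction with
    | mem x hx =>
      obtain ⟨y, rfl⟩ := hx
      exact ⟨[y], by rw [kv_cons, kv_nil, mul_one]⟩
    | one => exact ⟨[], rfl⟩
    | mul x y _ _ hx hy =>
      obtain ⟨l, rfl⟩ := hx
      obtain ⟨l', rfl⟩ := hy
      exact ⟨l ++ l', kv_append r l l'⟩
  · rintro ⟨l, rfl⟩
    exact kv_mem r l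

/-- all the points of the path `l` starting at `g` are positive -/
def Good : GG m → List (X × Bool) → Prop
  | _, [] => True
  | g, x :: l => g * le e r x ∈ PM r ∧ Good (g * le e r x) l

theorem good_append (g : GG m) (l l' : List (X × Bool)) :
    Good e r g (l ++ l') ↔ Good e r g l ∧ Good e r (g * (l.map (le e r)).prod) l' := by
  induction l generalizing g with
  | nil => simp [Good]
  | cons x l ih =>
    rw [List.cons_append]
    simp only [Good]
    rw [ih, List.map_cons, List.prod_cons, ← mul_assoc, and_assoc]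

theorem good_end {g : GG m} (hg : g ∈ PM r) {l : List (X × Bool)} (h : Good e r g l) :
    g * (l.map (le e r)).prod ∈ PM r := by
  induction l generalizing g with
  | nil => simpa using hg
  | cons x l ih =>
    rw [List.map_cons, List.prod_cons, ← mul_assoc]
    exact ih h.1 h.2

/-- the formal inverse of a list -/
def linv (l : List (X × Bool)) : List (X × Bool) := l.reverse.map fun p => (p.1, !p.2)

theorem le_not (x : X × Bool) : le e r (x.1, !x.2) = (le e r x)⁻¹ := by
  rcases x with ⟨x, b⟩
  cases b <;> simp [le]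

theorem prod_linv (l : List (X × Bool)) :
    ((linv l).map (le e r)).prod = ((l.map (le e r)).prod)⁻¹ := by
  have := ev_wordInv e r (FreeMonoid.ofList l)
  rw [ev_ofList] at this
  rw [← this, ← ev_ofList]
  rfl

theorem good_inv {g : GG m} (hg : g ∈ PM r) {l : List (X × Bool)} (h : Good e r g l) :
    Good e r (g * (l.map (le e r)).prod) (linv l) := by
  induction l generalizing g with
  | nil => trivial
  | cons x l ih =>
    have h1 : linv (x :: l) = linv l ++ [(x.1, !x.2)] := by
      unfold linv; rw [List.reverse_cons, List.map_append]; rfl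
    rw [h1, good_append]
    refine ⟨?_, ?_⟩
    · rw [List.map_cons, List.prod_cons, ← mul_assoc]
      exact ih h.1 h.2
    · rw [prod_linv, List.map_cons, List.prod_cons]
      simp only [Good, and_true]
      rw [le_not]
      have : g * (le e r x * (l.map (le e r)).prod) * ((l.map (le e r)).prod)⁻¹ * (le e r x)⁻¹ =
          g := by group
      rw [this]
      exact hg

theorem good_pos {g : GG m} (hg : g ∈ PM r) (l : List (Gn m J)) : Good e r g (posL e l) := by
  induction l generalizing g with
  | nil => trivial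
  | cons y l ih =>
    have h1 : g * le e r (e y, true) ∈ PM r := by
      apply (PM r).mul_mem hg
      unfold le
      simp only [if_true, Equiv.symm_apply_apply]
      exact Submonoid.subset_closure ⟨y, rfl⟩
    exact ⟨h1, ih h1⟩

theorem good_self_inv {g : GG m} (hg : g ∈ PM r) (l : List (X × Bool)) :
    Good e r g (l ++ linv l) ↔ Good e r g l := by
  rw [good_append]
  exact ⟨fun h => h.1, fun h => ⟨h, good_inv e r hg h⟩⟩

/-- words acting in the same way on the positive elements -/
def actCon : Con (Wd X) where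
  r u v := ev e r u = ev e r v ∧
    ∀ g ∈ PM r, (Good e r g (FreeMonoid.toList u) ↔ Good e r g (FreeMonoid.toList v))
  iseqv := ⟨fun _ => ⟨rfl, fun _ _ => Iff.rfl⟩,
    fun {_ _} h => ⟨h.1.symm, fun g hg => (h.2 g hg).symm⟩,
    fun {_ _ _} h1 h2 => ⟨h1.1.trans h2.1, fun g hg => (h1.2 g hg).trans (h2.2 g hg)⟩⟩
  mul' := by
    rintro w x y z ⟨h1, h2⟩ ⟨h3, h4⟩
    refine ⟨by rw [map_mul, map_mul, h1, h3], fun g hg => ?_⟩
    rw [FreeMonoid.toList_mul, FreeMonoid.toList_mul, good_append, good_append]
    have e1 : ((FreeMonoid.toList w).map (le e r)).prod = ev e r w := (ev_ofList e r _).symm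
    have e2 : ((FreeMonoid.toList x).map (le e r)).prod = ev e r x := (ev_ofList e r _).symm
    rw [h2 g hg]
    constructor
    · rintro ⟨h5, h6⟩
      have h7 := good_end e r hg h5
      rw [e1, h1] at h6
      rw [e2] at h7
      exact ⟨h5, by rw [e2]; exact (h4 _ h7).1 h6⟩
    · rintro ⟨h5, h6⟩
      have h7 := good_end e r hg h5
      rw [e2] at h6 h7
      exact ⟨h5, by rw [e1, h1]; exact (h4 _ h7).2 h6⟩

theorem act_rel {u' v' : Wd X} (h : InvRel (RlS e r) u' v') : actCon e r u' v' := by
  refine ⟨ev_rel e r h, fun g hg => ?_⟩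
  induction h with
  | regular u =>
    rw [FreeMonoid.toList_mul, FreeMonoid.toList_mul, good_append]
    change Good e r g (FreeMonoid.toList u ++ linv (FreeMonoid.toList u)) ∧ _ ↔ _
    rw [good_self_inv e r hg]
    constructor
    · exact fun h => h.1
    · intro h
      refine ⟨h, ?_⟩
      have : ((FreeMonoid.toList u ++ FreeMonoid.toList (wordInv u)).map (le e r)).prod = 1 := by
        rw [List.map_append, List.prod_append]
        change _ * ((linv (FreeMonoid.toList u)).map (le e r)).prod = 1
        rw [prod_linv, mul_inv_cancel]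
      rw [this, mul_one]
      exact h
  | commute u v =>
    have key : ∀ a b : Wd X, Good e r g (FreeMonoid.toList (a * wordInv a * (b * wordInv b))) ↔
        Good e r g (FreeMonoid.toList a) ∧ Good e r g (FreeMonoid.toList b) := by
      intro a b
      rw [FreeMonoid.toList_mul, FreeMonoid.toList_mul, FreeMonoid.toList_mul, good_append]
      change Good e r g (FreeMonoid.toList a ++ linv (FreeMonoid.toList a)) ∧
        Good e r _ (FreeMonoid.toList b ++ linv (FreeMonoid.toList b)) ↔ _
      have : ((FreeMonoid.toList a ++ FreeMonoid.toList (wordInv a)).map (le e r)).prod = 1 := by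
        rw [List.map_append, List.prod_append]
        change _ * ((linv (FreeMonoid.toList a)).map (le e r)).prod = 1
        rw [prod_linv, mul_inv_cancel]
      rw [this, mul_one, good_self_inv e r hg, good_self_inv e r hg]
    rw [key, key, and_comm]
  | relator w h =>
    rw [FreeMonoid.toList_ofList, FreeMonoid.toList_one]
    refine ⟨fun _ => trivial, fun _ => ?_⟩
    cases h with
    | unit y => exact (good_self_inv e r hg (posL e [y])).2 (good_pos e r hg _)
    | rel u v h =>
      rw [good_append]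
      refine ⟨good_pos e r hg u, ?_⟩
      have h1 : ((posL e u).map (le e r)).prod = ((posL e v).map (le e r)).prod := by
        rw [← ev_ofList, ← ev_ofList]
        change ev e r (pos e u) = ev e r (pos e v)
        rw [ev_pos, ev_pos, kap_rel r h]
      rw [h1]
      have h2 := good_inv e r hg (good_pos e r hg v)
      have h3 : linv (posL e v) = negL e v := by
        unfold linv posL negL
        rw [← List.map_reverse, ← List.map_reverse, List.map_map]
        rfl
      rw [h3] at h2
      exact h2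

theorem act_of_eq {u v : Wd X} (h : qm (RlS e r) u = qm (RlS e r) v) : actCon e r u v := by
  rw [qm_eq_iff] at h
  exact (Con.conGen_le.2 fun _ _ h => act_rel e r h) h

/-- right units have positive values -/
theorem rightUnit_mem {s : SpInv (RlS e r)} (h : RightUnit s) : evS e r s ∈ PM r := by
  obtain ⟨x, hx⟩ := h
  obtain ⟨u, rfl⟩ := qm_surjective (R := RlS e r) s
  obtain ⟨v, rfl⟩ := qm_surjective (R := RlS e r) x
  rw [← map_mul, ← map_one (qm (RlS e r))] at hx
  have h1 := (act_of_eq e r hx).2 1 (PM r).one_mem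
  rw [FreeMonoid.toList_mul, good_append, FreeMonoid.toList_one] at h1
  have h2 := (h1.2 trivial).1
  have h3 := good_end e r (PM r).one_mem h2
  rw [one_mul] at h3
  rw [evS_q, ← FreeMonoid.ofList_toList u, ev_ofList]
  exact h3

theorem rightUnit_PP (l : List (Gn m J)) : RightUnit (PP e r l) := ⟨PI e r l, PP_PI e r l⟩

theorem evS_PP (l : List (Gn m J)) : evS e r (PP e r l) = kv r l := by
  unfold PP; rw [evS_q, ev_pos]

/-- every element becomes positive after multiplication by a power of `t` -/
theorem exists_shift (g : GG m) : ∃ n : ℕ, g * kv r (List.replicate n (t : Gn m J)) ∈ PM r := by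
  obtain ⟨⟨x, y⟩, z⟩ := g
  have hx : ∃ l : List (Gn m J), ∃ k : ℤ, kv r l = ((x, 1), Multiplicative.ofAdd k) := by
    induction x using FreeGroup.induction_on with
    | C1 => exact ⟨[], 0, rfl⟩
    | of i => exact ⟨[a i true], 1, by rw [kv_cons, kv_nil, mul_one]; rfl⟩
    | inv_of i _ => exact ⟨[a i false], 1, by rw [kv_cons, kv_nil, mul_one]; rfl⟩
    | mul x x' hx hx' =>
      obtain ⟨l, k, h⟩ := hx
      obtain ⟨l', k', h'⟩ := hx'
      refine ⟨l ++ l', k + k', ?_⟩
      rw [kv_append, h, h', Prod.mk_mul_mk, Prod.mk_mul_mk, one_mul, ofAdd_add]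
  have hy : ∃ l : List (Gn m J), ∃ k : ℤ, kv r l = ((1, y), Multiplicative.ofAdd k) := by
    induction y using FreeGroup.induction_on with
    | C1 => exact ⟨[], 0, rfl⟩
    | of i => exact ⟨[b i true], 1, by rw [kv_cons, kv_nil, mul_one]; rfl⟩
    | inv_of i _ => exact ⟨[b i false], 1, by rw [kv_cons, kv_nil, mul_one]; rfl⟩
    | mul x x' hx hx' =>
      obtain ⟨l, k, h⟩ := hx
      obtain ⟨l', k', h'⟩ := hx'
      refine ⟨l ++ l', k + k', ?_⟩
      rw [kv_append, h, h', Prod.mk_mul_mk, Prod.mk_mul_mk, one_mul, ofAdd_add]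
  obtain ⟨l, k, h⟩ := hx
  obtain ⟨l', k', h'⟩ := hy
  set z' := Multiplicative.toAdd z with hz
  refine ⟨(k + k' - z').toNat + (z' - k - k').toNat, ?_⟩
  rw [mem_PM]
  refine ⟨l ++ l' ++ List.replicate (2 * (z' - k - k').toNat) t, ?_⟩
  rw [kv_append, kv_append, h, h', kv_replicate, kv_replicate]
  refine Prod.ext (Prod.ext ?_ ?_) ?_
  · simp
  · simp
  have hz2 : z = Multiplicative.ofAdd z' := rfl
  simp only [Prod.snd_mul]
  rw [hz2, ← ofAdd_add, ← ofAdd_add, ← ofAdd_add]
  congr 1
  clear h h' hz2 hz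
  clear_value z'
  push_cast
  omega

/-- right reversibility in the group -/
theorem PM_reversible (x y : GG m) : ∃ p ∈ PM r, ∃ q ∈ PM r, x * p = y * q := by
  obtain ⟨n, hn⟩ := exists_shift r (x⁻¹ * y)
  refine ⟨_, hn, kv r (List.replicate n (t : Gn m J)), kv_mem r _, ?_⟩
  group

/-- the group is the group of right quotients -/
theorem PM_quotient (g : GG m) : ∃ p ∈ PM r, ∃ q ∈ PM r, g = p * q⁻¹ := by
  obtain ⟨n, hn⟩ := exists_shift r g
  refine ⟨_, hn, kv r (List.replicate n (t : Gn m J)), kv_mem r _, ?_⟩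
  group

/-- right reversibility of the image of the right units -/
theorem reversible (s s' : SpInv (RlS e r)) :
    ∃ x y : SpInv (RlS e r), RightUnit x ∧ RightUnit y ∧ SigmaRel (s * x) (s' * y) := by
  obtain ⟨p, hp, q, hq, h⟩ := PM_reversible r (evS e r s) (evS e r s')
  obtain ⟨l, rfl⟩ := (mem_PM r).1 hp
  obtain ⟨l', rfl⟩ := (mem_PM r).1 hq
  refine ⟨PP e r l, PP e r l', rightUnit_PP e r l, rightUnit_PP e r l', ?_⟩
  rw [sigma_iff, map_mul, map_mul, evS_PP, evS_PP, h]

/-! ### level zero -/

variable {N : Subgroup (FreeGroup (Fin m))} [hN : N.Normal]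

theorem level_zero (hr : ∀ j, FreeGroup.mk (r j) ∈ N) {x : GG m} (h : x ∈ PM r) :
    0 ≤ Multiplicative.toAdd x.2 ∧
      (Multiplicative.toAdd x.2 = 0 → x.1.1⁻¹ * x.1.2 ∈ N) := by
  induction h using Submonoid.closure_induction with
  | mem x hx =>
    obtain ⟨y, rfl⟩ := hx
    cases y with
    | t => simp [kap]
    | a i ε => simp [kap]
    | b i ε => simp [kap]
    | d i ε => simp [kap, N.one_mem]
    | rho j => simpa [kap] using hr j
  | one => simp [N.one_mem]
  | mul x y _ _ hx hy =>
    rw [Prod.snd_mul, toAdd_mul]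
    refine ⟨by omega, fun h0 => ?_⟩
    have hx0 := hx.2 (by omega)
    have hy0 := hy.2 (by omega)
    rw [Prod.fst_mul, Prod.fst_mul, Prod.snd_mul]
    have : (x.1.1 * y.1.1)⁻¹ * (x.1.2 * y.1.2) =
        y.1.1⁻¹ * (x.1.1⁻¹ * x.1.2) * (y.1.1⁻¹)⁻¹ * (y.1.1⁻¹ * y.1.2) := by group
    rw [this]
    exact N.mul_mem (hN.conj_mem _ hx0 _) hy0

theorem diag_mem (g : FreeGroup (Fin m)) : (((g, g), 1) : GG m) ∈ PM r := by
  induction g using FreeGroup.induction_on with
  | C1 => exact (PM r).one_mem
  | of i => exact Submonoid.subset_closure ⟨d i true, rfl⟩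
  | inv_of i _ => exact Submonoid.subset_closure ⟨d i false, rfl⟩
  | mul x y hx hy =>
    have := (PM r).mul_mem hx hy
    rwa [Prod.mk_mul_mk, Prod.mk_mul_mk, one_mul] at this

/-- the subgroup of the words `w` with `(1, w; 0)` positive, together with its inverse -/
def Nsub : Subgroup (FreeGroup (Fin m)) where
  carrier := {w | (((1, w), 1) : GG m) ∈ PM r ∧ (((1, w⁻¹), 1) : GG m) ∈ PM r}
  one_mem' := ⟨(PM r).one_mem, by rw [inv_one]; exact (PM r).one_mem⟩
  mul_mem' := by
    rintro x y ⟨h1, h2⟩ ⟨h3, h4⟩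
    constructor
    · have := (PM r).mul_mem h1 h3
      rwa [Prod.mk_mul_mk, Prod.mk_mul_mk, one_mul, one_mul] at this
    · have := (PM r).mul_mem h4 h2
      rwa [Prod.mk_mul_mk, Prod.mk_mul_mk, one_mul, one_mul, ← mul_inv_rev] at this
  inv_mem' := by
    rintro x ⟨h1, h2⟩
    exact ⟨h2, by rw [inv_inv]; exact h1⟩

theorem Nsub_normal : (Nsub r).Normal where
  conj_mem := by
    have key : ∀ x g : FreeGroup (Fin m), (((1, x), 1) : GG m) ∈ PM r →
        (((1, g * x * g⁻¹), 1) : GG m) ∈ PM r := by
      intro x g h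
      have := (PM r).mul_mem ((PM r).mul_mem (diag_mem r g) h) (diag_mem r g⁻¹)
      rwa [Prod.mk_mul_mk, Prod.mk_mul_mk, Prod.mk_mul_mk, Prod.mk_mul_mk, mul_one, mul_one,
        mul_inv_cancel] at this
    rintro x ⟨h1, h2⟩ g
    refine ⟨key x g h1, ?_⟩
    have : (g * x * g⁻¹)⁻¹ = g * x⁻¹ * g⁻¹ := by group
    rw [this]
    exact key x⁻¹ g h2

theorem mem_of_mem_normalClosure {R0 : Set (FreeGroup (Fin m))}
    (h1 : ∀ s ∈ R0, ∃ j, FreeGroup.mk (r j) = s) (h2 : ∀ s ∈ R0, ∃ j, FreeGroup.mk (r j) = s⁻¹)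
    {w : FreeGroup (Fin m)} (h : w ∈ Subgroup.normalClosure R0) :
    (((1, w), 1) : GG m) ∈ PM r := by
  have := Nsub_normal r
  have : Subgroup.normalClosure R0 ≤ Nsub r := by
    apply Subgroup.normalClosure_le_normal
    intro s hs
    obtain ⟨j, hj⟩ := h1 s hs
    obtain ⟨k, hk⟩ := h2 s hs
    constructor
    · rw [← hj]; exact Submonoid.subset_closure ⟨rho j, rfl⟩
    · rw [← hk]; exact Submonoid.subset_closure ⟨rho k, rfl⟩
  exact (this h).1

/-- membership at level zero -/
theorem mem_PM_zero {R0 : Set (FreeGroup (Fin m))}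
    (h0 : ∀ j, FreeGroup.mk (r j) ∈ Subgroup.normalClosure R0)
    (h1 : ∀ s ∈ R0, ∃ j, FreeGroup.mk (r j) = s) (h2 : ∀ s ∈ R0, ∃ j, FreeGroup.mk (r j) = s⁻¹)
    (w : FreeGroup (Fin m)) :
    (((1, w), 1) : GG m) ∈ PM r ↔ w ∈ Subgroup.normalClosure R0 := by
  constructor
  · intro h
    have := (level_zero r (N := Subgroup.normalClosure R0) h0 h).2 rfl
    simpa using this
  · exact mem_of_mem_normalClosure r h1 h2

end Pool.Agent.R658
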