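import Pool.Agent.R658.SIPres

set_option autoImplicit false

/-! Positive words with the same value in the group are equal in the inverse monoid. -/

namespace Pool.Agent.R658

open Gn

variable {m : ℕ} {J : Type} {X : Type} (e : Gn m J ≃ X) (r : J → List (Fin m × Bool))

/-- fractions `p / t ^ n` -/
abbrev Fr (m : ℕ) (J : Type) : Type := FreeMonoid (Gn m J) × Multiplicative ℕ

/-- the numerator -/
def nm (x : Fr m J) : SpInv (RlS e r) := PP e r (FreeMonoid.toList x.1)

/-- the exponent of the denominator -/
def dn (x : Fr m J) : ℕ := Multiplicative.toAdd x.2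

theorem nm_mul (x y : Fr m J) : nm e r (x * y) = nm e r x * nm e r y := by
  unfold nm
  rw [Prod.fst_mul, FreeMonoid.toList_mul, PP_append]

theorem dn_mul (x y : Fr m J) : dn (x * y) = dn x + dn y := rfl

/-- equality of fractions -/
def frCon : Con (Fr m J) where
  r x y := nm e r x * cc e r ^ dn y = nm e r y * cc e r ^ dn x
  iseqv := by
    refine ⟨fun x => rfl, fun {x y} h => h.symm, ?_⟩
    intro x y z h1 h2
    apply cancel_cc e r (n := dn y)
    calc nm e r x * cc e r ^ dn z * cc e r ^ dn y
        = nm e r x * cc e r ^ dn y * cc e r ^ dn z := by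
          rw [mul_assoc, mul_assoc, ← pow_add, ← pow_add, add_comm]
      _ = nm e r y * cc e r ^ dn z * cc e r ^ dn x := by
          rw [h1, mul_assoc, mul_assoc, ← pow_add, ← pow_add, add_comm]
      _ = nm e r z * cc e r ^ dn x * cc e r ^ dn y := by
          rw [h2, mul_assoc, mul_assoc, ← pow_add, ← pow_add, add_comm]
  mul' := by
    intro w x y z h1 h2
    rw [nm_mul, nm_mul, dn_mul, dn_mul, pow_add, pow_add]
    have c1 : ∀ (u : Fr m J) (n : ℕ), cc e r ^ n * nm e r u = nm e r u * cc e r ^ n :=
      fun u n => ccn_comm e r n _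
    calc nm e r w * nm e r y * (cc e r ^ dn x * cc e r ^ dn z)
        = nm e r w * (nm e r y * cc e r ^ dn x) * cc e r ^ dn z := by simp only [mul_assoc]
      _ = nm e r w * cc e r ^ dn x * (nm e r y * cc e r ^ dn z) := by
          rw [← c1 y (dn x)]; simp only [mul_assoc]
      _ = nm e r x * cc e r ^ dn w * (nm e r z * cc e r ^ dn y) := by rw [h1, h2]
      _ = nm e r x * (nm e r z * cc e r ^ dn w) * cc e r ^ dn y := by
          rw [← c1 z (dn w)]; simp only [mul_assoc]
      _ = nm e r x * nm e r z * (cc e r ^ dn w * cc e r ^ dn y) := by simp only [mul_assoc]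

/-- the group of fractions as a monoid -/
abbrev LL : Type := (frCon e r).Quotient

/-- the class of a fraction -/
def cl (l : List (Gn m J)) (n : ℕ) : LL e r :=
  (frCon e r).mk' (FreeMonoid.ofList l, Multiplicative.ofAdd n)

theorem cl_eq_iff (l l' : List (Gn m J)) (n n' : ℕ) :
    cl e r l n = cl e r l' n' ↔ PP e r l * cc e r ^ n' = PP e r l' * cc e r ^ n := by
  unfold cl
  refine ((frCon e r).eq).trans ?_
  exact Iff.rfl

theorem cl_mul (l l' : List (Gn m J)) (n n' : ℕ) :
    cl e r l n * cl e r l' n' = cl e r (l ++ l') (n + n') := by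
  unfold cl
  rw [← map_mul, Prod.mk_mul_mk, ← FreeMonoid.ofList_append, ← ofAdd_add]

theorem cl_one : cl e r [] 0 = 1 := by
  unfold cl
  exact map_one _

/-- the unit of a letter `t` -/
def uT : (LL e r)ˣ where
  val := cl e r [t] 0
  inv := cl e r [] 1
  val_inv := by
    rw [cl_mul, ← cl_one, cl_eq_iff]
    simp only [List.append_nil, pow_zero, mul_one, PP_nil, one_mul, zero_add, pow_one]
    rfl
  inv_val := by
    rw [cl_mul, ← cl_one, cl_eq_iff]
    simp only [List.nil_append, pow_zero, mul_one, PP_nil, one_mul, add_zero, pow_one]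
    rfl

theorem aux_unit (y y' : Gn m J) (h : PP e r [y] * PP e r [y'] = cc e r ^ 2) :
    cl e r [y] 1 * cl e r [y'] 1 = 1 := by
  rw [cl_mul, ← cl_one, cl_eq_iff]
  have : [y] ++ [y'] = y :: [y'] := rfl
  rw [this, PP_cons, h, PP_nil, pow_zero, mul_one, one_mul]

/-- the unit of a letter `a i` divided by `t` -/
def uA (i : Fin m) : (LL e r)ˣ where
  val := cl e r [a i true] 1
  inv := cl e r [a i false] 1
  val_inv := aux_unit e r _ _ (aa_rel e r i true)
  inv_val := aux_unit e r _ _ (aa_rel e r i false)

/-- the unit of a letter `b i` divided by `t` -/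
def uB (i : Fin m) : (LL e r)ˣ where
  val := cl e r [b i true] 1
  inv := cl e r [b i false] 1
  val_inv := aux_unit e r _ _ (bb_rel e r i true)
  inv_val := aux_unit e r _ _ (bb_rel e r i false)

/-- the homomorphism of the first factor -/
def hA : FreeGroup (Fin m) →* (LL e r)ˣ := FreeGroup.lift (uA e r)

/-- the homomorphism of the second factor -/
def hB : FreeGroup (Fin m) →* (LL e r)ˣ := FreeGroup.lift (uB e r)

theorem commute_lift {α β G : Type} [Group G] (f : α → G) (g : β → G)
    (h : ∀ i j, Commute (f i) (g j)) (x : FreeGroup α) (y : FreeGroup β) :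
    Commute (FreeGroup.lift f x) (FreeGroup.lift g y) := by
  have h1 : ∀ i, Commute (f i) (FreeGroup.lift g y) := by
    intro i
    induction y using FreeGroup.induction_on with
    | C1 => rw [map_one]; exact Commute.one_right _
    | of j => rw [FreeGroup.lift_apply_of]; exact h i j
    | inv_of j _ => rw [map_inv, FreeGroup.lift_apply_of]; exact (h i j).inv_right
    | mul x y hx hy => rw [map_mul]; exact hx.mul_right hy
  induction x using FreeGroup.induction_on with
  | C1 => rw [map_one]; exact Commute.one_left _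
  | of j => rw [FreeGroup.lift_apply_of]; exact h1 j
  | inv_of j _ => rw [map_inv, FreeGroup.lift_apply_of]; exact (h1 j).inv_left
  | mul x y hx hy => rw [map_mul]; exact hx.mul_left hy

theorem comm_AB (x y : FreeGroup (Fin m)) : Commute (hA e r x) (hB e r y) := by
  apply commute_lift
  intro i j
  apply Units.ext
  change cl e r [a i true] 1 * cl e r [b j true] 1 = cl e r [b j true] 1 * cl e r [a i true] 1
  rw [cl_mul, cl_mul, cl_eq_iff]
  rw [PP_append, PP_append, ab_rel]

/-- `t` is central among the fractions -/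
theorem comm_T (x : (LL e r)ˣ) : Commute x (uT e r) := by
  apply Units.ext
  rw [Units.val_mul, Units.val_mul]
  obtain ⟨⟨w, n⟩, hw⟩ := (Con.mk'_surjective (c := frCon e r)) x.val
  rw [← hw]
  change cl e r (FreeMonoid.toList w) (Multiplicative.toAdd n) * cl e r [t] 0 =
    cl e r [t] 0 * cl e r (FreeMonoid.toList w) (Multiplicative.toAdd n)
  rw [cl_mul, cl_mul, cl_eq_iff, zero_add, add_zero, PP_append, PP_append]
  congr 1
  exact (cc_comm e r _).symm

/-- the homomorphism from the group to the fractions -/
def hG : GG m →* (LL e r)ˣ :=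
  MonoidHom.noncommCoprod (MonoidHom.noncommCoprod (hA e r) (hB e r) (comm_AB e r))
    (zpowersHom (LL e r)ˣ (uT e r))
    (by
      intro x n
      rw [zpowersHom_apply]
      exact (comm_T e r _).zpow_right _)

theorem hG_apply (x y : FreeGroup (Fin m)) (n : Multiplicative ℤ) :
    hG e r ((x, y), n) = hA e r x * hB e r y * uT e r ^ (Multiplicative.toAdd n) := by
  unfold hG
  rw [MonoidHom.noncommCoprod_apply, MonoidHom.noncommCoprod_apply, zpowersHom_apply]

theorem hA_fl (i : Fin m) (ε : Bool) : (hA e r (fl (i, ε))).val = cl e r [a i ε] 1 := by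
  cases ε
  · have : fl (i, false) = (FreeGroup.of i)⁻¹ := rfl
    rw [this]
    unfold hA
    rw [map_inv, FreeGroup.lift_apply_of]
    rfl
  · have : fl (i, true) = FreeGroup.of i := rfl
    rw [this]
    unfold hA
    rw [FreeGroup.lift_apply_of]
    rfl

theorem hB_fl (i : Fin m) (ε : Bool) : (hB e r (fl (i, ε))).val = cl e r [b i ε] 1 := by
  cases ε
  · have : fl (i, false) = (FreeGroup.of i)⁻¹ := rfl
    rw [this]
    unfold hB
    rw [map_inv, FreeGroup.lift_apply_of]
    rfl
  · have : fl (i, true) = FreeGroup.of i := rfl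
    rw [this]
    unfold hB
    rw [FreeGroup.lift_apply_of]
    rfl

theorem hB_mk (w : List (Fin m × Bool)) :
    (hB e r (FreeGroup.mk w)).val = cl e r (bw w) w.length := by
  induction w with
  | nil =>
    rw [← FreeGroup.one_eq_mk, map_one]
    exact (cl_one e r).symm
  | cons p w ih =>
    have : FreeGroup.mk (p :: w) = fl p * FreeGroup.mk w := by
      unfold fl; rw [FreeGroup.mul_mk]; rfl
    rw [this, map_mul, Units.val_mul, ih, hB_fl, cl_mul]
    have h2 : (bw (p :: w) : List (Gn m J)) = [b p.1 p.2] ++ bw w := rfl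
    rw [h2, List.length_cons, add_comm]

theorem hG_kap (y : Gn m J) : (hG e r (kap r y)).val = cl e r [y] 0 := by
  cases y with
  | t =>
    unfold kap
    rw [hG_apply, map_one, map_one, one_mul, one_mul, toAdd_ofAdd, zpow_one]
    rfl
  | a i ε =>
    unfold kap
    rw [hG_apply, map_one, mul_one, toAdd_ofAdd, zpow_one, Units.val_mul, hA_fl]
    change cl e r [a i ε] 1 * cl e r [t] 0 = _
    rw [cl_mul, cl_eq_iff, PP_append, pow_zero, mul_one, add_zero, pow_one]
    rfl
  | b i ε =>
    unfold kap
    rw [hG_apply, map_one, one_mul, toAdd_ofAdd, zpow_one, Units.val_mul, hB_fl]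
    change cl e r [b i ε] 1 * cl e r [t] 0 = _
    rw [cl_mul, cl_eq_iff, PP_append, pow_zero, mul_one, add_zero, pow_one]
    rfl
  | d i ε =>
    unfold kap
    rw [hG_apply, toAdd_one, zpow_zero, mul_one, Units.val_mul, hA_fl, hB_fl, cl_mul, cl_eq_iff,
      PP_append, pow_zero, mul_one, dd_rel]
  | rho j =>
    unfold kap
    rw [hG_apply, map_one, one_mul, toAdd_one, zpow_zero, mul_one, hB_mk, cl_eq_iff, pow_zero,
      mul_one, rr_rel]

/-- the value of a positive word in the group -/
def kv (l : List (Gn m J)) : GG m := (l.map (kap r)).prod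

theorem kv_nil : kv r ([] : List (Gn m J)) = 1 := rfl

theorem kv_cons (y : Gn m J) (l : List (Gn m J)) : kv r (y :: l) = kap r y * kv r l := by
  unfold kv; rw [List.map_cons, List.prod_cons]

theorem kv_append (l l' : List (Gn m J)) : kv r (l ++ l') = kv r l * kv r l' := by
  unfold kv; rw [List.map_append, List.prod_append]

theorem hG_kv (l : List (Gn m J)) : (hG e r (kv r l)).val = cl e r l 0 := by
  induction l with
  | nil => rw [kv_nil, map_one]; exact (cl_one e r).symm
  | cons y l ih =>
    rw [kv_cons, map_mul, Units.val_mul, hG_kap, ih, cl_mul]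
    rfl

/-- positive words with the same value in the group are equal in the inverse monoid -/
theorem PP_inj {l l' : List (Gn m J)} (h : kv r l = kv r l') : PP e r l = PP e r l' := by
  have h1 := hG_kv e r l
  rw [h, hG_kv, cl_eq_iff, pow_zero, mul_one, mul_one] at h1
  exact h1.symm

end Pool.Agent.R658
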