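import Pool.Agent.R658.SIBasic

set_option autoImplicit false

/-!
# The special inverse monoid attached to finitely many words of a free group

`m` is the rank of a free group `F`, `r : J → List (Fin m × Bool)` a family of words. The letters
`t, a i ε, b i ε, d i ε, ρ j` stand for the elements `(1, 1; 1)`, `(xᵢ^ε, 1; 1)`, `(1, xᵢ^ε; 1)`,
`(xᵢ^ε, xᵢ^ε; 0)`, `(1, r j; 0)` of `(F × F) × ℤ`.
-/

namespace Pool.Agent.R658

/-- the generators -/
inductive Gn (m : ℕ) (J : Type) : Type
  | t : Gn m J
  | a (i : Fin m) (ε : Bool) : Gn m J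
  | b (i : Fin m) (ε : Bool) : Gn m J
  | d (i : Fin m) (ε : Bool) : Gn m J
  | rho (j : J) : Gn m J

open Gn

variable {m : ℕ} {J : Type}

/-- the group `(F × F) × ℤ` -/
abbrev GG (m : ℕ) : Type := (FreeGroup (Fin m) × FreeGroup (Fin m)) × Multiplicative ℤ

/-- a letter or its inverse in the free group -/
def fl (p : Fin m × Bool) : FreeGroup (Fin m) := FreeGroup.mk [p]

theorem fl_not (i : Fin m) (ε : Bool) : fl (i, ε) * fl (i, !ε) = 1 := by
  unfold fl
  rw [FreeGroup.mul_mk, FreeGroup.one_eq_mk]
  apply FreeGroup.Red.exact.2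
  exact ⟨[], Relation.ReflTransGen.single FreeGroup.Red.Step.cons_not,
    Relation.ReflTransGen.refl⟩

/-- the value of a generator in the group -/
def kap (r : J → List (Fin m × Bool)) : Gn m J → GG m
  | t => ((1, 1), Multiplicative.ofAdd 1)
  | a i ε => ((fl (i, ε), 1), Multiplicative.ofAdd 1)
  | b i ε => ((1, fl (i, ε)), Multiplicative.ofAdd 1)
  | d i ε => ((fl (i, ε), fl (i, ε)), 1)
  | rho j => ((1, FreeGroup.mk (r j)), 1)

/-- the letters `b` along a word -/
def bw (w : List (Fin m × Bool)) : List (Gn m J) := w.map fun p => b p.1 p.2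

/-- The positive relations. -/
inductive PosRel (r : J → List (Fin m × Bool)) : List (Gn m J) → List (Gn m J) → Prop
  | tc (y : Gn m J) : PosRel r [t, y] [y, t]
  | aa (i : Fin m) (ε : Bool) : PosRel r [a i ε, a i (!ε)] [t, t]
  | bb (i : Fin m) (ε : Bool) : PosRel r [b i ε, b i (!ε)] [t, t]
  | ab (i : Fin m) (ε : Bool) (j : Fin m) (η : Bool) : PosRel r [a i ε, b j η] [b j η, a i ε]
  | dd (i : Fin m) (ε : Bool) : PosRel r [d i ε, t, t] [a i ε, b i ε]
  | rr (j : J) : PosRel r (rho j :: List.replicate (r j).length t) (bw (r j))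

variable {X : Type} (e : Gn m J ≃ X) (r : J → List (Fin m × Bool))

/-- a positive word as a list of letters -/
def posL (l : List (Gn m J)) : List (X × Bool) := l.map fun y => (e y, true)

/-- the inverse of a positive word -/
def negL (l : List (Gn m J)) : List (X × Bool) := (l.map fun y => (e y, false)).reverse

/-- a positive word -/
def pos (l : List (Gn m J)) : Wd X := FreeMonoid.ofList (posL e l)

theorem pos_nil : pos e ([] : List (Gn m J)) = 1 := rfl

theorem pos_append (l l' : List (Gn m J)) : pos e (l ++ l') = pos e l * pos e l' := by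
  unfold pos posL
  rw [List.map_append, FreeMonoid.ofList_append]

theorem wordInv_pos (l : List (Gn m J)) : wordInv (pos e l) = FreeMonoid.ofList (negL e l) := by
  unfold wordInv pos posL negL
  rw [FreeMonoid.toList_ofList, ← List.map_reverse, ← List.map_reverse, List.map_map]
  rfl

/-- The relators. -/
inductive Rl : List (X × Bool) → Prop
  | unit (y : Gn m J) : Rl [(e y, true), (e y, false)]
  | rel (u v : List (Gn m J)) (h : PosRel r u v) : Rl (posL e u ++ negL e v)

/-- the set of relators -/
def RlS : Set (List (X × Bool)) := {w | Rl e r w}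

/-- the value of a positive word in the monoid -/
def PP (l : List (Gn m J)) : SpInv (RlS e r) := qm _ (pos e l)

/-- the value of the inverse of a positive word in the monoid -/
def PI (l : List (Gn m J)) : SpInv (RlS e r) := qi _ (pos e l)

theorem PP_nil : PP e r [] = 1 := by unfold PP; rw [pos_nil, map_one]

theorem PP_append (l l' : List (Gn m J)) : PP e r (l ++ l') = PP e r l * PP e r l' := by
  unfold PP; rw [pos_append, map_mul]

theorem PP_cons (y : Gn m J) (l : List (Gn m J)) : PP e r (y :: l) = PP e r [y] * PP e r l := by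
  rw [← PP_append]; rfl

theorem PI_nil : PI e r [] = 1 := by unfold PI; rw [pos_nil, qi_one]

theorem PI_append (l l' : List (Gn m J)) : PI e r (l ++ l') = PI e r l' * PI e r l := by
  unfold PI; rw [pos_append, qi_mul]

theorem unit_letter (y : Gn m J) : PP e r [y] * PI e r [y] = 1 := by
  have h := qm_rel (R := RlS e r) (InvRel.relator _ (Rl.unit (e := e) (r := r) y))
  unfold PP PI qi
  rw [← map_mul, wordInv_pos]
  exact h

theorem PP_PI (l : List (Gn m J)) : PP e r l * PI e r l = 1 := by
  induction l with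
  | nil => rw [PP_nil, PI_nil, one_mul]
  | cons y l ih =>
    have : y :: l = [y] ++ l := rfl
    rw [this, PP_append, PI_append]
    calc PP e r [y] * PP e r l * (PI e r l * PI e r [y])
        = PP e r [y] * (PP e r l * PI e r l) * PI e r [y] := by simp only [mul_assoc]
      _ = 1 := by rw [ih, mul_one, unit_letter]

theorem PP_rel {u v : List (Gn m J)} (h : PosRel r u v) : PP e r u = PP e r v := by
  apply eq_of_quot
  have h := qm_rel (R := RlS e r) (InvRel.relator _ (Rl.rel (e := e) u v h))
  unfold qi
  rw [← map_mul, wordInv_pos]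
  exact h

/-- the central element -/
def cc : SpInv (RlS e r) := PP e r [t]

/-- its inverse -/
def ci : SpInv (RlS e r) := PI e r [t]

theorem cc_ci : cc e r * ci e r = 1 := unit_letter e r t

theorem ccn_cin (n : ℕ) : cc e r ^ n * ci e r ^ n = 1 := by
  induction n with
  | zero => simp
  | succ n ih =>
    rw [pow_succ, pow_succ']
    calc cc e r ^ n * cc e r * (ci e r * ci e r ^ n)
        = cc e r ^ n * (cc e r * ci e r) * ci e r ^ n := by simp only [mul_assoc]
      _ = 1 := by rw [cc_ci, mul_one, ih]

theorem cc_comm_letter (y : Gn m J) : cc e r * PP e r [y] = PP e r [y] * cc e r := by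
  have := PP_rel e r (PosRel.tc (r := r) y)
  rw [PP_cons, PP_cons e r y] at this
  exact this

theorem cc_comm (l : List (Gn m J)) : cc e r * PP e r l = PP e r l * cc e r := by
  induction l with
  | nil => rw [PP_nil, one_mul, mul_one]
  | cons y l ih =>
    rw [PP_cons, ← mul_assoc, cc_comm_letter, mul_assoc, ih, mul_assoc]

theorem ccn_comm (n : ℕ) (l : List (Gn m J)) :
    cc e r ^ n * PP e r l = PP e r l * cc e r ^ n := by
  have h : Commute (cc e r) (PP e r l) := cc_comm e r l
  exact (h.pow_left n)

theorem cancel_cc {x y : SpInv (RlS e r)} {n : ℕ} (h : x * cc e r ^ n = y * cc e r ^ n) :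
    x = y := by
  have := congrArg (· * ci e r ^ n) h
  simpa only [mul_assoc, ccn_cin, mul_one] using this

theorem PP_replicate (n : ℕ) : PP e r (List.replicate n t) = cc e r ^ n := by
  induction n with
  | zero => rw [List.replicate_zero, PP_nil, pow_zero]
  | succ n ih => rw [List.replicate_succ, PP_cons, ih, pow_succ']; rfl

theorem two_t : PP e r [t, t] = cc e r ^ 2 := PP_replicate e r 2

theorem aa_rel (i : Fin m) (ε : Bool) : PP e r [a i ε] * PP e r [a i (!ε)] = cc e r ^ 2 := by
  have := PP_rel e r (PosRel.aa (r := r) i ε)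
  rw [PP_cons, two_t] at this
  exact this

theorem bb_rel (i : Fin m) (ε : Bool) : PP e r [b i ε] * PP e r [b i (!ε)] = cc e r ^ 2 := by
  have := PP_rel e r (PosRel.bb (r := r) i ε)
  rw [PP_cons, two_t] at this
  exact this

theorem ab_rel (i : Fin m) (ε : Bool) (j : Fin m) (η : Bool) :
    PP e r [a i ε] * PP e r [b j η] = PP e r [b j η] * PP e r [a i ε] := by
  have := PP_rel e r (PosRel.ab (r := r) i ε j η)
  rw [PP_cons, PP_cons e r (b j η)] at this
  exact this

theorem dd_rel (i : Fin m) (ε : Bool) :
    PP e r [d i ε] * cc e r ^ 2 = PP e r [a i ε] * PP e r [b i ε] := by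
  have := PP_rel e r (PosRel.dd (r := r) i ε)
  rw [PP_cons, two_t, PP_cons e r (a i ε)] at this
  exact this

theorem rr_rel (j : J) : PP e r [rho j] * cc e r ^ (r j).length = PP e r (bw (r j)) := by
  have := PP_rel e r (PosRel.rr (r := r) j)
  rw [PP_cons, PP_replicate] at this
  exact this

/-- the formal inverse of a word of the free group -/
def fiv (w : List (Fin m × Bool)) : List (Fin m × Bool) := (w.map fun p => (p.1, !p.2)).reverse

theorem bw_append (u v : List (Fin m × Bool)) :
    (bw (u ++ v) : List (Gn m J)) = bw u ++ bw v := by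
  unfold bw; rw [List.map_append]

theorem bw_fiv (w : List (Fin m × Bool)) :
    PP e r (bw w) * PP e r (bw (fiv w)) = cc e r ^ (2 * w.length) := by
  induction w with
  | nil =>
    change PP e r [] * PP e r [] = _
    rw [PP_nil]; simp
  | cons p w ih =>
    have h1 : fiv (p :: w) = fiv w ++ [(p.1, !p.2)] := by
      unfold fiv; rw [List.map_cons, List.reverse_cons]
    have h2 : (bw (p :: w) : List (Gn m J)) = b p.1 p.2 :: bw w := rfl
    have h3 : (bw [(p.1, !p.2)] : List (Gn m J)) = [b p.1 (!p.2)] := rfl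
    rw [h1, h2, bw_append, h3, PP_append, PP_cons]
    calc PP e r [b p.1 p.2] * PP e r (bw w) * (PP e r (bw (fiv w)) * PP e r [b p.1 (!p.2)])
        = PP e r [b p.1 p.2] * (PP e r (bw w) * PP e r (bw (fiv w))) *
            PP e r [b p.1 (!p.2)] := by simp only [mul_assoc]
      _ = cc e r ^ (2 * w.length) * (PP e r [b p.1 p.2] * PP e r [b p.1 (!p.2)]) := by
          rw [ih, ← ccn_comm]; simp only [mul_assoc]
      _ = _ := by
          rw [bb_rel, ← pow_add]
          congr 1

/-- complements -/
theorem compl (y : Gn m J) : ∃ (l : List (Gn m J)) (k : ℕ),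
    PP e r [y] * PP e r l = cc e r ^ k := by
  cases y with
  | t => exact ⟨[], 1, by rw [PP_nil, mul_one, pow_one]; rfl⟩
  | a i ε => exact ⟨[a i (!ε)], 2, aa_rel e r i ε⟩
  | b i ε => exact ⟨[b i (!ε)], 2, bb_rel e r i ε⟩
  | d i ε =>
    refine ⟨[d i (!ε)], 0, ?_⟩
    apply cancel_cc e r (n := 4)
    have h1 : cc e r ^ 4 = cc e r ^ 2 * cc e r ^ 2 := by rw [← pow_add]
    calc PP e r [d i ε] * PP e r [d i (!ε)] * cc e r ^ 4
        = PP e r [d i ε] * (PP e r [d i (!ε)] * cc e r ^ 2) * cc e r ^ 2 := by
          rw [h1]; simp only [mul_assoc]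
      _ = PP e r [d i ε] * cc e r ^ 2 * (PP e r [d i (!ε)] * cc e r ^ 2) := by
          rw [mul_assoc (PP e r [d i ε]) (cc e r ^ 2), ← mul_assoc (cc e r ^ 2),
            ccn_comm e r 2 [d i (!ε)]]
          simp only [mul_assoc]
      _ = PP e r [a i ε] * PP e r [b i ε] * (PP e r [a i (!ε)] * PP e r [b i (!ε)]) := by
          rw [dd_rel, dd_rel]
      _ = PP e r [a i ε] * (PP e r [b i ε] * PP e r [a i (!ε)]) * PP e r [b i (!ε)] := by
          simp only [mul_assoc]
      _ = (PP e r [a i ε] * PP e r [a i (!ε)]) * (PP e r [b i ε] * PP e r [b i (!ε)]) := by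
          rw [← ab_rel]; simp only [mul_assoc]
      _ = cc e r ^ 0 * cc e r ^ 4 := by
          rw [aa_rel, bb_rel, pow_zero, one_mul, h1]
  | rho j =>
    refine ⟨bw (fiv (r j)), (r j).length, ?_⟩
    apply cancel_cc e r (n := (r j).length)
    rw [mul_assoc, ← ccn_comm, ← mul_assoc, rr_rel, bw_fiv, ← pow_add]
    congr 1
    ring

end Pool.Agent.R658
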