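import Mathlib

set_option autoImplicit false

/-!
Unimodular equations over finite solvable groups of derived length `d` that have no solution in
solvable groups of derived length `d`.
-/

namespace Pool.Agent.R658.UE

universe u

section core

variable {H : Type u} [Group H]

theorem comm_mem {n : ℕ} {a b : H} (ha : a ∈ derivedSeries H n) (hb : b ∈ derivedSeries H n) :
    a * b * a⁻¹ * b⁻¹ ∈ derivedSeries H (n + 1) := by
  rw [derivedSeries_succ]
  exact Subgroup.commutator_mem_commutator ha hb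

/-- Depth of `c`. -/
theorem c_deep {n : ℕ} {s c : H} (hs : s ∈ derivedSeries H n) (hc : c ^ 7 = 1)
    (hsc : s * c * s⁻¹ = c ^ 3) : ∀ j ≤ n + 1, c ∈ derivedSeries H j := by
  intro j
  induction j with
  | zero => intro _; simp [derivedSeries_zero]
  | succ j ih =>
    intro hj
    have h1 := ih (by omega)
    have h2 : s ∈ derivedSeries H j := derivedSeries_antitone H (by omega : j ≤ n) hs
    have h3 := comm_mem h2 h1
    have h4 : s * c * s⁻¹ * c⁻¹ = c ^ 2 := by
      rw [hsc]
      group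
    rw [h4] at h3
    have h5 := Subgroup.pow_mem _ h3 4
    have h6 : (c ^ 2) ^ 4 = c := by
      rw [← pow_mul]
      calc c ^ (2 * 4) = c ^ 7 * c := by rw [← pow_succ]
        _ = c := by rw [hc, one_mul]
    rwa [h6] at h5

/-- Depth of a solution. -/
theorem x_deep {n : ℕ} {s c x : H} (hs : s ∈ derivedSeries H n) (hc : c ^ 7 = 1)
    (hsc : s * c * s⁻¹ = c ^ 3)
    (hx : x * (s * x⁻¹ * s⁻¹) * (s ^ 2 * x * (s ^ 2)⁻¹) = c) :
    ∀ j ≤ n + 1, x ∈ derivedSeries H j := by
  intro j
  induction j with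
  | zero => intro _; simp [derivedSeries_zero]
  | succ j ih =>
    intro hj
    have h1 := ih (by omega)
    have h2 : s ∈ derivedSeries H j := derivedSeries_antitone H (by omega : j ≤ n) hs
    have hcj := c_deep hs hc hsc (j + 1) (by omega)
    have h3 := comm_mem h2 (Subgroup.inv_mem _ h1)
    have h4 := comm_mem (Subgroup.pow_mem _ h2 2) h1
    rw [inv_inv] at h3
    -- `c = x * u * x⁻¹ * v * x`
    have h5 : x = (x * (s * x⁻¹ * s⁻¹ * x) * x⁻¹ * (s ^ 2 * x * (s ^ 2)⁻¹ * x⁻¹))⁻¹ * c := by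
      rw [← hx]
      group
    rw [h5]
    refine Subgroup.mul_mem _ (Subgroup.inv_mem _ (Subgroup.mul_mem _ ?_ h4)) hcj
    exact (derivedSeries_normal H (j + 1)).conj_mem _ h3 x

/-- The obstruction. -/
theorem core {n : ℕ} (hH : derivedSeries H (n + 2) = ⊥) {s c x : H}
    (hs : s ∈ derivedSeries H n) (hs6 : s ^ 6 = 1) (hc : c ^ 7 = 1)
    (hsc : s * c * s⁻¹ = c ^ 3)
    (hx : x * (s * x⁻¹ * s⁻¹) * (s ^ 2 * x * (s ^ 2)⁻¹) = c) : c = 1 := by
  have hxd := x_deep hs hc hsc hx (n + 1) le_rfl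
  have hcomm : ∀ a ∈ derivedSeries H (n + 1), ∀ b ∈ derivedSeries H (n + 1),
      a * b = b * a := by
    intro a ha b hb
    have h := comm_mem ha hb
    rw [hH, Subgroup.mem_bot] at h
    have := mul_inv_eq_one.mp h
    exact mul_inv_eq_iff_eq_mul.mp this
  -- the abelian group `A`
  let A := derivedSeries H (n + 1)
  let _ : CommGroup A := { (inferInstance : Group A) with
    mul_comm := fun a b => Subtype.ext (hcomm a a.2 b b.2) }
  have hN : A.Normal := derivedSeries_normal H (n + 1)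
  let X : ℕ → A := fun k => ⟨s ^ k * x * (s ^ k)⁻¹, hN.conj_mem x hxd _⟩
  have hcd := c_deep hs hc hsc (n + 1) le_rfl
  let C : A := ⟨c, hcd⟩
  have hck : ∀ k : ℕ, s ^ k * c * (s ^ k)⁻¹ = c ^ (3 ^ k) := by
    intro k
    induction k with
    | zero => simp
    | succ k ih =>
      have : s ^ (k + 1) * c * (s ^ (k + 1))⁻¹ = s * (s ^ k * c * (s ^ k)⁻¹) * s⁻¹ := by
        rw [pow_succ']
        group
      rw [this, ih]
      have h2 : s * c ^ 3 ^ k * s⁻¹ = (s * c * s⁻¹) ^ 3 ^ k := by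
        rw [conj_pow]
      rw [h2, hsc, ← pow_mul, pow_succ']
  have hE : ∀ k : ℕ, X k * (X (k + 1))⁻¹ * X (k + 2) = C ^ (3 ^ k) := by
    intro k
    apply Subtype.ext
    change s ^ k * x * (s ^ k)⁻¹ * (s ^ (k + 1) * x * (s ^ (k + 1))⁻¹)⁻¹ *
      (s ^ (k + 2) * x * (s ^ (k + 2))⁻¹) = c ^ (3 ^ k)
    rw [← hck k, ← hx, pow_add s k 2, pow_succ s k]
    group
  have h6 : X 6 = X 0 := by
    apply Subtype.ext
    change s ^ 6 * x * (s ^ 6)⁻¹ = s ^ 0 * x * (s ^ 0)⁻¹
    rw [hs6]
    simp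
  have e0 := hE 0
  have e1 := hE 1
  have e3 := hE 3
  have e4 := hE 4
  norm_num at e0 e1 e3 e4
  have key : C ^ 81 * C ^ 27 * (C ^ 3)⁻¹ * C⁻¹ = 1 := by
    rw [← e4, ← e3, ← e1]
    nth_rewrite 1 [← e0]
    rw [h6]
    simp only [mul_inv_rev, inv_inv]
    generalize X 0 = x0
    generalize X 1 = x1
    generalize X 2 = x2
    generalize X 3 = x3
    generalize X 4 = x4
    generalize X 5 = x5
    have : x4 * x5⁻¹ * x0 * (x3 * x4⁻¹ * x5) * (x3⁻¹ * (x2 * x1⁻¹)) * (x2⁻¹ * (x1 * x0⁻¹)) =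
        (x4 * x4⁻¹) * (x5⁻¹ * x5) * (x0 * x0⁻¹) * (x3 * x3⁻¹) * (x2 * x2⁻¹) * (x1⁻¹ * x1) := by
      ac_rfl
    rw [this]
    simp
  have hC7 : C ^ 7 = 1 := by
    apply Subtype.ext
    change c ^ 7 = 1
    exact hc
  have hC : C = 1 := by
    have h1 : C ^ 81 = C ^ 4 := by
      calc C ^ 81 = (C ^ 7) ^ 11 * C ^ 4 := by rw [← pow_mul, ← pow_add]
        _ = C ^ 4 := by rw [hC7, one_pow, one_mul]
    have h2 : C ^ 27 = C ^ 6 := by
      calc C ^ 27 = (C ^ 7) ^ 3 * C ^ 6 := by rw [← pow_mul, ← pow_add]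
        _ = C ^ 6 := by rw [hC7, one_pow, one_mul]
    rw [h1, h2] at key
    have h3 : C ^ 4 * C ^ 6 * (C ^ 3)⁻¹ * C⁻¹ = C ^ 6 := by group
    rw [h3] at key
    calc C = C ^ 7 * (C ^ 6)⁻¹ := by group
      _ = 1 := by rw [hC7, key]; simp
  exact congrArg Subtype.val hC

end core

section groups

open RegularWreathProduct

/-- Functions with values in a subgroup, trivial top component. -/
def T {L C : Type} [Group L] [Group C] (S : Subgroup L) : Subgroup (L ≀ᵣ C) where
  carrier := {w | w.right = 1 ∧ ∀ q, w.left q ∈ S}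
  one_mem' := ⟨rfl, fun q => by simp [S.one_mem]⟩
  mul_mem' := by
    rintro a b ⟨ha, ha'⟩ ⟨hb, hb'⟩
    refine ⟨by simp [ha, hb], fun q => ?_⟩
    simp only [mul_left, Pi.mul_apply]
    exact S.mul_mem (ha' q) (hb' _)
  inv_mem' := by
    rintro a ⟨ha, ha'⟩
    refine ⟨by simp [ha], fun q => ?_⟩
    simp only [inv_left, Pi.inv_apply]
    exact S.inv_mem (ha' _)

theorem mem_T {L C : Type} [Group L] [Group C] {S : Subgroup L} {w : L ≀ᵣ C} :
    w ∈ T (C := C) S ↔ w.right = 1 ∧ ∀ q, w.left q ∈ S := Iff.rfl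

/-- Elements of `L` which are the value at `1` of an element of `D` with trivial top component. -/
def E {L C : Type} [Group L] [Group C] (D : Subgroup (L ≀ᵣ C)) : Subgroup L where
  carrier := {g | ∃ w ∈ D, w.right = 1 ∧ w.left 1 = g}
  one_mem' := ⟨1, D.one_mem, rfl, rfl⟩
  mul_mem' := by
    rintro _ _ ⟨a, ha, ha1, rfl⟩ ⟨b, hb, hb1, rfl⟩
    refine ⟨a * b, D.mul_mem ha hb, by simp [ha1, hb1], ?_⟩
    simp [mul_left, ha1]
  inv_mem' := by
    rintro _ ⟨a, ha, ha1, rfl⟩
    refine ⟨a⁻¹, D.inv_mem ha, by simp [ha1], ?_⟩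
    simp [inv_left, ha1]

theorem mem_E {L C : Type} [Group L] [Group C] {D : Subgroup (L ≀ᵣ C)} {g : L} :
    g ∈ E D ↔ ∃ w ∈ D, w.right = 1 ∧ w.left 1 = g := Iff.rfl

theorem upper {L C : Type} [Group L] [CommGroup C] (k : ℕ) :
    derivedSeries (L ≀ᵣ C) (k + 1) ≤ T (derivedSeries L k) := by
  induction k with
  | zero =>
    rw [derivedSeries_succ, Subgroup.commutator_le]
    intro a _ b _
    rw [mem_T]
    refine ⟨?_, fun q => by simp [derivedSeries_zero]⟩
    rw [commutatorElement_def]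
    simp only [mul_right, inv_right]
    rw [mul_comm a.right b.right]
    simp
  | succ k ih =>
    rw [derivedSeries_succ, Subgroup.commutator_le]
    intro a ha b hb
    obtain ⟨ha1, ha2⟩ := mem_T.mp (ih ha)
    obtain ⟨hb1, hb2⟩ := mem_T.mp (ih hb)
    rw [mem_T]
    refine ⟨by simp [commutatorElement_def, ha1, hb1], fun q => ?_⟩
    have : (a * b * a⁻¹ * b⁻¹ : L ≀ᵣ C).left q =
        a.left q * b.left q * (a.left q)⁻¹ * (b.left q)⁻¹ := by
      simp [ha1, hb1]
    rw [commutatorElement_def, this]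
    exact comm_mem (ha2 q) (hb2 q)

theorem lower {L C : Type} [Group L] [Group C] (t : C) (ht : t ≠ 1) (k : ℕ) :
    derivedSeries L k ≤ E (derivedSeries (L ≀ᵣ C) (k + 1)) := by
  classical
  induction k with
  | zero =>
    intro g _
    rw [mem_E]
    let a : L ≀ᵣ C := ⟨fun q => if q = 1 then g else 1, 1⟩
    let b : L ≀ᵣ C := ⟨1, t⟩
    refine ⟨a * b * a⁻¹ * b⁻¹, ?_, ?_, ?_⟩
    · exact comm_mem (by simp [derivedSeries_zero]) (by simp [derivedSeries_zero])
    · simp [a, b]
    · have ht' : t⁻¹ ≠ 1 := by simpa using ht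
      simp [a, b, ht']
  | succ k ih =>
    rw [derivedSeries_succ, Subgroup.commutator_le]
    intro g hg h hh
    obtain ⟨a, ha, ha1, rfl⟩ := mem_E.mp (ih hg)
    obtain ⟨b, hb, hb1, rfl⟩ := mem_E.mp (ih hh)
    rw [mem_E]
    refine ⟨a * b * a⁻¹ * b⁻¹, comm_mem ha hb, by simp [ha1, hb1], ?_⟩
    simp [commutatorElement_def, ha1, hb1]

/-- Finite groups of derived length `n + 1` with an element of order `6` in the last nontrivial
derived subgroup. -/
theorem exists_L (n : ℕ) : ∃ (L : Type) (_ : Group L), Finite L ∧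
    derivedSeries L (n + 1) = ⊥ ∧ ∃ s ∈ derivedSeries L n, orderOf s = 6 := by
  induction n with
  | zero =>
    refine ⟨Multiplicative (ZMod 6), inferInstance, inferInstance, ?_, Multiplicative.ofAdd 1,
      by simp [derivedSeries_zero], ?_⟩
    · rw [eq_bot_iff, derivedSeries_succ, Subgroup.commutator_le]
      intro a _ b _
      rw [Subgroup.mem_bot, commutatorElement_eq_one_iff_mul_comm]
      exact mul_comm a b
    · rw [orderOf_ofAdd_eq_addOrderOf, ZMod.addOrderOf_one]
  | succ n ih =>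
    obtain ⟨L, _, _, hL, s, hs, ho⟩ := ih
    let C := Multiplicative (ZMod 2)
    have ht : (Multiplicative.ofAdd (1 : ZMod 2) : C) ≠ 1 := by
      intro h
      have := congrArg Multiplicative.toAdd h
      simp at this
    refine ⟨L ≀ᵣ C, inferInstance, inferInstance, ?_, ?_⟩
    · rw [eq_bot_iff]
      intro w hw
      obtain ⟨h1, h2⟩ := mem_T.mp (upper (L := L) (C := C) (n + 1) hw)
      rw [Subgroup.mem_bot]
      apply RegularWreathProduct.ext
      · funext q
        have := h2 q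
        rw [hL, Subgroup.mem_bot] at this
        simpa using this
      · exact h1
    · obtain ⟨w, hw, h1, h2⟩ := mem_E.mp (lower (L := L) (C := C) _ ht n hs)
      have hpow : ∀ k : ℕ, (w ^ k).right = 1 ∧ (w ^ k).left 1 = s ^ k := by
        intro k
        induction k with
        | zero => simp
        | succ k ih =>
          rw [pow_succ, pow_succ]
          simp [ih.1, ih.2, h1, h2]
      have hdvd : 6 ∣ orderOf w := by
        rw [← ho, orderOf_dvd_iff_pow_eq_one]
        have := (hpow (orderOf w)).2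
        rw [pow_orderOf_eq_one] at this
        simpa using this.symm
      refine ⟨w ^ (orderOf w / 6), Subgroup.pow_mem _ hw _, ?_⟩
      have hpos : orderOf w ≠ 0 := (orderOf_pos w).ne'
      rw [orderOf_pow_orderOf_div hpos hdvd]

/-- The groups. -/
theorem exists_G (n : ℕ) : ∃ (G : Type) (_ : Group G), Finite G ∧
    derivedSeries G (n + 2) = ⊥ ∧ ∃ s ∈ derivedSeries G n, ∃ c : G, s ^ 6 = 1 ∧ c ^ 7 = 1 ∧
      s * c * s⁻¹ = c ^ 3 ∧ c ≠ 1 := by
  classical
  obtain ⟨L, _, _, hL, s, hs, ho⟩ := exists_L n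
  have hs6 : s ^ 6 = 1 := by rw [← ho, pow_orderOf_eq_one]
  have hne : ∀ k : ℕ, 0 < k → k < 6 → s ^ k ≠ 1 := by
    intro k h1 h2 h
    have := Nat.le_of_dvd h1 (orderOf_dvd_of_pow_eq_one h)
    omega
  let A := Multiplicative (ZMod 7)
  let i : L → L → ZMod 7 := fun x y => if x = y then 1 else 0
  let F : L → ZMod 7 := fun x => i x 1 + 5 * i x s + 25 * i x (s ^ 2) + 125 * i x (s ^ 3) +
    625 * i x (s ^ 4) + 3125 * i x (s ^ 5)
  let f : L → A := fun x => Multiplicative.ofAdd (F x)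
  have hF : ∀ x, F (s⁻¹ * x) = 3 * F x := by
    intro x
    have hi : ∀ k : ℕ, i (s⁻¹ * x) (s ^ k) = i x (s ^ (k + 1)) := by
      intro k
      simp only [i]
      have : s⁻¹ * x = s ^ k ↔ x = s ^ (k + 1) := by
        rw [inv_mul_eq_iff_eq_mul, pow_succ']
      simp only [this]
    have h0 : i (s⁻¹ * x) 1 = i x s := by simpa using hi 0
    have h1 : i (s⁻¹ * x) s = i x (s ^ 2) := by simpa using hi 1
    have h5 : i (s⁻¹ * x) (s ^ 5) = i x 1 := by
      rw [hi 5, hs6]
    change i (s⁻¹ * x) 1 + 5 * i (s⁻¹ * x) s + 25 * i (s⁻¹ * x) (s ^ 2) +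
      125 * i (s⁻¹ * x) (s ^ 3) + 625 * i (s⁻¹ * x) (s ^ 4) + 3125 * i (s⁻¹ * x) (s ^ 5) =
      3 * (i x 1 + 5 * i x s + 25 * i x (s ^ 2) + 125 * i x (s ^ 3) +
        625 * i x (s ^ 4) + 3125 * i x (s ^ 5))
    rw [h0, h1, hi 2, hi 3, hi 4, h5]
    have e7 : (7 : ZMod 7) = 0 := by decide
    linear_combination (446 * i x 1 - 2 * i x s - 10 * i x (s ^ 2) - 50 * i x (s ^ 3) -
      250 * i x (s ^ 4) - 1250 * i x (s ^ 5)) * e7
  refine ⟨A ≀ᵣ L, inferInstance, inferInstance, ?_, RegularWreathProduct.inl s, ?_, ⟨f, 1⟩,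
    ?_, ?_, ?_, ?_⟩
  · have h1 : ∀ w ∈ derivedSeries (A ≀ᵣ L) (n + 1), w.right = 1 := by
      intro w hw
      have := map_derivedSeries_le_derivedSeries (RegularWreathProduct.rightHom (D := A) (Q := L))
        (n + 1) (Subgroup.mem_map_of_mem _ hw)
      rw [hL, Subgroup.mem_bot] at this
      exact this
    rw [eq_bot_iff, derivedSeries_succ, Subgroup.commutator_le]
    intro a ha b hb
    rw [Subgroup.mem_bot, commutatorElement_eq_one_iff_mul_comm]
    have ha1 := h1 a ha
    have hb1 := h1 b hb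
    apply RegularWreathProduct.ext
    · funext q
      simp [ha1, hb1, mul_comm]
    · simp [ha1, hb1]
  · exact map_derivedSeries_le_derivedSeries (RegularWreathProduct.inl (D := A) (Q := L)) n
      (Subgroup.mem_map_of_mem _ hs)
  · rw [← map_pow, hs6, map_one]
  · have hpow : ∀ k : ℕ, ((⟨f, 1⟩ : A ≀ᵣ L) ^ k) = ⟨fun x => f x ^ k, 1⟩ := by
      intro k
      induction k with
      | zero =>
        apply RegularWreathProduct.ext
        · funext q; simp
        · simp
      | succ k ih =>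
        rw [pow_succ, ih]
        apply RegularWreathProduct.ext
        · funext q; simp [pow_succ]
        · simp
    rw [hpow 7]
    apply RegularWreathProduct.ext
    · funext q
      change (Multiplicative.ofAdd (F q)) ^ 7 = 1
      rw [← ofAdd_nsmul]
      have : (7 : ℕ) • F q = 0 := by
        rw [nsmul_eq_mul]
        have : ((7 : ℕ) : ZMod 7) = 0 := by decide
        rw [this, zero_mul]
      rw [this]
      rfl
    · rfl
  · have hpow : ((⟨f, 1⟩ : A ≀ᵣ L) ^ 3) = ⟨fun x => f x ^ 3, 1⟩ := by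
      rw [pow_succ, pow_succ, pow_one]
      apply RegularWreathProduct.ext
      · funext q; simp [pow_succ]
      · simp
    rw [hpow]
    apply RegularWreathProduct.ext
    · funext q
      simp only [mul_left, inv_left, RegularWreathProduct.left_inl, mul_right,
        RegularWreathProduct.right_inl, Pi.mul_apply, Pi.one_apply, one_mul, inv_one, mul_one,
        Pi.inv_apply]
      change Multiplicative.ofAdd (F (s⁻¹ * q)) = (Multiplicative.ofAdd (F q)) ^ 3
      rw [← ofAdd_nsmul, hF q, nsmul_eq_mul]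
      rfl
    · simp
  · intro h
    have h1 : f 1 = 1 := by
      have := congrFun (congrArg RegularWreathProduct.left h) 1
      simpa using this
    have h2 : F 1 = 0 := by
      have := congrArg Multiplicative.toAdd h1
      exact this
    have hi1 : i 1 1 = 1 := by simp [i]
    have his : ∀ k : ℕ, 0 < k → k < 6 → i 1 (s ^ k) = 0 := by
      intro k a1 a2
      simp only [i]
      rw [if_neg]
      exact fun h => hne k a1 a2 h.symm
    have h3 : F 1 = 1 := by
      change i 1 1 + 5 * i 1 s + 25 * i 1 (s ^ 2) + 125 * i 1 (s ^ 3) +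
        625 * i 1 (s ^ 4) + 3125 * i 1 (s ^ 5) = 1
      rw [hi1, his 2 (by norm_num) (by norm_num), his 3 (by norm_num) (by norm_num),
        his 4 (by norm_num) (by norm_num), his 5 (by norm_num) (by norm_num)]
      have := his 1 (by norm_num) (by norm_num)
      rw [pow_one] at this
      rw [this]
      simp
    rw [h3] at h2
    exact absurd h2 (by decide)

end groups

end Pool.Agent.R658.UE
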